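import Pool.Agent.Lib.MP_0016c7_nt.PC.A.StmA

set_option autoImplicit false

/-!
[A10] The kernels at the heights `Y ≥ -δ`.
-/

open Finset MeasureTheory Filter Topology
open scoped Real ContDiff

namespace Pool.Agent.MP0016c7.PC

open Pool.Agent.MP0016c7.Rz

private lemma a_cc_HH {δ : ℝ} (hδ : 0 < δ) {h : ℝ → ℝ} {θ : ℝ} (hb : Bump h (2 * δ) θ) {t : ℝ}
    (ht : t ≤ 2 * δ) : HH h t = HH h 0 := by
  have key : ∀ v : ℝ, v ≤ 2 * δ → HH h v = ∫ x in Set.Ioi (2 * δ), h x := by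
    intro v hv
    unfold HH
    refine setIntegral_eq_of_subset_of_forall_sdiff_eq_zero measurableSet_Ioi
      (Set.Ioi_subset_Ioi hv) ?_
    intro x hx
    by_contra hne
    exact hx.2 (hb.supp x hne).1
  rw [key t ht, key 0 (by linarith)]

private noncomputable def a_cc_k (Y₁ Y₂ : ℝ) (p : ℝ × ℝ) : ℝ :=
  max (min (Y₁ - p.1) (Y₂ - p.2)) 0 - max (Y₁ - p.1 + (Y₂ - p.2) - 1) 0

private lemma a_cc_k_cont (Y₁ Y₂ : ℝ) : Continuous (a_cc_k Y₁ Y₂) := by
  unfold a_cc_k
  fun_prop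

private lemma a_cc_zero {δ : ℝ} {ρ : ℝ → ℝ} (hρ : Bump ρ (-(δ / 2)) (δ / 2)) {x : ℝ}
    (hx : x ∉ Set.Icc (-(δ / 2)) (δ / 2)) : ρ x = 0 := by
  by_contra hne
  have := hρ.supp x hne
  exact hx ⟨this.1.le, this.2.le⟩

theorem p_A_CC : A_CC := by
  intro δ hδ ρ h₁ h₂ θ₁ θ₂ hρ hρ1 hh₁ hh₂
  have hc : Continuous ρ := hρ.smooth.continuous
  refine ⟨?_, ?_⟩
  · intro Y hY
    have e : (fun y => ρ y * HH h₁ (y - Y)) = fun y => ρ y * HH h₁ 0 := by
      funext y
      by_cases hy : ρ y = 0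
      · rw [hy, zero_mul, zero_mul]
      · have := (hρ.supp y hy).2
        rw [a_cc_HH hδ hh₁ (by linarith)]
    rw [e, integral_mul_const, hρ1, one_mul]
  · intro Y₁ Y₂ hY₁ hY₂
    set A : ℝ := HH h₁ 0 * HH h₂ 0 with hA
    set I : ℝ := ∫ t, h₁ t * h₂ t with hI
    set F : ℝ × ℝ → ℝ := fun p => ρ p.1 * ρ p.2 * a_cc_k Y₁ Y₂ p with hF
    have hFc : Continuous F := by
      have := a_cc_k_cont Y₁ Y₂
      exact ((hc.comp continuous_fst).mul (hc.comp continuous_snd)).mul this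
    have hFs : HasCompactSupport F := by
      refine HasCompactSupport.intro
        ((isCompact_Icc (a := -(δ / 2)) (b := δ / 2)).prod (isCompact_Icc (a := -(δ / 2)) (b := δ / 2)))
        ?_
      intro p hp
      by_cases h1 : p.1 ∈ Set.Icc (-(δ / 2)) (δ / 2)
      · have h2 : p.2 ∉ Set.Icc (-(δ / 2)) (δ / 2) := fun h2 => hp ⟨h1, h2⟩
        simp [hF, a_cc_zero hρ h2]
      · simp [hF, a_cc_zero hρ h1]
    have hFi : Integrable F (volume.prod volume) := hFc.integrable_of_hasCompactSupport hFs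
    have hρi : Integrable ρ := by
      refine hc.integrable_of_hasCompactSupport (HasCompactSupport.intro
        (isCompact_Icc (a := -(δ / 2)) (b := δ / 2)) (fun x hx => a_cc_zero hρ hx))
    have hin : ∀ x : ℝ, Integrable (fun y => F (x, y)) := by
      intro x
      refine (hFc.comp (Continuous.prodMk_right x)).integrable_of_hasCompactSupport
        (HasCompactSupport.intro (isCompact_Icc (a := -(δ / 2)) (b := δ / 2)) (fun y hy => ?_))
      simp [hF, a_cc_zero hρ hy]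
    have e : ∀ x y : ℝ, ρ x * ρ y * (HH h₁ (x - Y₁) * HH h₂ (y - Y₂) +
        I * (max (min (Y₁ - x) (Y₂ - y)) 0 - max (Y₁ - x + (Y₂ - y) - 1) 0)) =
        (ρ x * A) * ρ y + I * F (x, y) := by
      intro x y
      have hk : F (x, y) = ρ x * ρ y *
        (max (min (Y₁ - x) (Y₂ - y)) 0 - max (Y₁ - x + (Y₂ - y) - 1) 0) := rfl
      rw [hk]
      by_cases hx : ρ x = 0
      · simp [hx]
      by_cases hy : ρ y = 0
      · simp [hy]
      have h1 := (hρ.supp x hx).2
      have h2 := (hρ.supp y hy).2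
      rw [a_cc_HH hδ hh₁ (show x - Y₁ ≤ 2 * δ by linarith),
        a_cc_HH hδ hh₂ (show y - Y₂ ≤ 2 * δ by linarith), hA]
      ring
    have e2 : CC2 ρ ρ h₁ h₂ Y₁ Y₂ = ∫ x : ℝ, ∫ y : ℝ, ((ρ x * A) * ρ y + I * F (x, y)) := by
      unfold CC2
      refine integral_congr_ae (Filter.Eventually.of_forall (fun x => ?_))
      refine integral_congr_ae (Filter.Eventually.of_forall (fun y => ?_))
      exact e x y
    have e3 : ∀ x : ℝ, ∫ y : ℝ, ((ρ x * A) * ρ y + I * F (x, y)) =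
        ρ x * A + I * ∫ y, F (x, y) := by
      intro x
      rw [integral_add (hρi.const_mul _) ((hin x).const_mul _), integral_const_mul,
        integral_const_mul, hρ1, mul_one]
    rw [e2]
    simp only [e3]
    rw [integral_add (hρi.mul_const _) (hFi.integral_prod_left.const_mul _), integral_mul_const,
      integral_const_mul, hρ1, one_mul]
    rfl

end Pool.Agent.MP0016c7.PC
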