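import Pool.Agent.Lib.MP_0016c7_nt.PC.A.StmA

set_option autoImplicit false

/-!
Project PrimeConductors, block [A]: the smooth majorant of the window weight.
-/

open Finset MeasureTheory Filter Topology
open scoped Real ContDiff

namespace Pool.Agent.MP0016c7.PC

open Pool.Agent.MP0016c7.Rz
open Pool.Agent.BVall (OmL)
open Pool.Agent.MP89da58 (tri cX)

/-- the majorant -/
private noncomputable def a_f_F (e lam : ℝ) (G : ℝ → ℝ) (t : ℝ) : ℝ :=
  if t ≤ 0 then 0 else (1 + e) * (Real.exp (1 / lam) / t) * G (lam * Real.log t - 1)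

private theorem a_f_pos {e lam t : ℝ} {G : ℝ → ℝ} (ht : 0 < t) :
    a_f_F e lam G t = (1 + e) * (Real.exp (1 / lam) / t) * G (lam * Real.log t - 1) := by
  unfold a_f_F
  rw [if_neg (not_le.2 ht)]

private theorem a_f_supp {e lam t : ℝ} {G : ℝ → ℝ} (he : e ≤ 1 / 20) (hlam : 3 ≤ lam)
    (hG : Bump G (-(1 + e)) (1 + e)) (ht : a_f_F e lam G t ≠ 0) :
    Real.exp (-e / lam) < t ∧ t < 2 := by
  have hlam0 : 0 < lam := by linarith
  have h0 : 0 < t := by
    by_contra hcon
    apply ht
    unfold a_f_F
    rw [if_pos (not_lt.1 hcon)]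
  rw [a_f_pos h0] at ht
  have h1 := hG.supp _ (right_ne_zero_of_mul ht)
  have h2 : -e / lam < Real.log t := by
    rw [div_lt_iff₀ hlam0]
    linarith [h1.1]
  have h3 : Real.log t < (2 + e) / lam := by
    rw [lt_div_iff₀ hlam0]
    linarith [h1.2]
  have h4 : (2 + e) / lam ≤ (2 + 1 / 20) / 3 := by
    rw [div_le_div_iff₀ hlam0 (by norm_num)]
    nlinarith
  have h5 : (2 + 1 / 20) / 3 < Real.log 2 := by
    have := Real.log_two_gt_d9
    norm_num at this ⊢
    linarith
  constructor
  · rw [← Real.exp_log h0]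
    exact Real.exp_lt_exp.2 h2
  · have h6 : Real.log t < Real.log 2 := by linarith
    exact (Real.log_lt_log_iff h0 (by norm_num)).1 h6

private theorem a_f_smooth {e lam : ℝ} {G : ℝ → ℝ} (he : e ≤ 1 / 20) (hlam : 3 ≤ lam)
    (hG : Bump G (-(1 + e)) (1 + e)) : ContDiff ℝ ∞ (a_f_F e lam G) := by
  rw [contDiff_iff_contDiffAt]
  intro t
  rcases lt_or_ge 0 t with ht | ht
  · have h1 : a_f_F e lam G =ᶠ[𝓝 t]
        fun t => (1 + e) * (Real.exp (1 / lam) / t) * G (lam * Real.log t - 1) := by
      filter_upwards [lt_mem_nhds ht] with s hs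
      exact a_f_pos hs
    refine ContDiffAt.congr_of_eventuallyEq ?_ h1
    have h2 : ContDiffAt ℝ ∞ (fun t : ℝ => lam * Real.log t - 1) t :=
      (contDiffAt_const.mul (Real.contDiffAt_log.2 ht.ne')).sub contDiffAt_const
    have h3 : ContDiffAt ℝ ∞ (fun t : ℝ => G (lam * Real.log t - 1)) t :=
      hG.smooth.contDiffAt.comp t h2
    have h4 : ContDiffAt ℝ ∞ (fun t : ℝ => (1 + e) * (Real.exp (1 / lam) / t)) t :=
      contDiffAt_const.mul (contDiffAt_const.div contDiffAt_id ht.ne')
    exact h4.mul h3
  · have h1 : a_f_F e lam G =ᶠ[𝓝 t] fun _ => 0 := by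
      filter_upwards [gt_mem_nhds (lt_of_le_of_lt ht (Real.exp_pos (-e / lam)))] with s hs
      by_contra hcon
      exact absurd (a_f_supp he hlam hG hcon).1 (not_lt.2 (le_of_lt hs))
    exact ContDiffAt.congr_of_eventuallyEq contDiffAt_const h1

private theorem a_f_integral {e lam : ℝ} {G : ℝ → ℝ} (he0 : 0 ≤ e) (hlam : 3 ≤ lam) :
    ∫ t, a_f_F e lam G t = (1 + e) * Real.exp (1 / lam) * (lam⁻¹ * ∫ x, G x) := by
  have hlam0 : 0 < lam := by linarith
  have h1 : ∫ t, a_f_F e lam G t = ∫ t in Set.Ioi (0 : ℝ), a_f_F e lam G t := by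
    refine (setIntegral_eq_integral_of_forall_compl_eq_zero fun x hx => ?_).symm
    unfold a_f_F
    rw [if_pos (not_lt.1 hx)]
  have h2 : Real.exp '' Set.univ = Set.Ioi 0 := by
    rw [Set.image_univ, Real.range_exp]
  rw [h1, ← h2, integral_image_eq_integral_abs_deriv_smul MeasurableSet.univ
    (fun x _ => (Real.hasDerivAt_exp x).hasDerivWithinAt) (Real.exp_injective.injOn)]
  rw [Measure.restrict_univ]
  have h3 : ∀ u : ℝ, |Real.exp u| • a_f_F e lam G (Real.exp u) =
      (1 + e) * Real.exp (1 / lam) * G (lam * u - 1) := by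
    intro u
    rw [a_f_pos (Real.exp_pos u), abs_of_pos (Real.exp_pos u), smul_eq_mul, Real.log_exp]
    have := (Real.exp_pos u).ne'
    field_simp
  simp only [h3]
  rw [integral_const_mul]
  congr 1
  have h4 := Measure.integral_comp_mul_left (fun x => G (x - 1)) lam
  rw [h4, integral_sub_right_eq_self, abs_of_pos (inv_pos.2 hlam0), smul_eq_mul]

theorem p_A_F (h : A_tri) : A_F := by
  intro lam hlam ε hε
  have hlam0 : 0 < lam := by linarith
  set e : ℝ := min (ε / 4) (1 / 20) with he
  have he0 : 0 < e := by positivity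
  have he1 : 4 * e ≤ ε := by
    have := min_le_left (ε / 4) (1 / 20)
    linarith
  have he2 : e ≤ 1 / 20 := min_le_right _ _
  obtain ⟨G, hG, G0, Gt, GI⟩ := h e he0
  have hF0 : ∀ t, 0 ≤ a_f_F e lam G t := by
    intro t
    rcases lt_or_ge 0 t with ht | ht
    · rw [a_f_pos ht]
      have := G0 (lam * Real.log t - 1)
      positivity
    · unfold a_f_F
      rw [if_pos ht]
  have hsm := a_f_smooth he2 hlam hG
  refine ⟨a_f_F e lam G, Real.exp (-e / lam), Real.exp_pos _, ⟨hsm, fun t ht => a_f_supp he2 hlam hG ht⟩,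
    hF0, ?_, ?_, ?_⟩
  · have hcs : HasCompactSupport (a_f_F e lam G) := by
      refine HasCompactSupport.intro (K := Set.Icc (Real.exp (-e / lam)) 2) isCompact_Icc
        fun x hx => ?_
      by_contra hcon
      have h1 := a_f_supp he2 hlam hG hcon
      exact hx ⟨h1.1.le, h1.2.le⟩
    refine hsm.continuous.integral_pos_of_hasCompactSupport_nonneg_nonzero hcs hF0
      (x := Real.exp (1 / lam)) ?_
    rw [a_f_pos (Real.exp_pos _), Real.log_exp, div_self (Real.exp_pos _).ne', mul_one]
    have h1 : lam * (1 / lam) - 1 = 0 := by field_simp; ring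
    rw [h1]
    have h2 := Gt 0
    have h3 : tri 0 = 1 := by
      unfold tri
      simp
    rw [h3] at h2
    have : 0 < (1 + e) * G 0 := by positivity
    exact this.ne'
  · rw [a_f_integral he0.le hlam]
    have h1 : 0 < Real.exp (1 / lam) := Real.exp_pos _
    have h2 : lam⁻¹ * ∫ x, G x ≤ lam⁻¹ * (1 + e) :=
      mul_le_mul_of_nonneg_left GI (inv_pos.2 hlam0).le
    calc (1 + e) * Real.exp (1 / lam) * (lam⁻¹ * ∫ x, G x)
        ≤ (1 + e) * Real.exp (1 / lam) * (lam⁻¹ * (1 + e)) :=
          mul_le_mul_of_nonneg_left h2 (by positivity)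
      _ = (1 + e) ^ 2 * (Real.exp (1 / lam) / lam) := by
          rw [div_eq_mul_inv]; ring
      _ ≤ (1 + ε) * (Real.exp (1 / lam) / lam) := by
          apply mul_le_mul_of_nonneg_right _ (by positivity)
          nlinarith
  · -- domination
    have hlim : Tendsto (fun X : ℝ => Real.exp (1 / Real.log X)) atTop (𝓝 1) := by
      have h1 : Tendsto (fun X : ℝ => 1 / Real.log X) atTop (𝓝 0) := by
        have := Real.tendsto_log_atTop.inv_tendsto_atTop
        refine this.congr fun X => ?_
        rw [one_div]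
        rfl
      have h2 := (Real.continuous_exp.tendsto 0).comp h1
      rwa [Real.exp_zero] at h2
    filter_upwards [hlim.eventually (gt_mem_nhds (show (1 : ℝ) < 1 + e by linarith)),
      eventually_gt_atTop (Real.exp 1)] with X hX hX1 n hn
    have hX0 : 0 < X := (Real.exp_pos 1).trans hX1
    have hlogX : 1 < Real.log X := by
      rw [Real.lt_log_iff_exp_lt hX0]
      exact hX1
    have hn0 : (0 : ℝ) < n := by exact_mod_cast hn
    set Z : ℝ := X * Real.exp (1 / lam) with hZ
    have hZ0 : 0 < Z := by positivity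
    have hlogZ : Real.log Z = Real.log X + 1 / lam := by
      rw [hZ, Real.log_mul hX0.ne' (Real.exp_pos _).ne', Real.log_exp]
    have hlogZ1 : Real.log X ≤ Real.log Z := by
      rw [hlogZ]
      have : 0 < 1 / lam := by positivity
      linarith
    unfold OmL
    by_cases htri : tri (lam * Real.log (n / Z)) = 0
    · rw [htri, mul_zero]
      exact hF0 _
    · have hu : |lam * Real.log (n / Z)| < 1 := by
        by_contra hcon
        apply htri
        unfold tri
        exact max_eq_left (by linarith [not_lt.1 hcon])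
      have hlognZ : Real.log (n / Z) = Real.log (n / X) - 1 / lam := by
        rw [Real.log_div hn0.ne' hZ0.ne', hlogZ, Real.log_div hn0.ne' hX0.ne']
        ring
      have harg : lam * Real.log (n / Z) = lam * Real.log (n / X) - 1 := by
        rw [hlognZ, mul_sub, mul_one_div_cancel hlam0.ne']
      have hu1 : |Real.log (n / Z)| ≤ 1 := by
        rw [abs_mul, abs_of_pos hlam0] at hu
        nlinarith [abs_nonneg (Real.log (n / Z))]
      have hpow : (Z / n) ^ cX Z ≤ (Z / n) * (1 + e) := by
        have hZn : 0 < Z / n := by positivity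
        unfold cX
        rw [Real.rpow_add hZn, Real.rpow_one]
        apply mul_le_mul_of_nonneg_left _ hZn.le
        rw [Real.rpow_def_of_pos hZn]
        refine le_trans ?_ hX.le
        apply Real.exp_le_exp.2
        have h1 : Real.log (Z / n) = - Real.log (n / Z) := by
          rw [← Real.log_inv, inv_div]
        rw [h1]
        have h2 : - Real.log (n / Z) ≤ 1 := by
          have := abs_le.1 hu1
          linarith [this.1]
        have hlogZ0 : 0 < Real.log Z := by linarith
        calc -Real.log (n / Z) * (1 / Real.log Z) ≤ 1 * (1 / Real.log Z) :=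
              mul_le_mul_of_nonneg_right h2 (by positivity)
          _ = 1 / Real.log Z := one_mul _
          _ ≤ 1 / Real.log X := one_div_le_one_div_of_le (by linarith) hlogZ1
      rw [a_f_pos (div_pos hn0 hX0), harg]
      have hZn : Z / n = Real.exp (1 / lam) / (n / X) := by
        rw [hZ]
        field_simp
      have ht0 : 0 ≤ tri (lam * Real.log (n / X) - 1) := le_max_left _ _
      calc (Z / n) ^ cX Z * tri (lam * Real.log (n / X) - 1)
          ≤ ((Z / n) * (1 + e)) * tri (lam * Real.log (n / X) - 1) :=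
            mul_le_mul_of_nonneg_right hpow ht0
        _ ≤ ((Z / n) * (1 + e)) * G (lam * Real.log (n / X) - 1) :=
            mul_le_mul_of_nonneg_left (Gt _) (by positivity)
        _ = (1 + e) * (Real.exp (1 / lam) / (n / X)) * G (lam * Real.log (n / X) - 1) := by
            rw [hZn]; ring

end Pool.Agent.MP0016c7.PC
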