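import Pool.Agent.Lib.MP_0016c7_nt.PC.A.StmA
import Pool.Agent.Lib.MP_0da313_nt.BV.BvL

set_option autoImplicit false

/-!
Block [A], piece A_SO: the mass of the windows.
-/

open Finset MeasureTheory Filter Topology
open scoped Real ContDiff

namespace Pool.Agent.MP0016c7.PC

open Pool.Agent.MP0016c7.Rz
open Pool.Agent.BVall (OmL OmL_le OmL_nonneg OmL_eq_zero_of_large)
open Pool.Agent.MP89da58 (tri cX)

private theorem a_so_cont_tri : Continuous tri := by
  unfold Pool.Agent.MP89da58.tri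
  fun_prop

private theorem a_so_tri_zero {u : ℝ} (hu : 1 ≤ |u|) : tri u = 0 := by
  unfold Pool.Agent.MP89da58.tri
  exact max_eq_left (by linarith)

private theorem a_so_tri_in {u : ℝ} (hu : |u| ≤ 1) : tri u = 1 - |u| := by
  unfold Pool.Agent.MP89da58.tri
  exact max_eq_right (by linarith)

/-- the integral of the triangle function -/
theorem a_so_int_tri : ∫ u, tri u = 1 := by
  have h1 : ∫ u, tri u = ∫ u in Set.Ioc (-1 : ℝ) 1, tri u := by
    symm
    apply setIntegral_eq_integral_of_forall_compl_eq_zero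
    intro u hu
    apply a_so_tri_zero
    by_contra h
    rw [not_le, abs_lt] at h
    exact hu ⟨h.1, h.2.le⟩
  rw [h1, ← intervalIntegral.integral_of_le (by norm_num)]
  have hc := a_so_cont_tri
  rw [← intervalIntegral.integral_add_adjacent_intervals (b := 0) (hc.intervalIntegrable _ _)
    (hc.intervalIntegrable _ _)]
  have h2 : ∫ u in (-1 : ℝ)..0, tri u = ∫ u in (-1 : ℝ)..0, (1 + u) := by
    apply intervalIntegral.integral_congr
    intro u hu
    rw [Set.uIcc_of_le (by norm_num)] at hu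
    rw [a_so_tri_in, abs_of_nonpos hu.2]
    · ring
    · rw [abs_of_nonpos hu.2]
      linarith [hu.1]
  have h3 : ∫ u in (0 : ℝ)..1, tri u = ∫ u in (0 : ℝ)..1, (1 - u) := by
    apply intervalIntegral.integral_congr
    intro u hu
    rw [Set.uIcc_of_le (by norm_num)] at hu
    rw [a_so_tri_in, abs_of_nonneg hu.1]
    rw [abs_of_nonneg hu.1]
    exact hu.2
  rw [h2, h3, intervalIntegral.integral_add (by simp) (by simp), intervalIntegral.integral_sub (by simp) (by simp)]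
  simp
  norm_num

/-- the limit function -/
private theorem a_so_lim_int (lam : ℝ) (hlam : 1 ≤ lam) :
    ∫ s in (0 : ℝ)..4, s⁻¹ * tri (lam * Real.log s) = 1 / lam := by
  have hlam0 : 0 < lam := by linarith
  have hlog4 : 1 ≤ Real.log 4 := by
    have h1 : Real.log 4 = 2 * Real.log 2 := by
      rw [show (4 : ℝ) = 2 ^ 2 by norm_num, Real.log_pow]
      norm_num
    rw [h1]
    linarith [Real.log_two_gt_d9]
  have h1 : ∫ s in (0 : ℝ)..4, s⁻¹ * tri (lam * Real.log s) = ∫ s in Set.Ioi (0 : ℝ), s⁻¹ * tri (lam * Real.log s) := by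
    rw [intervalIntegral.integral_of_le (by norm_num)]
    symm
    apply setIntegral_eq_of_subset_of_forall_sdiff_eq_zero measurableSet_Ioi Set.Ioc_subset_Ioi_self
    intro s hs
    have hs0 : 0 < s := hs.1
    have hs4 : 4 < s := by
      by_contra h
      exact hs.2 ⟨hs0, not_lt.mp h⟩
    have h2 : 1 ≤ Real.log s := hlog4.trans (Real.log_le_log (by norm_num) hs4.le)
    rw [a_so_tri_zero, mul_zero]
    rw [abs_mul, abs_of_pos hlam0, abs_of_nonneg (by linarith)]
    nlinarith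
  rw [h1]
  have h2 : Set.Ioi (0 : ℝ) = Real.exp '' Set.univ := by
    rw [Set.image_univ, Real.range_exp]
  rw [h2, integral_image_eq_integral_abs_deriv_smul (f' := Real.exp) MeasurableSet.univ
    (fun x _ => (Real.hasDerivAt_exp x).hasDerivWithinAt) (Real.exp_injective.injOn)]
  rw [setIntegral_univ]
  have h3 : ∀ x : ℝ, |Real.exp x| • ((Real.exp x)⁻¹ * tri (lam * Real.log (Real.exp x))) = tri (lam * x) := by
    intro x
    rw [Real.log_exp, abs_of_pos (Real.exp_pos x), smul_eq_mul, ← mul_assoc, mul_inv_cancel₀ (Real.exp_pos x).ne', one_mul]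
  simp only [h3]
  have h4 := MeasureTheory.Measure.integral_comp_mul_left tri lam
  rw [h4, a_so_int_tri, abs_of_pos (inv_pos.mpr hlam0)]
  simp

private theorem a_so_ceil (F : ℕ → ℝ) (B : ℝ) (hF : ∀ n, |F n| ≤ B) (a b : ℝ) :
    IntervalIntegrable (fun x : ℝ => F ⌈x⌉₊) volume a b := by
  refine (intervalIntegrable_const (c := B)).mono_fun ?_ ?_
  · exact ((measurable_from_nat (f := F)).comp Nat.measurable_ceil).aestronglyMeasurable
  · refine Eventually.of_forall fun x => ?_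
    exact (hF _).trans (le_abs_self B)

private theorem a_so_sum (F : ℕ → ℝ) (B : ℝ) (hF : ∀ n, |F n| ≤ B) (N : ℕ) :
    ∫ x in (0 : ℝ)..N, F ⌈x⌉₊ = ∑ n ∈ Icc 1 N, F n := by
  induction N with
  | zero => simp
  | succ N ih =>
    rw [Finset.sum_Icc_succ_top (by omega), ← ih,
      ← intervalIntegral.integral_add_adjacent_intervals (a_so_ceil F B hF 0 N) (a_so_ceil F B hF N _)]
    congr 1
    have h1 : ∫ x in (N : ℝ)..((N + 1 : ℕ) : ℝ), F ⌈x⌉₊ = ∫ x in (N : ℝ)..((N + 1 : ℕ) : ℝ), F (N + 1) := by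
      apply intervalIntegral.integral_congr_ae
      refine Eventually.of_forall fun x hx => ?_
      rw [Set.uIoc_of_le (by push_cast; linarith)] at hx
      have h2 : ⌈x⌉₊ = N + 1 := by
        rw [Nat.ceil_eq_iff (by omega)]
        constructor
        · simpa using hx.1
        · exact hx.2
      rw [h2]
    rw [h1]
    simp

private theorem a_so_eq (lam : ℝ) (hlam : 1 ≤ lam) (Z : ℝ) (hZ : Real.exp 1 ≤ Z) :
    SO lam Z / Z = ∫ s in (0 : ℝ)..4, OmL lam Z ⌈s * Z⌉₊ := by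
  have hZ0 : 0 < Z := lt_of_lt_of_le (Real.exp_pos 1) hZ
  have hlog : 1 ≤ Real.log Z := (Real.le_log_iff_exp_le hZ0).mpr hZ
  have hB : ∀ n, |OmL lam Z n| ≤ 8 := by
    intro n
    rw [abs_of_nonneg (OmL_nonneg lam hZ0.le n)]
    exact OmL_le hlam hZ0.le hlog n
  rw [intervalIntegral.integral_comp_mul_right (fun x => OmL lam Z ⌈x⌉₊) hZ0.ne', zero_mul, smul_eq_mul]
  have he : Real.exp 1 < 3 := Real.exp_one_lt_three
  have h1 : ∫ x in (0 : ℝ)..(4 * Z), OmL lam Z ⌈x⌉₊ = ∫ x in (0 : ℝ)..(⌊3 * Z⌋₊ : ℕ), OmL lam Z ⌈x⌉₊ := by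
    rw [← intervalIntegral.integral_add_adjacent_intervals (a_so_ceil (OmL lam Z) 8 hB 0 (⌊3 * Z⌋₊ : ℕ))
      (a_so_ceil (OmL lam Z) 8 hB (⌊3 * Z⌋₊ : ℕ) (4 * Z))]
    have h2 : ∫ x in ((⌊3 * Z⌋₊ : ℕ) : ℝ)..(4 * Z), OmL lam Z ⌈x⌉₊ = ∫ x in ((⌊3 * Z⌋₊ : ℕ) : ℝ)..(4 * Z), (0 : ℝ) := by
      apply intervalIntegral.integral_congr_ae
      refine Eventually.of_forall fun x hx => ?_
      have h3 : ((⌊3 * Z⌋₊ : ℕ) : ℝ) ≤ 4 * Z := (Nat.floor_le (by positivity)).trans (by linarith)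
      rw [Set.uIoc_of_le h3] at hx
      apply OmL_eq_zero_of_large hlam hZ0
      have h4 : ⌊3 * Z⌋₊ < ⌈x⌉₊ := Nat.lt_ceil.mpr hx.1
      have h5 : 3 * Z < (⌈x⌉₊ : ℝ) := (Nat.floor_lt (by positivity)).mp h4
      nlinarith
    rw [h2]
    simp
  rw [h1, a_so_sum (OmL lam Z) 8 hB, SO]
  ring

private theorem a_so_tendsto (lam : ℝ) (hlam : 1 ≤ lam) :
    Tendsto (fun Z : ℝ => ∫ s in (0 : ℝ)..4, OmL lam Z ⌈s * Z⌉₊) atTop
      (𝓝 (∫ s in (0 : ℝ)..4, s⁻¹ * tri (lam * Real.log s))) := by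
  apply intervalIntegral.tendsto_integral_filter_of_dominated_convergence (fun _ => (8 : ℝ))
  · refine Eventually.of_forall fun Z => ?_
    exact (((measurable_from_nat (f := OmL lam Z)).comp Nat.measurable_ceil).comp
      (measurable_id.mul_const Z)).aestronglyMeasurable
  · filter_upwards [eventually_ge_atTop (Real.exp 1)] with Z hZ
    have hZ0 : 0 < Z := lt_of_lt_of_le (Real.exp_pos 1) hZ
    have hlog : 1 ≤ Real.log Z := (Real.le_log_iff_exp_le hZ0).mpr hZ
    refine Eventually.of_forall fun s _ => ?_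
    rw [Real.norm_eq_abs, abs_of_nonneg (OmL_nonneg lam hZ0.le _)]
    exact OmL_le hlam hZ0.le hlog _
  · exact intervalIntegrable_const
  · refine Eventually.of_forall fun s hs => ?_
    rw [Set.uIoc_of_le (by norm_num)] at hs
    have hs0 : 0 < s := hs.1
    have t1 : Tendsto (fun Z : ℝ => (⌈s * Z⌉₊ : ℝ) / Z) atTop (𝓝 s) := tendsto_nat_ceil_mul_div_atTop hs0.le
    have t2 : Tendsto (fun Z : ℝ => Z / (⌈s * Z⌉₊ : ℝ)) atTop (𝓝 s⁻¹) := by
      have := t1.inv₀ hs0.ne'
      simpa using this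
    have t3 : Tendsto (fun Z : ℝ => cX Z) atTop (𝓝 1) := by
      unfold Pool.Agent.MP89da58.cX
      have := (tendsto_const_nhds (x := (1 : ℝ))).add (Real.tendsto_log_atTop.inv_tendsto_atTop)
      simpa using this
    have t4 := t2.rpow t3 (Or.inl (inv_ne_zero hs0.ne'))
    rw [Real.rpow_one] at t4
    have t5 : Tendsto (fun Z : ℝ => tri (lam * Real.log ((⌈s * Z⌉₊ : ℝ) / Z))) atTop (𝓝 (tri (lam * Real.log s))) :=
      (a_so_cont_tri.tendsto _).comp ((t1.log hs0.ne').const_mul lam)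
    exact t4.mul t5

theorem p_A_SO : A_SO := by
  intro lam hlam ε hε
  have h := a_so_tendsto lam hlam
  rw [a_so_lim_int lam hlam, Metric.tendsto_nhds] at h
  filter_upwards [h ε hε, eventually_ge_atTop (Real.exp 1)] with Z hZ hZe
  rw [a_so_eq lam hlam Z hZe]
  rw [Real.dist_eq] at hZ
  exact hZ.le

end Pool.Agent.MP0016c7.PC
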