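import Mathlib
import Pool.Agent.Lib.MP_0016c7_nt.PC.Iface
import Pool.Agent.Lib.MP_0016c7_nt.PC.Iface2
import Pool.Agent.Lib.MP_0da313_nt.BV.DefsL

set_option autoImplicit false

/-!
Project PrimeConductors, block [A]: the bad primes in one window (pieces of JF_window).
Everything lives in `Pool.Agent.MP0016c7.PC`; a piece `A_x : Prop` is proved as
`theorem p_A_x (dependencies) : A_x`.
-/

open Finset MeasureTheory Filter Topology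
open scoped Real ContDiff

namespace Pool.Agent.MP0016c7.PC

open Pool.Agent.MP0016c7.Rz
open Pool.Agent.BVall (OmL)
open Pool.Agent.MP89da58 (tri cX)

/-- The members of the class `R` up to `2 X`. -/
noncomputable def SX (R : ℕ → Prop) (X : ℝ) : Finset ℕ :=
  @Finset.filter ℕ R (Classical.decPred _) (Icc 1 ⌊2 * X⌋₊)

/-- The window measure on the primes of the class `R` (normalised by `1 / X`). -/
noncomputable def cfP (R : ℕ → Prop) (lam X : ℝ) (d : ℕ) : ℝ :=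
  @ite ℝ (d.Prime ∧ R d) (Classical.dec _)
    (Real.log d * OmL lam (X * Real.exp (1 / lam)) d / X) 0

/-- The sieve measure. -/
noncomputable def cfS (w : ℕ → ℝ) (F : ℝ → ℝ) (ε X : ℝ) (d : ℕ) : ℝ :=
  (1 + ε) * Real.log X / X * (∑ m ∈ d.divisors, w m) * F (d / X)

/-- The mass of the window measure. -/
noncomputable def IX (D lam X : ℝ) : ℝ := 2 * D * SO lam (X * Real.exp (1 / lam)) / X

/-- [A1] The mass of the windows (`Z` is the centre).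
Size M. Proof. `f(t) := (Z/t) * tri (lam * log (t/Z))`. For `n ≥ 1` put `u = log (n/Z)`;
`OmL lam Z n = f(n) * exp(-u / log Z)` (as `cX Z = 1 + 1/log Z` and `(Z/n) = exp(-u)`), and both
vanish unless `|u| < 1/lam ≤ 1`, so `|OmL lam Z n - f(n)| ≤ 3 * (2 / log Z)` there
(`f ≤ e ≤ 3`, `|exp(-x) - 1| ≤ 2|x|` for `|x| ≤ 1`), in total at most `3 Z * 6 / log Z`.
`Z/3 < Z/e < n < e Z < 3 Z` on the support.
Riemann sum: `f(t) = φ(log (t/Z))`, `φ(u) = exp(-u) tri(lam u)` is bounded by `3` and Lipschitz with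
a constant `3 + 3 lam` (on `[-1,1]`, zero outside of `(-1/lam, 1/lam)`); for `t ∈ [n, n+1]`,
`n ≥ Z/3 - 1`: `|log(t/Z) - log(n/Z)| ≤ 1/n ≤ 6/Z`; sum over the at most `3 Z + 1` integers: the sum
of `f(n)` differs from `∫_0^∞ f(t) dt` by at most a constant depending on `lam`. Substituting
`t = Z exp(u)`: `∫ f(t) dt = Z ∫ exp(-u) tri(lam u) exp(u) du = Z ∫ tri (lam u) du = Z / lam`.
Divide by `Z`. -/
def A_SO : Prop :=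
  ∀ lam : ℝ, 1 ≤ lam → ∀ ε : ℝ, 0 < ε → ∀ᶠ Z : ℝ in atTop, |SO lam Z / Z - 1 / lam| ≤ ε

/-- [A2] A smooth majorant of the triangle function.
Size S/M. Proof. Put `e := min ε 1 / 4`, `T(x) := max 0 (1 + e - |x|)` (continuous, `≥ 0`, zero for
`|x| ≥ 1 + e`, `∫ T = (1+e)^2`), `φ` an even smooth bump of mass one supported in `(-e, e)`
(`exists_rho (2 e)` of Rz/TestR.lean), `G(x) := ∫ T(x - s) φ(s) ds` (convolution; smooth: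
`HasCompactSupport.contDiff_convolution_right`). `G ≥ 0`; `G x ≥ tri x` as
`T(x - s) ≥ 1 + e - |x| - |s| ≥ 1 - |x|` for `|s| ≤ e` and `T ≥ 0`; `G x = 0` for
`|x| ≥ 1 + 2 e`; `∫ G = ∫ T = (1+e)^2 ≤ 1 + 3 e ≤ 1 + ε`. -/
def A_tri : Prop :=
  ∀ ε : ℝ, 0 < ε → ∃ G : ℝ → ℝ, Bump G (-(1 + ε)) (1 + ε) ∧ (∀ x, 0 ≤ G x) ∧
    (∀ x, tri x ≤ G x) ∧ (∫ x, G x) ≤ 1 + ε

/-- [A3] The smooth majorant of the window weight.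
Size M. Proof from `A_tri`. `e := min (ε/4) (1/20)`, `G` from `A_tri` with `e`,
`F t := if t ≤ 0 then 0 else (1 + e) * (exp(1/lam)/t) * G(lam * log t - 1)`.
Support: `F t ≠ 0` gives `t > 0` and `-(1+e) < lam log t - 1 < 1 + e`, so
`exp(-e/lam) < t < exp((2+e)/lam)`, and `(2+e)/lam ≤ (2+1/20)/3 < 0.6834 < log 2`
(`Real.log_two_gt_d9`): take `a := exp(-e/lam)`. Smooth: on `t > 0` as a composition; near `t ≤ 0`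
(and for all `t < a`) it is zero. Integral: `∫_{t>0} F = (1+e) exp(1/lam) ∫ G(lam u - 1) du`
(substitution `t = exp u`) `= (1+e) exp(1/lam)/lam * ∫ G ≤ (1+e)^2 exp(1/lam)/lam
≤ (1+ε) exp(1/lam)/lam`. `∫ F > 0`: `F` is continuous, nonnegative and
`F(exp(1/lam)) = (1+e) G(0) ≥ tri 0 = 1`. Domination: `Z = X exp(1/lam)`, `u = log (n/Z)`,
`OmL lam Z n = (Z/n)^(1 + 1/log Z) tri(lam u)`; if `tri (lam u) = 0` it is clear; otherwise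
`|u| < 1/lam ≤ 1`, `(Z/n)^(1/log Z) = exp(-u/log Z) ≤ exp(1/log Z) ≤ 1 + e` for `X` large,
`Z/n = exp(1/lam)/(n/X)` and `lam u = lam log (n/X) - 1`. -/
def A_F : Prop :=
  ∀ lam : ℝ, 3 ≤ lam → ∀ ε : ℝ, 0 < ε → ∃ (F : ℝ → ℝ) (a : ℝ), 0 < a ∧ Bump F a 2 ∧
    (∀ t, 0 ≤ F t) ∧ 0 < (∫ t, F t) ∧ (∫ t, F t) ≤ (1 + ε) * (Real.exp (1 / lam) / lam) ∧
    ∀ᶠ X : ℝ in atTop, ∀ n : ℕ, 0 < n → OmL lam (X * Real.exp (1 / lam)) n ≤ F (n / X)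

/-- [A4] The profile. Size S/M. Proof. `Hid θ x = ∫ (1/2 + t) dt` over `(max x 0, θ)` for `x ≤ θ`,
`0` for `x ≥ θ`. First `HS ws k` for `0 ≤ wp ws k < ws k` (`Hid 0 = 0`): with
`m = max x 0`: `HS = Hid (ws k) 0 - Hid (wp ws k) 0` (constant, positive) for `m ≤ wp`,
`(ws k - m)/2 + (ws k ^2 - m^2)/2` for `wp ≤ m ≤ ws k`, `0` beyond: nonnegative, antitone (case
split or: `HS ws k x = P(ws k) - P(max (min (max x 0) (ws k)) (wp ws k))` with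
`P t = t/2 + t^2/2` monotone on `t ≥ 0`), continuous (this formula), zero for `x ≥ ws k`. As
`ws` is increasing on `k < J`, the sum with the weights `cs k ≥ 0` has all four properties. The
finite sum of the bumps: `ContDiff.sum`; support in `(2δ, ws k + 3δ) ⊆ (2δ, ws (J-1) + 3δ)`.
`HH` is linear (the `q k` are integrable: continuous with compact support), so
`HH (∑ cs k * q k) t = ∑ cs k * HH (q k) t ≥ ∑ cs k * HS ws k (t - 2δ)`. -/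
def A_prof : Prop :=
  ∀ (J : ℕ) (ws cs : ℕ → ℝ) (δ : ℝ), 0 < J → 0 < δ → 0 < ws 0 →
  (∀ k, k + 1 < J → ws k + δ ≤ ws (k + 1)) → (∀ k < J, 0 ≤ cs k) →
  ((∀ x, 0 ≤ HJ ws cs J x) ∧ Antitone (HJ ws cs J) ∧ Continuous (HJ ws cs J) ∧
    (∀ x, ws (J - 1) ≤ x → HJ ws cs J x = 0)) ∧
  ∀ q : ℕ → ℝ → ℝ, (∀ k < J, Bump (q k) (2 * δ) (ws k + 3 * δ) ∧ (∀ t, 0 ≤ q k t) ∧
      (∀ t, HS ws k (t - 2 * δ) ≤ HH (q k) t)) →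
    Bump (fun t => ∑ k ∈ range J, cs k * q k t) (2 * δ) (ws (J - 1) + 3 * δ) ∧
    (∀ t, 0 ≤ ∑ k ∈ range J, cs k * q k t) ∧
    (∀ t, HJ ws cs J (t - 2 * δ) ≤ HH (fun t => ∑ k ∈ range J, cs k * q k t) t)

/-- [A5] The process is linear in the profile. Size M. Proof. `HH` is linear (integrable bumps);
for fixed `(p.1, p.2)` the function `kL` is linear in `h`: the double integral of
`kap a x * ρ y * HH h (...)` is absolutely convergent (`kap` integrable, `ρ` continuous with compact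
support, `HH h` bounded by `∫ |h|` and continuous); the outer sum: `tsum` is additive and
homogeneous on summable families; the family of `ytil` is summable for every bump `h`
(see the bound `k4_bound` in Rz/Ker4.lean, used for `hasDerivAt_ytil`; it is private: copy it, or
extract the summability from `KerPhi`/`Ker2`/`Ker3`, where the same bound is proved:
look for summable ... moebius ... kL). -/
def A_lin : Prop :=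
  ∀ (δ θ : ℝ), 0 < δ → ∀ ρ : ℝ → ℝ, Bump ρ (-(δ / 2)) (δ / 2) → ∀ (J : ℕ) (cs : ℕ → ℝ)
  (q : ℕ → ℝ → ℝ), (∀ k < J, Bump (q k) 0 θ) → ∀ a₀ : ℝ, (a₀ = 0 ∨ a₀ = 1) → ∀ (σ : ℤ) (X : ℝ),
  1 < X → ∀ (d : ℕ) (Y : ℝ),
  ytil a₀ σ ρ (fun t => ∑ k ∈ range J, cs k * q k t) X d Y =
    ∑ k ∈ range J, cs k * ytil a₀ σ ρ (q k) X d Y

/-- [A6] The functional of a sum. Size S. Proof. Each square: `(a + b)^2 ≤ (1+ξ) a^2 + (1+1/ξ) b^2`;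
integrate against `w ≥ 0`; `(∫ u₁ (f+g))^2 ≤ (1+ξ)(∫ u₁ f)^2 + (1+1/ξ)(∫ u₁ g)^2`, and
`(∫_0^V u₁ g)^2 ≤ (∫_0^V u₁^2)(∫_0^V g^2)` (Cauchy-Schwarz; a version is in Rz/Fa4.lean, `fa4_cs`),
`∫ w g^2 ≤ W ∫ g^2` with `W` the maximum of `w` on `[0,V]`.
`C := W + g₁ ∫ u₁^2 + g₂ ∫ u₂^2`. -/
def A_pert : Prop :=
  ∀ (w u₁ u₂ : ℝ → ℝ) (g₁ g₂ V : ℝ), Continuous w → (∀ v, 0 < w v) → Continuous u₁ →
  Continuous u₂ → 0 ≤ g₁ → 0 ≤ g₂ → 0 ≤ V → ∃ C : ℝ, 0 ≤ C ∧ ∀ ξ : ℝ, 0 < ξ →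
    ∀ f g : ℝ → ℝ, Continuous f → Continuous g →
    qP w u₁ u₂ g₁ g₂ V (fun v => f v + g v) ≤
      (1 + ξ) * qP w u₁ u₂ g₁ g₂ V f + (1 + 1 / ξ) * C * ∫ v in (0 : ℝ)..V, g v ^ 2

/-- [A7] The functional of a bad discriminant is at least one. Size M. Proof from `A_prof` (`HJ ≥ 0`,
continuous). `V = 1/2 + δ`, `P(a) = PPH .. a`, `y₀ = ∫_0^V y > 0` (`hyi`). As `cosh ≥ 1`, `y ≥ 0` on
`[0,V]` and `HJ ≥ 0`: `P(a) ≥ y₀`. Choose `0 < ε` with `0 ≤ r := 1 - ε - ε/y₀` and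
`1 ≤ (1+μ) r^2`; take `X₀` of `BadH` for `ε` (and `X₀ ≥ 2`). For a bad `d` with the parameter `a`:
`S := ∫_0^V cosh(av)(y - τ) = ∫_0^V cosh(av) y + ∫_{Ioi V} cosh(av) τ` (split `Ioi 0 = Ioc 0 V ∪
Ioi V` in the vanishing integral; `PPH` uses interval integrals: `integral_of_le`), so
`S ≥ ∫_0^V cosh y + (1-ε) ∫_{Ioc V (V+θ₀)} cosh HJ - ε ≥ (1-ε) P - ε ≥ r P ≥ 0`.
`CertM.main` with `f = y - τ X d` (continuous for `X > 1`): `(1+μ) S^2 ≤ q * P^2`, and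
`(1+μ) S^2 ≥ (1+μ) r^2 P^2 ≥ P^2 > 0`. Hence `1 ≤ q`. -/
def A_bad : Prop :=
  ∀ (A δ κ μ : ℝ) (J : ℕ) (ws cs : ℕ → ℝ) (w u₁ u₂ y : ℝ → ℝ) (g₁ g₂ : ℝ),
  CertM A δ κ μ J ws cs w u₁ u₂ y g₁ g₂ → ∀ (R NZ : ℕ → Prop) (τ : ℝ → ℕ → ℝ → ℝ),
  (∀ X : ℝ, 1 < X → ∀ d, Continuous (τ X d)) → BadH A R NZ (HJ ws cs J) (ws (J - 1)) δ τ →
  ∀ᶠ X : ℝ in atTop, ∀ d : ℕ, X < d → (d : ℝ) ≤ 2 * X → R d → Squarefree d → ¬ NZ d →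
    1 ≤ qP w u₁ u₂ g₁ g₂ (1 / 2 + δ) (fun v => y v - τ X d v)

/-- [A8] The window measure: support, size, and sums. Size S/M. Proof. `Z = X exp(1/lam)`.
`OmL lam Z n ≠ 0`, `n > 0` gives `|log (n/Z)| < 1/lam`, so `X = Z exp(-1/lam) < n < Z exp(1/lam)
= X exp(2/lam) ≤ X exp(2/3) < 2 X` (`2/3 < log 2`, `Real.log_two_gt_d9`). `0 ≤ OmL` is
`BVall.OmL_nonneg`; for `n` in the support `(Z/n)^(cX Z) ≤ exp(1/lam)^(1 + 1/log Z) ≤ e` for `X`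
large (`tri ≤ 1`), so `cfP d ≤ 3 log(2X)/X`. The sum: `psiR` sums over the primes of `Icc 1 ⌊3Z⌋₊`
in the class, all terms vanish beyond `2 X < 3 Z`. -/
def A_sumP : Prop :=
  ∀ (R : ℕ → Prop) (lam : ℝ), 3 ≤ lam → ∀ᶠ X : ℝ in atTop,
    (∀ d : ℕ, 0 ≤ cfP R lam X d ∧ cfP R lam X d ≤ 3 * Real.log (2 * X) / X ∧
      (cfP R lam X d ≠ 0 → d.Prime ∧ R d ∧ X < d ∧ (d : ℝ) ≤ 2 * X)) ∧
    ∀ g : ℕ → ℝ, ∑ d ∈ SX R X, cfP R lam X d * g d =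
      psiR R lam (X * Real.exp (1 / lam)) g / X

/-- [A9] The classes modulo `8`. Size S. Proof. For a prime `p`: `R p` iff `p % 8 ∈ S`; the sum over
the primes with `p % 8 ∈ S` is the sum over `r ∈ S` of the sums over `p % 8 = r`
(`Finset.sum_comm`/`sum_ite`, or induction on `S`; the filter uses classical decidability). -/
def A_cl : Prop :=
  ∀ (R : ℕ → Prop) (D : ℝ) (S : Finset ℕ), PCl R D S → ∀ (lam Z : ℝ) (g : ℕ → ℝ),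
    psiR R lam Z g = ∑ r ∈ S, psiR (fun p => p % 8 = r) lam Z g

/-- [A10] The kernels at the heights `Y ≥ -δ`. Size S/M. Proof. `HH h t = HH h 0` for `t ≤ 2 δ`
(`h` vanishes on `(-∞, 2δ]`); for `ρ y ≠ 0`: `y - Y < δ/2 + δ ≤ 2 δ`. So
`∫ ρ(y) HH h (y - Y) dy = HH h 0 ∫ ρ`. The same in `CC2` (`DefsM.lean`): for `ρ x ρ y ≠ 0` the
product `HH h₁ (x - Y₁) HH h₂ (y - Y₂)` is the constant `HH h₁ 0 HH h₂ 0`; the double integral of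
`ρ x ρ y * (const + c * k(x,y))` splits (`k` continuous, bounded on the support; integrability:
continuous functions with compact support) and `∫∫ ρ ρ = 1`. -/
def A_CC : Prop :=
  ∀ δ : ℝ, 0 < δ → ∀ (ρ h₁ h₂ : ℝ → ℝ) (θ₁ θ₂ : ℝ), Bump ρ (-(δ / 2)) (δ / 2) →
  (∫ y, ρ y) = 1 → Bump h₁ (2 * δ) θ₁ → Bump h₂ (2 * δ) θ₂ →
  (∀ Y : ℝ, -δ ≤ Y → (∫ y, ρ y * HH h₁ (y - Y)) = HH h₁ 0) ∧
  (∀ Y₁ Y₂ : ℝ, -δ ≤ Y₁ → -δ ≤ Y₂ → CC2 ρ ρ h₁ h₂ Y₁ Y₂ =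
    HH h₁ 0 * HH h₂ 0 + (∫ t, h₁ t * h₂ t) * Gam2 ρ ρ Y₁ Y₂)

/-- [A11] Domination by the sieve measure. Size S. Proof. `F`, the domination property of the window
weight and a sieve weight are given. If `d` is not a prime of the class, `cfP = 0` and `cfS ≥ 0`
(`SW.nn`, `F ≥ 0`, `log X ≥ 0`). For a prime `p` with `OmL ≠ 0`: `X < p ≤ 2 X`; the divisors are
`1` and `p`, `w 1 = 1`, and `w p = 0` by `SW.supp` (else `p ≤ X^η ≤ X`). `log p ≤ log (2 X) ≤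
(1+ε) log X` for `X` large, `OmL ≤ F(p/X)`. If `OmL = 0` trivial. -/
def A_dom : Prop :=
  ∀ (R : ℕ → Prop) (lam : ℝ), 3 ≤ lam → ∀ F : ℝ → ℝ, (∀ t, 0 ≤ F t) →
  (∀ᶠ X : ℝ in atTop, ∀ n : ℕ, 0 < n → OmL lam (X * Real.exp (1 / lam)) n ≤ F (n / X)) →
  ∀ η : ℝ, η < 1 → ∀ ε : ℝ, 0 < ε → ∀ᶠ X : ℝ in atTop, ∀ (ε₀ : ℝ) (A : ℕ) (w : ℕ → ℝ) (V : ℝ),
    SW X η ε₀ A w V → ∀ d ∈ SX R X, 0 ≤ cfP R lam X d ∧ cfP R lam X d ≤ cfS w F ε X d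

/-- [A12] Sums with the sieve measure. Size S. Proof. `F (d / X) ≠ 0` gives `0 < d` and `d < 2 X`, so
the series in `avWg` is the finite sum over `SX R X`; multiply out (`D`, `V`, `X` are positive). -/
def A_sumS : Prop :=
  ∀ (R : ℕ → Prop) (D : ℝ) (F : ℝ → ℝ) (a : ℝ), 0 < D → 0 < a → Bump F a 2 →
  ∀ (w : ℕ → ℝ) (V ε X : ℝ), 0 < V → 1 ≤ X → ∀ g : ℕ → ℝ,
    ∑ d ∈ SX R X, cfS w F ε X d * g d =
      (1 + ε) * Real.log X * D * V * avWg R D w V F X g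

/-- [A13] Zeroth moment over primes. Size S. Proof: `A_sumP` (with `g = 1`), `A_cl`, `JF_zmP` for
each `r ∈ S ⊆ {1,3,5,7}` with `ε/4`; `S.card = 8 D`, so that
`∑_{r ∈ S} SO/4 = 2 D SO = X * IX`; divide by `X`. -/
def A_m0 : Prop :=
  JF_zmP → ∀ (R : ℕ → Prop) (D : ℝ) (S : Finset ℕ), PCl R D S → ∀ lam : ℝ, 3 ≤ lam →
  ∀ ε : ℝ, 0 < ε → ∀ᶠ X : ℝ in atTop, |(∑ d ∈ SX R X, cfP R lam X d) - IX D lam X| ≤ ε

/-- [A14] First moments over primes, all components. Size S/M. Proof: `A_sumP` (with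
`g d = cs k * ytil .. (c₀ * d) Y`), `A_cl`, `JF_fmP` for each `r ∈ S` and each `k < J` with the
length `ws k + 3 δ` (`Bump (q k) 0 (ws k + 3δ)`; `ws k + 9 δ < 1/2` from the hypothesis) and an error
`ε / (4 (1 + |cs k|))`; the limit `∫ ρ(y) HH (q k)(y - Y) dy = HH (q k) 0` by `A_CC`;
`∑_{r ∈ S} SO/4 = 2 D SO = X * IX`. Finitely many `(r, k)`: `eventually_all_finset`. -/
def A_m1 : Prop :=
  JF_fmP → ∀ (R : ℕ → Prop) (D : ℝ) (S : Finset ℕ), PCl R D S → ∀ lam : ℝ, 3 ≤ lam →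
  ∀ (J : ℕ) (ws cs : ℕ → ℝ) (δ : ℝ), 0 < δ → δ ≤ 1 / 100 →
  (∀ k < J, 0 < ws k ∧ ws k + 10 * δ ≤ 1 / 2) → ∀ c₀ : ℕ, (c₀ = 1 ∨ c₀ = 2) → ∀ σ : ℤ,
  (σ = 1 ∨ σ = -1) → ∀ a₀ : ℝ, (a₀ = 0 ∨ a₀ = 1) → ∀ (ρ : ℝ → ℝ) (q : ℕ → ℝ → ℝ),
  Bump ρ (-(δ / 2)) (δ / 2) → (∫ y, ρ y) = 1 → (∀ k < J, Bump (q k) (2 * δ) (ws k + 3 * δ)) →
  ∀ ε : ℝ, 0 < ε → ∀ᶠ X : ℝ in atTop, ∀ k < J, ∀ Y ∈ Set.Icc (-δ) (1 / 2 : ℝ),
    |(∑ d ∈ SX R X, cfP R lam X d * (cs k * ytil a₀ σ ρ (q k) X (c₀ * d) Y)) -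
      IX D lam X * (cs k * HH (q k) 0)| ≤ ε

/-- [A15] Covariances over primes, all pairs of components. Size S/M. Proof: as `A_m1`, with
`JF_covP` for `θ₁ = ws i + 3δ`, `θ₂ = ws j + 3δ`: `Y₁ + θ₁ + Y₂ + θ₂ + 5δ =
Y₁ + ws i + Y₂ + ws j + 11 δ ≤ 1`; limit by `A_CC`:
`cs i cs j CC2 = (cs i HH (q i) 0)(cs j HH (q j) 0) + (cs i cs j ∫ q i q j) Gam2`. -/
def A_m2 : Prop :=
  JF_covP → ∀ (R : ℕ → Prop) (D : ℝ) (S : Finset ℕ), PCl R D S → ∀ lam : ℝ, 3 ≤ lam →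
  ∀ (J : ℕ) (ws cs : ℕ → ℝ) (δ : ℝ), 0 < δ → δ ≤ 1 / 100 →
  (∀ k < J, 0 < ws k ∧ ws k + 10 * δ ≤ 1 / 2) → ∀ c₀ : ℕ, (c₀ = 1 ∨ c₀ = 2) → ∀ σ : ℤ,
  (σ = 1 ∨ σ = -1) → ∀ a₀ : ℝ, (a₀ = 0 ∨ a₀ = 1) → ∀ (ρ : ℝ → ℝ) (q : ℕ → ℝ → ℝ),
  Bump ρ (-(δ / 2)) (δ / 2) → (∫ y, ρ y) = 1 → (∀ k < J, Bump (q k) (2 * δ) (ws k + 3 * δ)) →
  ∀ ε : ℝ, 0 < ε → ∀ᶠ X : ℝ in atTop, ∀ i < J, ∀ j < J, ∀ Y₁ ∈ Set.Icc (-δ) (1 / 2 : ℝ),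
    ∀ Y₂ ∈ Set.Icc (-δ) (1 / 2 : ℝ), Y₁ + ws i + Y₂ + ws j + 12 * δ ≤ 1 →
    |(∑ d ∈ SX R X, cfP R lam X d * ((cs i * ytil a₀ σ ρ (q i) X (c₀ * d) Y₁) *
        (cs j * ytil a₀ σ ρ (q j) X (c₀ * d) Y₂))) -
      IX D lam X * ((cs i * HH (q i) 0) * (cs j * HH (q j) 0) +
        (cs i * cs j * ∫ t, q i t * q j t) * Gam2 ρ ρ Y₁ Y₂)| ≤ ε

/-- [A16] Second moments with the sieve measure, all pairs of components, for one sieve weight with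
`V log X ≤ K`. Size M. Proof: `A_sumS`, `JF_smW` for each pair `(i, j)` with `θ` the common length
and an error `ε / ((1+ε₃) D K (1 + |cs i cs j|))`; `ε₀` := the minimum, `A` := the maximum over the
pairs of the values of `JF_smW` (for `X ≥ 3`: `SW X η ε₀ A w V` implies
`SW X η ε₀' A' w V` for `ε₀ ≤ ε₀'`, `A' ≤ A`: `X^ε₀ ≤ X^ε₀'` and `(log X)^A' ≤ (log X)^A` as
`log X ≥ 1`); if `J = 0` trivial. Limit by `A_CC`. -/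
def A_m2s : Prop :=
  JF_smW → ∀ (θ δ η : ℝ), 0 < δ → δ ≤ 1 / 100 → 0 < η → θ + 3 * δ + η < 1 / 2 →
  ∀ (R : ℕ → Prop) (D : ℝ) (c₀ : ℕ) (σ : ℤ), (∀ d, R d → Odd d) → 0 < D → (c₀ = 1 ∨ c₀ = 2) →
  (σ = 1 ∨ σ = -1) → TwP R D c₀ σ → ∀ (F : ℝ → ℝ) (a : ℝ), 0 < a → Bump F a 2 →
  0 < (∫ t, F t) → ∀ a₀ : ℝ, (a₀ = 0 ∨ a₀ = 1) →
  ∀ (J : ℕ) (cs : ℕ → ℝ) (ρ : ℝ → ℝ) (q : ℕ → ℝ → ℝ), 0 < θ →
  Bump ρ (-(δ / 2)) (δ / 2) → (∫ y, ρ y) = 1 → (∀ k < J, Bump (q k) (2 * δ) θ) →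
  ∀ K ε₃ ε : ℝ, 0 ≤ ε₃ → 0 < ε → ∃ (ε₀ : ℝ) (A : ℕ), 0 < ε₀ ∧ ∀ᶠ X : ℝ in atTop,
    ∀ (w : ℕ → ℝ) (V : ℝ), SW X η ε₀ A w V → V * Real.log X ≤ K →
    ∀ i < J, ∀ j < J, ∀ Y₁ ∈ Set.Icc (-δ) (1 / 2 : ℝ), ∀ Y₂ ∈ Set.Icc (-δ) (1 / 2 : ℝ),
    |(∑ d ∈ SX R X, cfS w F ε₃ X d * ((cs i * ytil a₀ σ ρ (q i) X (c₀ * d) Y₁) *
        (cs j * ytil a₀ σ ρ (q j) X (c₀ * d) Y₂))) -
      (1 + ε₃) * Real.log X * D * V * (∫ t, F t) * ((cs i * HH (q i) 0) * (cs j * HH (q j) 0) +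
        (cs i * cs j * ∫ t, q i t * q j t) * Gam2 ρ ρ Y₁ Y₂)| ≤ ε

/-- [A17] Sum over the bad primes. Size M. Proof from `A_bad`, `A_pert`, `A_sumP`. By `A_sumP` for the
class `R ∧ ¬ NZ` (and `cfP` of that class = `cfP R` on it), the left side is the sum of
`cfP R lam X d` over the bad primes of `SX R X`; each has `1 ≤ q(y - τ_d)` (`A_bad`, primes are
squarefree) when `cfP ≠ 0`; `q(y - τ_d) ≤ (1+ξ) q(y - T_d) + (1+1/ξ) C ∫ (T_d - τ_d)^2`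
(`A_pert` with `f = y - T₀ X d (1/2 - ·)`, `g = T₀ X d (1/2 - ·) - τ X d`); `q ≥ 0`, so extend the
sum to all of `SX R X`; the last part: `cfP ≤ 3 log(2X)/X` and only `d ∈ (X, 2X]` of the class occur:
by `PerQ` (for the set of the `d ∈ SX R X` with `X < d`) it is at most
`(1+1/ξ) C * 3 log(2X)/X * C' X/(log X)^2 ≤ ξ` for `X` large. -/
def A_badsum : Prop :=
  ∀ (A δ κ μ : ℝ) (J : ℕ) (ws cs : ℕ → ℝ) (w u₁ u₂ y : ℝ → ℝ) (g₁ g₂ : ℝ),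
  CertM A δ κ μ J ws cs w u₁ u₂ y g₁ g₂ → ∀ (R NZ : ℕ → Prop) (T₀ τ : ℝ → ℕ → ℝ → ℝ),
  (∀ X : ℝ, 1 < X → ∀ d, Continuous (T₀ X d)) → (∀ X : ℝ, 1 < X → ∀ d, Continuous (τ X d)) →
  PerQ R δ T₀ τ → BadH A R NZ (HJ ws cs J) (ws (J - 1)) δ τ →
  ∀ lam : ℝ, 3 ≤ lam → ∀ ξ : ℝ, 0 < ξ → ∀ᶠ X : ℝ in atTop,
    psiR (fun p => R p ∧ ¬ NZ p) lam (X * Real.exp (1 / lam)) (fun _ => 1) / X ≤
    (1 + ξ) * (∑ d ∈ SX R X, cfP R lam X d *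
      qP w u₁ u₂ g₁ g₂ (1 / 2 + δ) (fun v => y v - T₀ X d (1 / 2 - v))) + ξ

/-- [A18] The moment data. Size M/L. Proof from `A_SO`, `A_F`, `A_dom`, `A_m0`, `A_m1`, `A_m2`,
`A_m2s`, `IF_sieve`, `ytil_det` (Rz/Ker5), `hasDerivAt_ytil` (continuity). -/
def A_MD : Prop :=
  IF_sieve → JF_smW → JF_covP → JF_fmP → JF_zmP →
  ∀ (δ κ : ℝ) (J : ℕ) (ws cs : ℕ → ℝ), 0 < J → 0 < δ → δ ≤ 1 / 100 → 0 < ws 0 →
  (∀ k, k + 1 < J → ws k + δ ≤ ws (k + 1)) → 1 ≤ κ → ws (J - 1) + 10 * δ + 2 / κ < 1 / 2 →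
  ∀ (R : ℕ → Prop) (D : ℝ) (c₀ : ℕ) (σ : ℤ), (∀ d, R d → Odd d) → 0 < D → (c₀ = 1 ∨ c₀ = 2) →
  (σ = 1 ∨ σ = -1) → TwP R D c₀ σ → (∃ S : Finset ℕ, PCl R D S) → ∀ a₀ : ℝ, (a₀ = 0 ∨ a₀ = 1) →
  ∀ (ρ : ℝ → ℝ) (q : ℕ → ℝ → ℝ), Bump ρ (-(δ / 2)) (δ / 2) → (∫ y, ρ y) = 1 →
  (∀ k < J, Bump (q k) (2 * δ) (ws k + 3 * δ) ∧ HH (q k) 0 = HS ws k 0) →
  ∀ lam : ℝ, 3 ≤ lam → ∃ K c : ℝ, 0 < c ∧ ∀ ε₁ ε₂ : ℝ, 0 < ε₁ → 0 < ε₂ → ∀ᶠ X : ℝ in atTop,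
    ∃ (I κ' : ℝ) (cf' : ℕ → ℝ), c ≤ I ∧ I ≤ K ∧ 0 ≤ κ' ∧ κ' ≤ κ ∧
      |(∑ d ∈ SX R X, cfP R lam X d) - I| ≤ ε₂ ∧
      MD J ws (fun k => cs k * HS ws k 0) (fun i j => cs i * cs j * ∫ t, q i t * q j t) ρ δ I κ' ε₁
        (SX R X) (cfP R lam X) cf' (fun k d Y => cs k * ytil a₀ σ ρ (q k) X (c₀ * d) Y)

end Pool.Agent.MP0016c7.PC
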