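import Mathlib
import Pool.Agent.Lib.MP_0016c7_nt.PC.A.StmA

set_option autoImplicit false

/-!
Project PrimeConductors, block [A], piece A7: the functional of a bad discriminant is at least one.
-/

open Finset MeasureTheory Filter Topology
open scoped Real ContDiff

namespace Pool.Agent.MP0016c7.PC

open Pool.Agent.MP0016c7.Rz
open Pool.Agent.BVall (OmL)
open Pool.Agent.MP89da58 (tri cX)

private theorem a_bad_ws (δ : ℝ) (hδ : 0 < δ) (ws : ℕ → ℝ) (h0 : 0 < ws 0) (J : ℕ)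
    (h : ∀ k, k + 1 < J → ws k + δ ≤ ws (k + 1)) : ∀ k, k < J → 0 < ws k := by
  intro k
  induction k with
  | zero => exact fun _ => h0
  | succ k ih =>
    intro hk
    have h1 := ih (by omega)
    have h2 := h k hk
    linarith

private theorem a_bad_alg {q P S ε μ y₀ : ℝ} (hμ : 0 < μ) (hy : 0 < y₀)
    (hε : ε * (1 + 1 / y₀) = μ / (2 * (1 + μ))) (hε0 : 0 < ε) (hP : y₀ ≤ P)
    (hS : (1 - ε) * P - ε ≤ S) (hq : (1 + μ) * S ^ 2 ≤ q * P ^ 2) : 1 ≤ q := by
  set η := μ / (2 * (1 + μ)) with hη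
  have h1 : η * (2 * (1 + μ)) = μ := by
    rw [hη]
    field_simp
  have hη0 : 0 < η := by positivity
  have hη1 : η < 1 / 2 := by nlinarith
  have hPp : 0 < P := lt_of_lt_of_le hy hP
  have h2 : ε ≤ ε / y₀ * P := by
    rw [div_mul_eq_mul_div, le_div_iff₀ hy]
    exact mul_le_mul_of_nonneg_left hP hε0.le
  have h3 : (1 - η) * P ≤ S := by
    have e1 : ε / y₀ = η - ε := by
      rw [← hε]
      ring
    rw [e1] at h2
    linarith
  have h4 : 0 ≤ (1 - η) * P := by
    have : 0 ≤ 1 - η := by linarith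
    positivity
  have h5 : ((1 - η) * P) ^ 2 ≤ S ^ 2 := pow_le_pow_left₀ h4 h3 2
  have h6 : 1 ≤ (1 + μ) * (1 - η) ^ 2 := by nlinarith [sq_nonneg η]
  have h7 : P ^ 2 ≤ q * P ^ 2 := by
    calc P ^ 2 = 1 * P ^ 2 := by ring
      _ ≤ ((1 + μ) * (1 - η) ^ 2) * P ^ 2 := mul_le_mul_of_nonneg_right h6 (sq_nonneg P)
      _ = (1 + μ) * ((1 - η) * P) ^ 2 := by ring
      _ ≤ (1 + μ) * S ^ 2 := mul_le_mul_of_nonneg_left h5 (by linarith)
      _ ≤ q * P ^ 2 := hq
  have h8 : 0 < P ^ 2 := by positivity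
  by_contra hcon
  push Not at hcon
  nlinarith

theorem p_A_bad (h : A_prof) : A_bad := by
  intro A δ κ μ J ws cs w u₁ u₂ y g₁ g₂ hC R NZ τ hτ hbad
  have hθ : 0 < ws (J - 1) :=
    a_bad_ws δ hC.hδ ws hC.hws₀ J hC.hws (J - 1) (Nat.sub_lt hC.hJ Nat.one_pos)
  obtain ⟨⟨hH0, -, hHc, -⟩, -⟩ := h J ws cs δ hC.hJ hC.hδ hC.hws₀ hC.hws hC.hcs
  set H := HJ ws cs J with hH
  set θ := ws (J - 1) with hθd
  set V : ℝ := 1 / 2 + δ with hV
  have hV0 : 0 < V := by
    have := hC.hδ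
    rw [hV]
    linarith
  set y₀ := ∫ v in (0 : ℝ)..V, y v with hy₀
  have hy0 : 0 < y₀ := hC.hyi
  have hμ := hC.hμ
  have hε0 : 0 < μ / (2 * (1 + μ)) / (1 + 1 / y₀) := by positivity
  obtain ⟨X₀, hX₀⟩ := hbad _ hε0
  set ε := μ / (2 * (1 + μ)) / (1 + 1 / y₀) with hε
  have hε1 : ε * (1 + 1 / y₀) = μ / (2 * (1 + μ)) := by
    rw [hε]
    exact div_mul_cancel₀ _ (by positivity)
  filter_upwards [eventually_ge_atTop (max X₀ 2)] with X hX d hd1 hd2 hR hsq hNZ
  obtain ⟨a, ha, hint, hzero, hlow⟩ := hX₀ X ((le_max_left _ _).trans hX) d hd1 hd2 hR hsq hNZ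
  have hX1 : 1 < X := by linarith [(le_max_right X₀ 2).trans hX]
  have hτc := hτ X hX1 d
  have hch : Continuous (fun v : ℝ => Real.cosh (a * v)) :=
    Real.continuous_cosh.comp (continuous_const.mul continuous_id)
  have hyc := hC.hy
  have hmain := hC.main a ha (fun v => y v - τ X d v) (hyc.sub hτc).continuousOn
  have hcy : Continuous (fun v : ℝ => Real.cosh (a * v) * y v) := hch.mul hyc
  have hct : Continuous (fun v : ℝ => Real.cosh (a * v) * τ X d v) := hch.mul hτc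
  set P := PPH H θ V y a with hP
  have hPe : P = (∫ v in V..(V + θ), Real.cosh (a * v) * H (v - V)) +
      ∫ v in (0 : ℝ)..V, Real.cosh (a * v) * y v := rfl
  have hIH : 0 ≤ ∫ v in V..(V + θ), Real.cosh (a * v) * H (v - V) := by
    apply intervalIntegral.integral_nonneg (by linarith)
    intro v _
    exact mul_nonneg (Real.cosh_pos _).le (hH0 _)
  have hIy : y₀ ≤ ∫ v in (0 : ℝ)..V, Real.cosh (a * v) * y v := by
    apply intervalIntegral.integral_mono_on hV0.le (hyc.intervalIntegrable _ _)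
      (hcy.intervalIntegrable _ _)
    intro v hv
    have h1 := hC.hyp v hv
    have h2 := Real.one_le_cosh (a * v)
    nlinarith
  have hPy : y₀ ≤ P := by
    rw [hPe]
    linarith
  have hS : ∫ v in (0 : ℝ)..V, Real.cosh (a * v) * (y v - τ X d v) =
      (∫ v in (0 : ℝ)..V, Real.cosh (a * v) * y v) +
      ∫ v in Set.Ioi V, Real.cosh (a * v) * τ X d v := by
    have e1 : ∀ v, Real.cosh (a * v) * (y v - τ X d v) =
        Real.cosh (a * v) * y v - Real.cosh (a * v) * τ X d v := fun v => mul_sub _ _ _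
    simp_rw [e1]
    rw [intervalIntegral.integral_sub (hcy.intervalIntegrable _ _)
      (hct.intervalIntegrable _ _)]
    have e2 : ∫ v in Set.Ioi (0 : ℝ), Real.cosh (a * v) * τ X d v =
        (∫ v in (0 : ℝ)..V, Real.cosh (a * v) * τ X d v) +
        ∫ v in Set.Ioi V, Real.cosh (a * v) * τ X d v := by
      rw [intervalIntegral.integral_of_le hV0.le, ← Set.Ioc_union_Ioi_eq_Ioi hV0.le]
      apply setIntegral_union Set.Ioc_disjoint_Ioi_same measurableSet_Ioi
      · exact hint.mono_set Set.Ioc_subset_Ioi_self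
      · exact hint.mono_set (Set.Ioi_subset_Ioi hV0.le)
    rw [hzero] at e2
    linarith
  have hSlow : (1 - ε) * P - ε ≤ ∫ v in (0 : ℝ)..V, Real.cosh (a * v) * (y v - τ X d v) := by
    rw [hS, hPe, intervalIntegral.integral_of_le (by linarith : V ≤ V + θ)]
    have h1 : 0 ≤ ε * ∫ v in (0 : ℝ)..V, Real.cosh (a * v) * y v :=
      mul_nonneg hε0.le (hy0.le.trans hIy)
    linarith
  exact a_bad_alg hμ hy0 hε1 hε0 hPy hSlow hmain

end Pool.Agent.MP0016c7.PC
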