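import Mathlib
import Pool.Agent.Lib.MP_0016c7_nt.PC.A.StmA

set_option autoImplicit false

/-!
Project PrimeConductors, block [A], piece [A17]: the sum over the bad primes.
-/

open Finset MeasureTheory Filter Topology
open scoped Real ContDiff

namespace Pool.Agent.MP0016c7.PC

open Pool.Agent.MP0016c7.Rz
open Pool.Agent.BVall (OmL)

private theorem a_badsum_qnn (w u₁ u₂ : ℝ → ℝ) (g₁ g₂ V : ℝ) (hw : ∀ v, 0 < w v) (hg₁ : 0 ≤ g₁)
    (hg₂ : 0 ≤ g₂) (hV : 0 ≤ V) (f : ℝ → ℝ) : 0 ≤ qP w u₁ u₂ g₁ g₂ V f := by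
  unfold qP
  have h1 : 0 ≤ ∫ v in (0 : ℝ)..V, w v * f v ^ 2 :=
    intervalIntegral.integral_nonneg hV (fun v _ => mul_nonneg (hw v).le (sq_nonneg _))
  have h2 : 0 ≤ g₁ * (∫ v in (0 : ℝ)..V, u₁ v * f v) ^ 2 := mul_nonneg hg₁ (sq_nonneg _)
  have h3 : 0 ≤ g₂ * (∫ v in (0 : ℝ)..V, u₂ v * f v) ^ 2 := mul_nonneg hg₂ (sq_nonneg _)
  linarith

private theorem a_badsum_lim (K C : ℝ) :
    Tendsto (fun X : ℝ => 3 * Real.log (2 * X) / X * K * (C * X / (Real.log X) ^ 2)) atTop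
      (𝓝 0) := by
  have hinv : Tendsto (fun X : ℝ => (Real.log X)⁻¹) atTop (𝓝 0) :=
    tendsto_inv_atTop_zero.comp Real.tendsto_log_atTop
  have h1 : Tendsto (fun X : ℝ => 3 * K * C * (Real.log 2 * (Real.log X)⁻¹ ^ 2 + (Real.log X)⁻¹))
      atTop (𝓝 (3 * K * C * (Real.log 2 * 0 ^ 2 + 0))) :=
    (((hinv.pow 2).const_mul _).add hinv).const_mul _
  have h2 : 3 * K * C * (Real.log 2 * 0 ^ 2 + 0) = 0 := by ring
  rw [h2] at h1
  refine h1.congr' ?_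
  filter_upwards [eventually_gt_atTop (1 : ℝ)] with X hX
  have hX0 : (0 : ℝ) < X := by linarith
  have hL : Real.log X ≠ 0 := (Real.log_pos hX).ne'
  rw [Real.log_mul (by norm_num) hX0.ne']
  field_simp

private theorem a_badsum_mem (R : ℕ → Prop) (X : ℝ) (d : ℕ) :
    d ∈ SX R X ↔ d ∈ Icc 1 ⌊2 * X⌋₊ ∧ R d := by
  unfold SX
  exact @Finset.mem_filter ℕ R (Classical.decPred _) _ d

theorem p_A_badsum (hb : A_bad) (hp : A_pert) (hs : A_sumP) : A_badsum := by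
  intro A δ κ μ J ws cs w u₁ u₂ y g₁ g₂ hcert R NZ T₀ τ hT hτ hper hbadH lam hlam ξ hξ
  have hV : (0 : ℝ) ≤ 1 / 2 + δ := by have := hcert.hδ; linarith
  obtain ⟨C, hC0, hC⟩ := hp w u₁ u₂ g₁ g₂ (1 / 2 + δ) hcert.hw hcert.hwp hcert.hu₁ hcert.hu₂
    hcert.hg₁ hcert.hg₂ hV
  obtain ⟨C', X₁, hC'⟩ := hper
  have hbad := hb A δ κ μ J ws cs w u₁ u₂ y g₁ g₂ hcert R NZ τ hτ hbadH
  have hS1 := hs R lam hlam
  have hS2 := hs (fun p => R p ∧ ¬ NZ p) lam hlam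
  have hlim := a_badsum_lim ((1 + 1 / ξ) * C) C'
  have hlim' : ∀ᶠ X : ℝ in atTop,
      3 * Real.log (2 * X) / X * ((1 + 1 / ξ) * C) * (C' * X / (Real.log X) ^ 2) ≤ ξ :=
    (hlim.eventually (gt_mem_nhds hξ)).mono fun X hX => hX.le
  filter_upwards [hbad, hS1, hS2, hlim', eventually_ge_atTop X₁, eventually_gt_atTop (1 : ℝ)] with X
    hbadX hS1X hS2X hlimX hX₁ hX1
  obtain ⟨hb1, -⟩ := hS1X
  obtain ⟨hb2, he2⟩ := hS2X
  have hX0 : (0 : ℝ) < X := by linarith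
  -- nonnegativity
  have hq0 : ∀ f : ℝ → ℝ, 0 ≤ qP w u₁ u₂ g₁ g₂ (1 / 2 + δ) f :=
    a_badsum_qnn w u₁ u₂ g₁ g₂ (1 / 2 + δ) hcert.hwp hcert.hg₁ hcert.hg₂ hV
  have hI0 : ∀ d : ℕ, 0 ≤ ∫ v in (0 : ℝ)..(1 / 2 + δ), (T₀ X d (1 / 2 - v) - τ X d v) ^ 2 :=
    fun d => intervalIntegral.integral_nonneg hV (fun v _ => sq_nonneg _)
  have hK0 : 0 ≤ (1 + 1 / ξ) * C := by positivity
  -- the pointwise bound
  have hpt : ∀ d : ℕ, cfP (fun p => R p ∧ ¬ NZ p) lam X d ≤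
      (1 + ξ) * (cfP R lam X d *
        qP w u₁ u₂ g₁ g₂ (1 / 2 + δ) (fun v => y v - T₀ X d (1 / 2 - v))) +
      (if X < d then cfP R lam X d * (((1 + 1 / ξ) * C) *
        ∫ v in (0 : ℝ)..(1 / 2 + δ), (T₀ X d (1 / 2 - v) - τ X d v) ^ 2) else 0) := by
    intro d
    have hcR : 0 ≤ cfP R lam X d := (hb1 d).1
    have ha : 0 ≤ (1 + ξ) * (cfP R lam X d *
        qP w u₁ u₂ g₁ g₂ (1 / 2 + δ) (fun v => y v - T₀ X d (1 / 2 - v))) :=
      mul_nonneg (by linarith) (mul_nonneg hcR (hq0 _))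
    have hb : 0 ≤ (if X < d then cfP R lam X d * (((1 + 1 / ξ) * C) *
        ∫ v in (0 : ℝ)..(1 / 2 + δ), (T₀ X d (1 / 2 - v) - τ X d v) ^ 2) else 0) := by
      split_ifs with h
      · exact mul_nonneg hcR (mul_nonneg hK0 (hI0 d))
      · exact le_refl _
    by_cases hz : cfP (fun p => R p ∧ ¬ NZ p) lam X d = 0
    · rw [hz]; linarith
    · obtain ⟨hdp, hdR, hdX, hd2⟩ := (hb2 d).2.2 hz
      have hcf : cfP (fun p => R p ∧ ¬ NZ p) lam X d = cfP R lam X d := by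
        unfold cfP
        rw [if_pos ⟨hdp, hdR⟩, if_pos ⟨hdp, hdR.1⟩]
      have h1 : 1 ≤ qP w u₁ u₂ g₁ g₂ (1 / 2 + δ) (fun v => y v - τ X d v) :=
        hbadX d hdX hd2 hdR.1 hdp.prime.squarefree hdR.2
      have hcf1 : Continuous (fun v : ℝ => y v - T₀ X d (1 / 2 - v)) :=
        hcert.hy.sub ((hT X hX1 d).comp (continuous_const.sub continuous_id))
      have hcf2 : Continuous (fun v : ℝ => T₀ X d (1 / 2 - v) - τ X d v) :=
        ((hT X hX1 d).comp (continuous_const.sub continuous_id)).sub (hτ X hX1 d)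
      have h2 := hC ξ hξ (fun v => y v - T₀ X d (1 / 2 - v))
        (fun v => T₀ X d (1 / 2 - v) - τ X d v) hcf1 hcf2
      have h3 : (fun v => (fun v => y v - T₀ X d (1 / 2 - v)) v +
          (fun v => T₀ X d (1 / 2 - v) - τ X d v) v) = (fun v => y v - τ X d v) := by
        funext v; ring
      rw [h3] at h2
      have h4 : 1 ≤ (1 + ξ) * qP w u₁ u₂ g₁ g₂ (1 / 2 + δ) (fun v => y v - T₀ X d (1 / 2 - v)) +
          (1 + 1 / ξ) * C * ∫ v in (0 : ℝ)..(1 / 2 + δ), (T₀ X d (1 / 2 - v) - τ X d v) ^ 2 :=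
        h1.trans h2
      rw [hcf, if_pos hdX]
      have h5 := mul_le_mul_of_nonneg_left h4 hcR
      calc cfP R lam X d = cfP R lam X d * 1 := (mul_one _).symm
        _ ≤ _ := h5
        _ = _ := by ring
  -- subset
  have hsub : SX (fun p => R p ∧ ¬ NZ p) X ⊆ SX R X := by
    intro d hd
    rw [a_badsum_mem] at hd ⊢
    exact ⟨hd.1, hd.2.1⟩
  -- the second part
  have hsec : ∑ d ∈ SX R X, (if X < d then cfP R lam X d * (((1 + 1 / ξ) * C) *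
        ∫ v in (0 : ℝ)..(1 / 2 + δ), (T₀ X d (1 / 2 - v) - τ X d v) ^ 2) else 0) ≤ ξ := by
    rw [← Finset.sum_filter]
    have hmem : ∀ d ∈ (SX R X).filter (fun d : ℕ => X < d), R d ∧ X < d ∧ (d : ℝ) ≤ 2 * X := by
      intro d hd
      rw [Finset.mem_filter] at hd
      obtain ⟨hd1, hd2⟩ := hd
      rw [a_badsum_mem, Finset.mem_Icc] at hd1
      refine ⟨hd1.2, hd2, ?_⟩
      exact (Nat.le_floor_iff (by positivity)).1 hd1.1.2
    have hP := hC' X hX₁ ((SX R X).filter (fun d : ℕ => X < d)) hmem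
    have hlog : 0 ≤ 3 * Real.log (2 * X) / X := by
      have : 0 ≤ Real.log (2 * X) := Real.log_nonneg (by linarith)
      positivity
    calc ∑ d ∈ (SX R X).filter (fun d : ℕ => X < d), cfP R lam X d * (((1 + 1 / ξ) * C) *
          ∫ v in (0 : ℝ)..(1 / 2 + δ), (T₀ X d (1 / 2 - v) - τ X d v) ^ 2)
        ≤ ∑ d ∈ (SX R X).filter (fun d : ℕ => X < d), (3 * Real.log (2 * X) / X) *
          (((1 + 1 / ξ) * C) *
          ∫ v in (0 : ℝ)..(1 / 2 + δ), (T₀ X d (1 / 2 - v) - τ X d v) ^ 2) := by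
          refine Finset.sum_le_sum fun d _ => ?_
          exact mul_le_mul_of_nonneg_right (hb1 d).2.1 (mul_nonneg hK0 (hI0 d))
      _ = 3 * Real.log (2 * X) / X * ((1 + 1 / ξ) * C) *
          ∑ d ∈ (SX R X).filter (fun d : ℕ => X < d),
          ∫ v in (0 : ℝ)..(1 / 2 + δ), (T₀ X d (1 / 2 - v) - τ X d v) ^ 2 := by
          rw [Finset.mul_sum]
          refine Finset.sum_congr rfl fun d _ => ?_
          ring
      _ ≤ 3 * Real.log (2 * X) / X * ((1 + 1 / ξ) * C) * (C' * X / (Real.log X) ^ 2) :=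
          mul_le_mul_of_nonneg_left hP (mul_nonneg hlog hK0)
      _ ≤ ξ := hlimX
  have hsum1 := he2 (fun _ => 1)
  simp only [mul_one] at hsum1
  rw [← hsum1]
  have hnn : ∀ d : ℕ, 0 ≤ (1 + ξ) * (cfP R lam X d *
        qP w u₁ u₂ g₁ g₂ (1 / 2 + δ) (fun v => y v - T₀ X d (1 / 2 - v))) +
      (if X < d then cfP R lam X d * (((1 + 1 / ξ) * C) *
        ∫ v in (0 : ℝ)..(1 / 2 + δ), (T₀ X d (1 / 2 - v) - τ X d v) ^ 2) else 0) :=
    fun d => ((hb2 d).1).trans (hpt d)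
  calc ∑ d ∈ SX (fun p => R p ∧ ¬ NZ p) X, cfP (fun p => R p ∧ ¬ NZ p) lam X d
      ≤ ∑ d ∈ SX (fun p => R p ∧ ¬ NZ p) X, ((1 + ξ) * (cfP R lam X d *
        qP w u₁ u₂ g₁ g₂ (1 / 2 + δ) (fun v => y v - T₀ X d (1 / 2 - v))) +
      (if X < d then cfP R lam X d * (((1 + 1 / ξ) * C) *
        ∫ v in (0 : ℝ)..(1 / 2 + δ), (T₀ X d (1 / 2 - v) - τ X d v) ^ 2) else 0)) :=
        Finset.sum_le_sum fun d _ => hpt d
    _ ≤ ∑ d ∈ SX R X, ((1 + ξ) * (cfP R lam X d *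
        qP w u₁ u₂ g₁ g₂ (1 / 2 + δ) (fun v => y v - T₀ X d (1 / 2 - v))) +
      (if X < d then cfP R lam X d * (((1 + 1 / ξ) * C) *
        ∫ v in (0 : ℝ)..(1 / 2 + δ), (T₀ X d (1 / 2 - v) - τ X d v) ^ 2) else 0)) :=
        Finset.sum_le_sum_of_subset_of_nonneg hsub fun d _ _ => hnn d
    _ = (1 + ξ) * (∑ d ∈ SX R X, cfP R lam X d *
        qP w u₁ u₂ g₁ g₂ (1 / 2 + δ) (fun v => y v - T₀ X d (1 / 2 - v))) +
        ∑ d ∈ SX R X, (if X < d then cfP R lam X d * (((1 + 1 / ξ) * C) *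
        ∫ v in (0 : ℝ)..(1 / 2 + δ), (T₀ X d (1 / 2 - v) - τ X d v) ^ 2) else 0) := by
        rw [Finset.sum_add_distrib, Finset.mul_sum]
    _ ≤ _ := by linarith

end Pool.Agent.MP0016c7.PC
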