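import Mathlib
import Pool.Agent.Lib.MP_0016c7_nt.PC.A.StmA

set_option autoImplicit false

/-!
Pieces A_dom and A_sumS.
-/

open Finset MeasureTheory Filter Topology
open scoped Real ContDiff

namespace Pool.Agent.MP0016c7.PC

open Pool.Agent.MP0016c7.Rz
open Pool.Agent.BVall (OmL)
open Pool.Agent.MP89da58 (tri cX)

private lemma a_dom_mem {R : ℕ → Prop} {X : ℝ} {d : ℕ} :
    d ∈ SX R X ↔ (1 ≤ d ∧ d ≤ ⌊2 * X⌋₊) ∧ R d := by
  classical
  unfold SX
  rw [@Finset.mem_filter ℕ R (Classical.decPred _), Finset.mem_Icc]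

theorem p_A_dom (h : A_sumP) : A_dom := by
  intro R lam hlam F hF0 hF η hη ε hε
  have hlog : ∀ᶠ X : ℝ in atTop, Real.log 2 / ε ≤ Real.log X :=
    Real.tendsto_log_atTop.eventually_ge_atTop _
  filter_upwards [h R lam hlam, hF, hlog, eventually_gt_atTop (1 : ℝ)] with X h1 h2 h3 h4
  intro ε₀ A w V hSW d hd
  obtain ⟨⟨hd1, -⟩, hRd⟩ := a_dom_mem.1 hd
  obtain ⟨p0, -, p2⟩ := h1.1 d
  refine ⟨p0, ?_⟩
  have hX0 : 0 < X := by linarith
  have hlX : 0 < Real.log X := Real.log_pos h4
  by_cases hz : cfP R lam X d = 0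
  · rw [hz]
    unfold cfS
    have := hSW.nn d (by omega)
    have := hF0 (d / X)
    positivity
  · obtain ⟨hp, -, hXd, hd2⟩ := p2 hz
    have hw : w d = 0 := by
      by_contra hne
      have h5 := (hSW.supp d hne).2.2
      have h6 : X ^ η ≤ X := by
        calc X ^ η ≤ X ^ (1 : ℝ) := Real.rpow_le_rpow_of_exponent_le h4.le hη.le
          _ = X := Real.rpow_one X
      linarith
    have hsum : ∑ m ∈ d.divisors, w m = 1 := by
      rw [hp.sum_divisors, hw, hSW.one, zero_add]
    have hld : Real.log d ≤ (1 + ε) * Real.log X := by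
      have h5 : Real.log d ≤ Real.log (2 * X) :=
        Real.log_le_log (by linarith) hd2
      rw [Real.log_mul (by norm_num) hX0.ne'] at h5
      rw [div_le_iff₀ hε] at h3
      linarith
    have hld0 : 0 ≤ Real.log d := Real.log_natCast_nonneg d
    have e1 : cfP R lam X d = Real.log d * OmL lam (X * Real.exp (1 / lam)) d / X := by
      unfold cfP
      rw [if_pos ⟨hp, hRd⟩]
    rw [e1]
    unfold cfS
    rw [hsum, mul_one]
    calc Real.log d * OmL lam (X * Real.exp (1 / lam)) d / X
        ≤ Real.log d * F (d / X) / X := by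
          gcongr
          exact h2 d (by omega)
      _ ≤ ((1 + ε) * Real.log X) * F (d / X) / X := by
          have := hF0 (d / X)
          gcongr
      _ = (1 + ε) * Real.log X / X * F (d / X) := by ring

theorem p_A_sumS : A_sumS := by
  intro R D F a hD ha hF w V ε X hV hX g
  have hX0 : 0 < X := by linarith
  unfold avWg
  rw [tsum_eq_sum (s := SX R X)]
  · rw [Finset.mul_sum, Finset.mul_sum]
    refine Finset.sum_congr rfl fun d hd => ?_
    rw [if_pos (a_dom_mem.1 hd).2]
    unfold cfS
    field_simp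
  · intro d hd
    by_cases hR : R d
    · rw [if_pos hR]
      have : F (d / X) = 0 := by
        by_contra hne
        obtain ⟨h1, h2⟩ := hF.supp _ hne
        apply hd
        rw [a_dom_mem]
        rw [div_lt_iff₀ hX0] at h2
        have h3 : (0 : ℝ) < d := by
          by_contra h4
          have h5 : (d : ℝ) / X ≤ 0 := div_nonpos_of_nonpos_of_nonneg (not_lt.1 h4) hX0.le
          linarith
        refine ⟨⟨?_, ?_⟩, hR⟩
        · exact_mod_cast h3
        · exact Nat.le_floor h2.le
      rw [this]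
      ring
    · rw [if_neg hR]

end Pool.Agent.MP0016c7.PC
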