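import Mathlib
import Pool.Agent.Lib.MP_0016c7_nt.PC.A.StmA
import Pool.Agent.Lib.MP_0016c7_nt.Rz.Ker2
import Pool.Agent.Lib.MP_0016c7_nt.Rz.Ker4

set_option autoImplicit false

/-!
Project PrimeConductors, block [A]: piece A5, the process is linear in the profile.
(The first lemmas are copies of private lemmas of Rz/Ker4.lean.)
-/

open Finset MeasureTheory Filter Topology
open scoped Real ContDiff

namespace Pool.Agent.MP0016c7.PC

open Pool.Agent.MP0016c7.Rz

private theorem a_lin_k4_cs {ρ : ℝ → ℝ} {a b : ℝ} (hρ : Bump ρ a b) : HasCompactSupport ρ := by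
  refine HasCompactSupport.intro (isCompact_Icc (a := a) (b := b)) ?_
  intro x hx
  by_contra h0
  exact hx ⟨(hρ.supp x h0).1.le, (hρ.supp x h0).2.le⟩

private theorem a_lin_k4_int {ρ : ℝ → ℝ} {a b : ℝ} (hρ : Bump ρ a b) : Integrable ρ :=
  hρ.smooth.continuous.integrable_of_hasCompactSupport (a_lin_k4_cs hρ)

private theorem a_lin_k4_HH_cont {h : ℝ → ℝ} {a b : ℝ} (hh : Bump h a b) : Continuous (HH h) := by
  have hi := a_lin_k4_int hh
  have e : HH h = fun v => HH h 0 - ∫ t in (0 : ℝ)..v, h t := by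
    funext v
    have := intervalIntegral.integral_Ioi_sub_Ioi' (f := h) (μ := volume) (a := 0) (b := v)
      hi.integrableOn hi.integrableOn
    unfold HH
    linarith
  rw [e]
  exact continuous_const.sub (intervalIntegral.continuous_primitive
    (fun a b => hi.intervalIntegrable) 0)

private theorem a_lin_k4_HH_bd {h : ℝ → ℝ} {a b : ℝ} (hh : Bump h a b) (v : ℝ) :
    |HH h v| ≤ ∫ t, |h t| := by
  have hi := a_lin_k4_int hh
  unfold HH
  calc |∫ t in Set.Ioi v, h t| ≤ ∫ t in Set.Ioi v, |h t| := abs_integral_le_integral_abs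
    _ ≤ ∫ t, |h t| := setIntegral_le_integral hi.abs (Eventually.of_forall fun t => abs_nonneg _)

/-- the inner integral -/
private noncomputable def a_lin_k4G (ρ h : ℝ → ℝ) (u w : ℝ) : ℝ := ∫ y : ℝ, ρ y * HH h (u + |w - y|)

private theorem a_lin_k4G_deriv {ρ h : ℝ → ℝ} {a b a' b' : ℝ} (hρ : Bump ρ a b) (hh : Bump h a' b')
    (u w : ℝ) : HasDerivAt (a_lin_k4G ρ h u) (a_lin_k4G (deriv ρ) h u w) w := by
  have hg : Continuous (fun t => HH h (u + |t|)) :=
    (a_lin_k4_HH_cont hh).comp (continuous_const.add continuous_abs)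
  have h1 := (a_lin_k4_cs hρ).hasDerivAt_convolution_left (μ := volume) (𝕜 := ℝ)
    (ContinuousLinearMap.mul ℝ ℝ)
    (hρ.smooth.of_le (by exact_mod_cast le_top)) (hg.locallyIntegrable) w
  exact h1

private theorem a_lin_k4G_bd {ρ h : ℝ → ℝ} {a b a' b' : ℝ} (hρ : Bump ρ a b) (hh : Bump h a' b')
    (u w : ℝ) : |a_lin_k4G ρ h u w| ≤ (∫ y, |ρ y|) * ∫ t, |h t| := by
  have hi := a_lin_k4_int hρ
  unfold a_lin_k4G
  calc |∫ y : ℝ, ρ y * HH h (u + |w - y|)| ≤ ∫ y : ℝ, |ρ y * HH h (u + |w - y|)| :=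
        abs_integral_le_integral_abs
    _ ≤ ∫ y : ℝ, |ρ y| * ∫ t, |h t| := by
        apply integral_mono_of_nonneg (Eventually.of_forall fun t => abs_nonneg _)
          (hi.abs.mul_const _)
        refine Eventually.of_forall fun y => ?_
        simp only [abs_mul]
        exact mul_le_mul_of_nonneg_left (a_lin_k4_HH_bd hh _) (abs_nonneg _)
    _ = (∫ y, |ρ y|) * ∫ t, |h t| := integral_mul_const _ _

private theorem a_lin_k4_kap_cont (a : ℝ) : Continuous (kap a) := by
  unfold kap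
  fun_prop

private theorem a_lin_k4_kap_int (c : ℝ) (hc : c = 0 ∨ c = 1) : Integrable (kap c) := by
  have hc0 : 0 ≤ c := by
    rcases hc with h | h
    · exact h.ge
    · rw [h]; exact zero_le_one
  have hc1 : c ≤ 1 := by
    rcases hc with h | h
    · rw [h]; exact zero_le_one
    · exact h.le
  rw [← integrableOn_univ, ← Set.Iic_union_Ioi (a := (0 : ℝ))]
  refine IntegrableOn.union ?_ ?_
  · refine Integrable.mono' (integrableOn_exp_mul_Iic (a := 1 / 2) (by norm_num) 0)
      (a_lin_k4_kap_cont c).aestronglyMeasurable.restrict ?_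
    refine (ae_restrict_iff' measurableSet_Iic).2 (Eventually.of_forall ?_)
    intro x hx
    have hx' : x ≤ 0 := hx
    rw [kap, Real.norm_eq_abs, abs_of_pos (Real.exp_pos _), Real.exp_le_exp]
    have := mul_pos Real.pi_pos (Real.exp_pos (2 * x))
    nlinarith only [this, hc0, hx']
  · refine Integrable.mono' (integrableOn_exp_mul_Ioi (a := -1) (by norm_num) 0)
      (a_lin_k4_kap_cont c).aestronglyMeasurable.restrict ?_
    refine (ae_restrict_iff' measurableSet_Ioi).2 (Eventually.of_forall ?_)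
    intro x hx
    have hx' : 0 < x := hx
    rw [kap, Real.norm_eq_abs, abs_of_pos (Real.exp_pos _), Real.exp_le_exp]
    have h1 : 2 * x + 1 ≤ Real.exp (2 * x) := Real.add_one_le_exp _
    have h2 : 3 * Real.exp (2 * x) ≤ π * Real.exp (2 * x) :=
      mul_le_mul_of_nonneg_right Real.pi_gt_three.le (Real.exp_pos _).le
    nlinarith only [hx', h1, h2, hc1]

private theorem a_lin_k4_kL_eq {ρ h : ℝ → ℝ} (c L z u : ℝ) :
    kL c ρ h L z u = (∫ x : ℝ, kap c x * a_lin_k4G ρ h u (z + x / L)) / Gam0 c := by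
  unfold kL a_lin_k4G
  congr 1
  apply integral_congr_ae
  refine Eventually.of_forall fun x => ?_
  simp only
  rw [← integral_const_mul]
  apply integral_congr_ae
  refine Eventually.of_forall fun y => ?_
  simp only
  ring

private theorem a_lin_k4_coef_bd (k : ℤ) (p : ℕ × ℕ) :
    |(ArithmeticFunction.moebius p.2 : ℝ) * jr k (p.1 * p.2) / √((p.1 : ℝ) * p.2)| ≤ 1 := by
  by_cases h0 : p.1 * p.2 = 0
  · have : (p.1 : ℝ) * p.2 = 0 := by exact_mod_cast h0
    rw [this]
    simp
  · have h1 : 1 ≤ p.1 * p.2 := Nat.one_le_iff_ne_zero.2 h0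
    have h1' : (1 : ℝ) ≤ (p.1 : ℝ) * p.2 := by exact_mod_cast h1
    have hs : 1 ≤ √((p.1 : ℝ) * p.2) := Real.one_le_sqrt.2 h1'
    have hm : |(ArithmeticFunction.moebius p.2 : ℝ)| ≤ 1 := by
      exact_mod_cast (ArithmeticFunction.abs_moebius_le_one (n := p.2))
    have hj : |jr k (p.1 * p.2)| ≤ 1 := by
      unfold jr
      split_ifs
      · rcases jacobiSym.trichotomy k (p.1 * p.2) with h | h | h <;> rw [h] <;> simp
      · simp
    rw [abs_div, abs_mul, abs_of_nonneg (Real.sqrt_nonneg _)]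
    rw [div_le_one (by linarith)]
    calc _ ≤ (1 : ℝ) * 1 := mul_le_mul hm hj (abs_nonneg _) zero_le_one
      _ ≤ _ := by linarith

private theorem a_lin_k4_bound {ρ h : ℝ → ℝ} {δ θ : ℝ} (hδ : 0 < δ) (hρ : Bump ρ (-(δ / 2)) (δ / 2))
    (hh : Bump h 0 θ) (c : ℝ) (hc : c = 0 ∨ c = 1) (k : ℤ) (L : ℝ) (hL : 0 < L) (T : ℝ) :
    ∃ v : ℕ × ℕ → ℝ, Summable v ∧ ∀ (p : ℕ × ℕ) (Y : ℝ), Y ≤ T →
      ‖(ArithmeticFunction.moebius p.2 : ℝ) * jr k (p.1 * p.2) / √((p.1 : ℝ) * p.2) *
        kL c ρ h L (Y - Real.log p.1 / L) (Real.log p.2 / L)‖ ≤ v p := by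
  obtain ⟨C₁, hC₁, hk1⟩ := abs_kL_le hρ hh c hc
  obtain ⟨C₂, hC₂, hk2⟩ := kL_tail hδ hρ hh c hc
  set B : ℝ := Real.exp (2 * (T + θ + δ) * L) with hB
  have hBpos : 0 < B := Real.exp_pos _
  set q : ℝ := Real.exp (-(1 / B)) with hq
  have hq1 : q < 1 := by
    have h1 : 0 < 1 / B := by positivity
    have h2 : Real.exp (-(1 / B)) < Real.exp 0 := Real.exp_lt_exp.2 (by linarith)
    rw [Real.exp_zero] at h2
    exact h2
  have hq0 : 0 < q := Real.exp_pos _
  set N : ℕ := ⌈Real.exp (θ * L)⌉₊ with hN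
  set f : ℕ → ℝ := fun n => (C₁ * Real.exp 1 + C₂) * q ^ n with hf
  set g : ℕ → ℝ := fun l => if l ≤ N then 1 else 0 with hg
  have hfs : Summable f := (summable_geometric_of_lt_one hq0.le hq1).mul_left _
  have hgs : Summable g := by
    apply summable_of_ne_finset_zero (s := Finset.range (N + 1))
    intro b hb
    have : ¬ b ≤ N := by
      intro h
      exact hb (Finset.mem_range.2 (Nat.lt_succ_of_le h))
    simp [hg, this]
  have hf0 : ∀ n, 0 ≤ f n := fun n => by
    simp only [hf]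
    positivity
  have hg0 : ∀ n, 0 ≤ g n := fun n => by
    simp only [hg]
    split_ifs <;> norm_num
  refine ⟨fun p => f p.1 * g p.2, Summable.mul_of_nonneg hfs hgs hf0 hg0, ?_⟩
  rintro ⟨n, l⟩ Y hY
  simp only
  have hfg0 : 0 ≤ f n * g l := mul_nonneg (hf0 n) (hg0 l)
  rcases Nat.eq_zero_or_pos n with hn | hn
  · subst hn
    have : jr k (0 * l) = 0 := by simp [jr]
    rw [this]
    simpa using hfg0
  rcases Nat.eq_zero_or_pos l with hl | hl
  · subst hl
    simpa using hfg0
  have hn' : (1 : ℝ) ≤ n := by exact_mod_cast hn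
  have hl' : (1 : ℝ) ≤ l := by exact_mod_cast hl
  rcases le_or_gt θ (Real.log l / L) with hlθ | hlθ
  · rw [kL_eq_zero hh c L _ _ hlθ]
    simpa using hfg0
  have hlN : l ≤ N := by
    have h1 : Real.log l < θ * L := (div_lt_iff₀ hL).1 hlθ
    have h2 : (l : ℝ) < Real.exp (θ * L) := by
      rw [← Real.log_lt_iff_lt_exp (by linarith)]
      exact h1
    have h3 : (l : ℝ) ≤ N := h2.le.trans (Nat.le_ceil _)
    exact_mod_cast h3
  have hgl : g l = 1 := by simp [hg, hlN]
  rw [hgl, mul_one, Real.norm_eq_abs, abs_mul]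
  refine le_trans (mul_le_of_le_one_left (abs_nonneg _) (a_lin_k4_coef_bd k (n, l))) ?_
  have hexpn : Real.exp (-((n : ℝ) / B)) = q ^ n := by
    rw [hq, ← Real.exp_nat_mul]
    congr 1
    ring
  have hlogl : 0 ≤ Real.log l := Real.log_nonneg hl'
  have hlogn : 0 ≤ Real.log n := Real.log_nonneg hn'
  rcases le_or_gt (θ + δ) (Real.log l / L - (Y - Real.log n / L)) with ht | ht
  · -- tail
    have h1 := hk2 L (Y - Real.log n / L) (Real.log l / L) hL ht
    refine h1.trans ?_
    have h2 : (n : ℝ) / B ≤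
        Real.exp (2 * (Real.log l / L - (Y - Real.log n / L) - θ - δ / 2) * L) := by
      have e1 : (n : ℝ) = Real.exp (Real.log n) := (Real.exp_log (by linarith)).symm
      have e2 : 2 * (Real.log l / L - (Y - Real.log n / L) - θ - δ / 2) * L =
          2 * Real.log l + 2 * Real.log n - 2 * (Y + θ + δ / 2) * L := by
        field_simp
        ring
      rw [e2]
      calc (n : ℝ) / B = Real.exp (Real.log n - 2 * (T + θ + δ) * L) := by
            rw [Real.exp_sub, ← e1]
        _ ≤ _ := by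
            rw [Real.exp_le_exp]
            have : (Y + θ + δ / 2) * L ≤ (T + θ + δ) * L :=
              mul_le_mul_of_nonneg_right (by linarith only [hδ, hY]) hL.le
            nlinarith only [hlogl, hlogn, this]
    calc C₂ * Real.exp (-Real.exp (2 * (Real.log l / L - (Y - Real.log n / L) - θ - δ / 2) * L))
        ≤ C₂ * Real.exp (-((n : ℝ) / B)) := by
          apply mul_le_mul_of_nonneg_left _ hC₂.le
          rw [Real.exp_le_exp]
          linarith only [h2]
      _ = C₂ * q ^ n := by rw [hexpn]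
      _ ≤ f n := by
          simp only [hf]
          have : 0 ≤ C₁ * Real.exp 1 * q ^ n := by positivity
          nlinarith only [this]
  · -- small n
    have h1 := hk1 L (Y - Real.log n / L) (Real.log l / L) hL
    refine h1.trans ?_
    have h2 : (n : ℝ) ≤ B := by
      have h3 : Real.log n / L < T + θ + δ := by
        have : 0 ≤ Real.log l / L := div_nonneg hlogl hL.le
        linarith
      have h4 : Real.log n < (T + θ + δ) * L := (div_lt_iff₀ hL).1 h3
      have h5 : (n : ℝ) ≤ Real.exp ((T + θ + δ) * L) := by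
        rw [← Real.log_le_iff_le_exp (by linarith)]
        exact h4.le
      refine h5.trans ?_
      rw [hB, Real.exp_le_exp]
      nlinarith only [hlogn, h4]
    have h3 : Real.exp (-1) ≤ q ^ n := by
      rw [← hexpn, Real.exp_le_exp]
      have : (n : ℝ) / B ≤ 1 := (div_le_one hBpos).2 h2
      linarith
    calc C₁ = C₁ * Real.exp 1 * Real.exp (-1) := by
          rw [mul_assoc, ← Real.exp_add]; simp
      _ ≤ C₁ * Real.exp 1 * q ^ n := mul_le_mul_of_nonneg_left h3 (by positivity)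
      _ ≤ f n := by
          simp only [hf]
          have : 0 ≤ C₂ * q ^ n := by positivity
          nlinarith only [this]


private theorem a_lin_HH (J : ℕ) (cs : ℕ → ℝ) (q : ℕ → ℝ → ℝ) (θ : ℝ)
    (hq : ∀ k < J, Bump (q k) 0 θ) (v : ℝ) :
    HH (fun t => ∑ k ∈ range J, cs k * q k t) v = ∑ k ∈ range J, cs k * HH (q k) v := by
  unfold HH
  rw [integral_finsetSum]
  · refine Finset.sum_congr rfl fun k _ => ?_
    rw [integral_const_mul]
  · intro k hk
    exact ((a_lin_k4_int (hq k (Finset.mem_range.1 hk))).integrableOn).const_mul _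

private theorem a_lin_G (J : ℕ) (cs : ℕ → ℝ) (q : ℕ → ℝ → ℝ) (θ : ℝ)
    (hq : ∀ k < J, Bump (q k) 0 θ) {ρ : ℝ → ℝ} {a b : ℝ} (hρ : Bump ρ a b) (u w : ℝ) :
    a_lin_k4G ρ (fun t => ∑ k ∈ range J, cs k * q k t) u w =
      ∑ k ∈ range J, cs k * a_lin_k4G ρ (q k) u w := by
  unfold a_lin_k4G
  simp only [a_lin_HH J cs q θ hq]
  have e : (fun y : ℝ => ρ y * ∑ k ∈ range J, cs k * HH (q k) (u + |w - y|)) =
      fun y : ℝ => ∑ k ∈ range J, cs k * (ρ y * HH (q k) (u + |w - y|)) := by
    funext y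
    rw [Finset.mul_sum]
    refine Finset.sum_congr rfl fun k _ => ?_
    ring
  rw [e, integral_finsetSum]
  · refine Finset.sum_congr rfl fun k _ => ?_
    rw [integral_const_mul]
  · intro k hk
    have hc : Continuous (HH (q k)) := a_lin_k4_HH_cont (hq k (Finset.mem_range.1 hk))
    have h1 : Continuous (fun y : ℝ => ρ y * HH (q k) (u + |w - y|)) :=
      hρ.smooth.continuous.mul (hc.comp (by fun_prop))
    exact (h1.integrable_of_hasCompactSupport ((a_lin_k4_cs hρ).mul_right)).const_mul _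

private theorem a_lin_kL (J : ℕ) (cs : ℕ → ℝ) (q : ℕ → ℝ → ℝ) (θ : ℝ)
    (hq : ∀ k < J, Bump (q k) 0 θ) {ρ : ℝ → ℝ} {a b : ℝ} (hρ : Bump ρ a b) (c : ℝ)
    (hc : c = 0 ∨ c = 1) (L z u : ℝ) :
    kL c ρ (fun t => ∑ k ∈ range J, cs k * q k t) L z u =
      ∑ k ∈ range J, cs k * kL c ρ (q k) L z u := by
  simp only [a_lin_k4_kL_eq, a_lin_G J cs q θ hq hρ]
  have e : (fun x : ℝ => kap c x * ∑ k ∈ range J, cs k * a_lin_k4G ρ (q k) u (z + x / L)) =
      fun x : ℝ => ∑ k ∈ range J, cs k * (kap c x * a_lin_k4G ρ (q k) u (z + x / L)) := by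
    funext x
    rw [Finset.mul_sum]
    refine Finset.sum_congr rfl fun k _ => ?_
    ring
  rw [e, integral_finsetSum]
  · rw [Finset.sum_div]
    refine Finset.sum_congr rfl fun k _ => ?_
    rw [integral_const_mul, mul_div_assoc]
  · intro k hk
    have hb := hq k (Finset.mem_range.1 hk)
    have hG : Continuous (a_lin_k4G ρ (q k) u) :=
      (show Differentiable ℝ (a_lin_k4G ρ (q k) u) from
        fun w => (a_lin_k4G_deriv hρ hb u w).differentiableAt).continuous
    refine Integrable.const_mul ?_ _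
    refine Integrable.mono' ((a_lin_k4_kap_int c hc).mul_const ((∫ y, |ρ y|) * ∫ t, |q k t|))
      (((a_lin_k4_kap_cont c).mul (hG.comp (by fun_prop))).aestronglyMeasurable) ?_
    refine Eventually.of_forall fun x => ?_
    rw [Real.norm_eq_abs, abs_mul, abs_of_pos (show 0 < kap c x from Real.exp_pos _)]
    exact mul_le_mul_of_nonneg_left (a_lin_k4G_bd hρ hb _ _) (Real.exp_pos _).le

theorem p_A_lin : A_lin := by
  intro δ θ hδ ρ hρ J cs q hq c hc σ X hX d Y
  have hL : 0 < Real.log X := Real.log_pos hX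
  unfold ytil
  simp only [a_lin_kL J cs q θ hq hρ c hc]
  have hs : ∀ k ∈ range J, Summable (fun p : ℕ × ℕ =>
      cs k * ((ArithmeticFunction.moebius p.2 : ℝ) * jr (2 * σ * d) (p.1 * p.2) /
        √((p.1 : ℝ) * p.2) * kL c ρ (q k) (Real.log X) (Y - Real.log p.1 / Real.log X)
          (Real.log p.2 / Real.log X))) := by
    intro k hk
    obtain ⟨v, hv, hvb⟩ := a_lin_k4_bound hδ hρ (hq k (Finset.mem_range.1 hk)) c hc
      (2 * σ * d) (Real.log X) hL Y
    exact (Summable.of_norm_bounded hv (fun p => hvb p Y le_rfl)).mul_left _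
  simp only [← tsum_mul_left]
  rw [← Summable.tsum_finsetSum hs]
  refine tsum_congr fun p => ?_
  rw [Finset.mul_sum]
  refine Finset.sum_congr rfl fun k _ => ?_
  ring

end Pool.Agent.MP0016c7.PC
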