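import Pool.Agent.Lib.MP_0016c7_nt.PC.A.StmA

set_option autoImplicit false

/-! Project PrimeConductors, [A13], [A14]: zeroth and first moments over primes. -/

open Finset MeasureTheory Filter Topology
open scoped Real ContDiff

namespace Pool.Agent.MP0016c7.PC

open Pool.Agent.MP0016c7.Rz
open Pool.Agent.BVall (OmL)

private lemma a_m0_core {R : ℕ → Prop} {D : ℝ} {S : Finset ℕ} (hP : PCl R D S) (hc : A_cl)
    {lam X : ℝ} (hX : 0 < X) {g : ℕ → ℝ}
    (hs : ∑ d ∈ SX R X, cfP R lam X d * g d = psiR R lam (X * Real.exp (1 / lam)) g / X)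
    {m e : ℝ} (he : 0 ≤ e)
    (h : ∀ r ∈ S, |psiR (fun p => p % 8 = r) lam (X * Real.exp (1 / lam)) g -
      SO lam (X * Real.exp (1 / lam)) / 4 * m| ≤ e * X) :
    |(∑ d ∈ SX R X, cfP R lam X d * g d) - IX D lam X * m| ≤ 4 * e := by
  have hX' : X ≠ 0 := hX.ne'
  obtain ⟨hS, -, hD, -⟩ := id hP
  have hcard : (S.card : ℝ) ≤ 4 := by
    have h1 : S.card ≤ ({1, 3, 5, 7} : Finset ℕ).card := Finset.card_le_card hS
    have h2 : ({1, 3, 5, 7} : Finset ℕ).card = 4 := by decide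
    rw [h2] at h1
    exact_mod_cast h1
  have hcl := hc R D S hP lam (X * Real.exp (1 / lam)) g
  have key : (∑ d ∈ SX R X, cfP R lam X d * g d) - IX D lam X * m =
      (∑ r ∈ S, (psiR (fun p => p % 8 = r) lam (X * Real.exp (1 / lam)) g -
        SO lam (X * Real.exp (1 / lam)) / 4 * m)) / X := by
    rw [hs, hcl, Finset.sum_sub_distrib, Finset.sum_const, nsmul_eq_mul, IX, hD]
    field_simp
    ring
  rw [key, abs_div, abs_of_pos hX, div_le_iff₀ hX]
  calc |∑ r ∈ S, (psiR (fun p => p % 8 = r) lam (X * Real.exp (1 / lam)) g -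
        SO lam (X * Real.exp (1 / lam)) / 4 * m)|
      ≤ ∑ r ∈ S, |psiR (fun p => p % 8 = r) lam (X * Real.exp (1 / lam)) g -
        SO lam (X * Real.exp (1 / lam)) / 4 * m| := Finset.abs_sum_le_sum_abs _ _
    _ ≤ ∑ r ∈ S, e * X := Finset.sum_le_sum h
    _ = S.card * (e * X) := by rw [Finset.sum_const, nsmul_eq_mul]
    _ ≤ 4 * (e * X) := mul_le_mul_of_nonneg_right hcard (mul_nonneg he hX.le)
    _ = 4 * e * X := by ring

theorem p_A_m0 (hs : A_sumP) (hc : A_cl) : A_m0 := by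
  intro hz R D S hP lam hlam ε hε
  have h1 : ∀ᶠ X : ℝ in atTop, ∀ r ∈ S,
      |psiR (fun p => p % 8 = r) lam (X * Real.exp (1 / lam)) (fun _ => 1) -
        SO lam (X * Real.exp (1 / lam)) / 4| ≤ ε / 4 * X := by
    rw [Filter.eventually_all_finset]
    intro r hr
    obtain ⟨X₀, h⟩ := hz lam hlam r (hP.1 hr) (ε / 4) (by positivity)
    filter_upwards [eventually_ge_atTop X₀] with X hX
    exact h X hX
  filter_upwards [hs R lam hlam, h1, eventually_gt_atTop (0 : ℝ)] with X hX1 hX2 hX3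
  have h2 := a_m0_core hP hc hX3 (hX1.2 (fun _ => 1)) (m := 1) (e := ε / 4) (by positivity)
    (fun r hr => by
      rw [mul_one]
      exact hX2 r hr)
  simp only [mul_one] at h2
  linarith

theorem p_A_m1 (hs : A_sumP) (hc : A_cl) (hk : A_CC) : A_m1 := by
  intro hf R D S hP lam hlam J ws cs δ hδ hδ' hws c₀ hc₀ σ hσ a₀ ha₀ ρ q hρ hρ1 hq ε hε
  have h1 : ∀ᶠ X : ℝ in atTop, ∀ k ∈ Finset.range J, ∀ r ∈ S, ∀ Y ∈ Set.Icc (-1 : ℝ) (1 / 2 + δ),
      |psiR (fun p => p % 8 = r) lam (X * Real.exp (1 / lam))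
        (fun p => ytil a₀ σ ρ (q k) X (c₀ * p) Y) -
        SO lam (X * Real.exp (1 / lam)) / 4 * ∫ y, ρ y * HH (q k) (y - Y)| ≤
      ε / (4 * (1 + |cs k|)) * X := by
    rw [Filter.eventually_all_finset]
    intro k hk'
    rw [Filter.eventually_all_finset]
    intro r hr
    have hkJ : k < J := Finset.mem_range.mp hk'
    have hb := hq k hkJ
    have hb0 : Bump (q k) 0 (ws k + 3 * δ) :=
      ⟨hb.smooth, fun t ht => ⟨by linarith [(hb.supp t ht).1], (hb.supp t ht).2⟩⟩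
    have hw := hws k hkJ
    obtain ⟨X₀, h⟩ := hf lam hlam (ws k + 3 * δ) δ (by linarith [hw.1]) hδ hδ'
      (by linarith [hw.2]) r (hP.1 hr) c₀ hc₀ σ hσ a₀ ha₀ ρ (q k) hρ hb0
      (ε / (4 * (1 + |cs k|))) (by positivity)
    filter_upwards [eventually_ge_atTop X₀] with X hX
    exact h X hX
  filter_upwards [hs R lam hlam, h1, eventually_gt_atTop (0 : ℝ)] with X hX1 hX2 hX3
  intro k hkJ Y hY
  have hlim : (∫ y, ρ y * HH (q k) (y - Y)) = HH (q k) 0 :=
    (hk δ hδ ρ (q k) (q k) (ws k + 3 * δ) (ws k + 3 * δ) hρ hρ1 (hq k hkJ) (hq k hkJ)).1 Y hY.1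
  have hY' : Y ∈ Set.Icc (-1 : ℝ) (1 / 2 + δ) := ⟨by linarith [hY.1], by linarith [hY.2]⟩
  have hpos : 0 < 4 * (1 + |cs k|) := by positivity
  have h2 := a_m0_core hP hc hX3 (hX1.2 (fun d => ytil a₀ σ ρ (q k) X (c₀ * d) Y))
    (m := HH (q k) 0) (e := ε / (4 * (1 + |cs k|))) (by positivity)
    (fun r hr => by
      rw [← hlim]
      exact hX2 k (Finset.mem_range.mpr hkJ) r hr Y hY')
  have h3 : (∑ d ∈ SX R X, cfP R lam X d * (cs k * ytil a₀ σ ρ (q k) X (c₀ * d) Y)) -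
      IX D lam X * (cs k * HH (q k) 0) =
      cs k * ((∑ d ∈ SX R X, cfP R lam X d * ytil a₀ σ ρ (q k) X (c₀ * d) Y) -
        IX D lam X * HH (q k) 0) := by
    rw [mul_sub, Finset.mul_sum]
    congr 1
    · exact Finset.sum_congr rfl (fun d _ => by ring)
    · ring
  rw [h3, abs_mul]
  calc |cs k| * |(∑ d ∈ SX R X, cfP R lam X d * ytil a₀ σ ρ (q k) X (c₀ * d) Y) -
        IX D lam X * HH (q k) 0|
      ≤ (1 + |cs k|) * (4 * (ε / (4 * (1 + |cs k|)))) := by
        apply mul_le_mul (by linarith) h2 (abs_nonneg _) (by positivity)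
    _ = ε := by field_simp

end Pool.Agent.MP0016c7.PC
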