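import Mathlib
import Pool.Agent.Lib.MP_0016c7_nt.PC.A.StmA

set_option autoImplicit false

/-!
Project PrimeConductors, block [A], piece A15: covariances over primes, all pairs of components.
-/

open Finset MeasureTheory Filter Topology
open scoped Real ContDiff

namespace Pool.Agent.MP0016c7.PC

open Pool.Agent.MP0016c7.Rz

private lemma a_m2_lin (R : ℕ → Prop) (lam Z a b : ℝ) (f g : ℕ → ℝ) :
    psiR R lam Z (fun p => (a * f p) * (b * g p)) = a * b * psiR R lam Z (fun p => f p * g p) := by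
  unfold psiR
  rw [Finset.mul_sum]
  exact Finset.sum_congr rfl fun p _ => by ring

private lemma a_m2_bump {h : ℝ → ℝ} {a a' b : ℝ} (hh : Bump h a b) (haa : a' ≤ a) :
    Bump h a' b :=
  ⟨hh.smooth, fun t ht => ⟨lt_of_le_of_lt haa (hh.supp t ht).1, (hh.supp t ht).2⟩⟩

theorem p_A_m2 (hs : A_sumP) (hc : A_cl) (hk : A_CC) : A_m2 := by
  intro hcov R D S hS lam hlam J ws cs δ hδ hδ1 hws c₀ hc₀ σ hσ a₀ ha₀ ρ q hρ hρ1 hq ε hε
  obtain ⟨hS1, hS2, hS3, hS4⟩ := hS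
  have hcard : (S.card : ℝ) ≤ 4 := by
    have h1 : S.card ≤ ({1, 3, 5, 7} : Finset ℕ).card := Finset.card_le_card hS1
    have h2 : ({1, 3, 5, 7} : Finset ℕ).card = 4 := by decide
    rw [h2] at h1
    exact_mod_cast h1
  -- the eventual estimates
  have hev : ∀ᶠ X : ℝ in atTop, ∀ i ∈ range J, ∀ j ∈ range J, ∀ r ∈ S,
      ∀ Y₁ ∈ Set.Icc (-1 : ℝ) (1 / 2 + δ), ∀ Y₂ ∈ Set.Icc (-1 : ℝ) (1 / 2 + δ),
      Y₁ + (ws i + 3 * δ) + Y₂ + (ws j + 3 * δ) + 5 * δ ≤ 1 →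
      |psiR (fun p => p % 8 = r) lam (X * Real.exp (1 / lam))
          (fun p => ytil a₀ σ ρ (q i) X (c₀ * p) Y₁ * ytil a₀ σ ρ (q j) X (c₀ * p) Y₂) -
        SO lam (X * Real.exp (1 / lam)) / 4 * CC2 ρ ρ (q i) (q j) Y₁ Y₂| ≤
        ε / (4 * (1 + |cs i * cs j|)) * X := by
    rw [Filter.eventually_all_finset]
    intro i hi
    rw [Filter.eventually_all_finset]
    intro j hj
    rw [Filter.eventually_all_finset]
    intro r hr
    have hi' := Finset.mem_range.mp hi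
    have hj' := Finset.mem_range.mp hj
    obtain ⟨hwi, hwi'⟩ := hws i hi'
    obtain ⟨hwj, hwj'⟩ := hws j hj'
    obtain ⟨X₀, hX₀⟩ := hcov lam hlam (ws i + 3 * δ) (ws j + 3 * δ) δ (by linarith) (by linarith)
      hδ hδ1 (by linarith) (by linarith) r (hS1 hr) c₀ hc₀ σ hσ a₀ ha₀ ρ ρ (q i) (q j) hρ hρ
      (a_m2_bump (hq i hi') (by linarith)) (a_m2_bump (hq j hj') (by linarith))
      (ε / (4 * (1 + |cs i * cs j|))) (by positivity)
    exact eventually_atTop.mpr ⟨X₀, hX₀⟩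
  filter_upwards [hev, hs R lam hlam, eventually_gt_atTop (0 : ℝ)] with X hX hsX hXpos
  intro i hi j hj Y₁ hY₁ Y₂ hY₂ hYY
  set g : ℕ → ℝ := fun d => (cs i * ytil a₀ σ ρ (q i) X (c₀ * d) Y₁) *
    (cs j * ytil a₀ σ ρ (q j) X (c₀ * d) Y₂) with hg
  set A : ℝ := cs i * cs j with hA
  set f : ℕ → ℝ := fun p => ytil a₀ σ ρ (q i) X (c₀ * p) Y₁ * ytil a₀ σ ρ (q j) X (c₀ * p) Y₂
    with hf
  set Z : ℝ := X * Real.exp (1 / lam) with hZ
  set K : ℝ := CC2 ρ ρ (q i) (q j) Y₁ Y₂ with hK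
  have hKeq : K = HH (q i) 0 * HH (q j) 0 + (∫ t, q i t * q j t) * Gam2 ρ ρ Y₁ Y₂ :=
    (hk δ hδ ρ (q i) (q j) (ws i + 3 * δ) (ws j + 3 * δ) hρ hρ1 (hq i hi) (hq j hj)).2 Y₁ Y₂
      hY₁.1 hY₂.1
  have h1 : ∑ d ∈ SX R X, cfP R lam X d * g d =
      (∑ r ∈ S, A * psiR (fun p => p % 8 = r) lam Z f) / X := by
    rw [hsX.2 g, hc R D S ⟨hS1, hS2, hS3, hS4⟩ lam Z g]
    congr 1
    refine Finset.sum_congr rfl fun r _ => ?_
    exact a_m2_lin _ lam Z (cs i) (cs j) _ _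
  have h2 : IX D lam X * ((cs i * HH (q i) 0) * (cs j * HH (q j) 0) +
      (cs i * cs j * ∫ t, q i t * q j t) * Gam2 ρ ρ Y₁ Y₂) =
      (∑ r ∈ S, A * (SO lam Z / 4 * K)) / X := by
    rw [Finset.sum_const, nsmul_eq_mul, hKeq]
    unfold IX
    rw [hS3, ← hZ, hA]
    ring
  have h3 : ∀ r ∈ S, |A * psiR (fun p => p % 8 = r) lam Z f - A * (SO lam Z / 4 * K)| ≤
      ε / 4 * X := by
    intro r hr
    have h4 := hX i (Finset.mem_range.mpr hi) j (Finset.mem_range.mpr hj) r hr Y₁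
      ⟨by linarith [hY₁.1], by linarith [hY₁.2]⟩ Y₂ ⟨by linarith [hY₂.1], by linarith [hY₂.2]⟩
      (by linarith)
    rw [← mul_sub, abs_mul]
    have h5 : |A| * (ε / (4 * (1 + |A|)) * X) ≤ ε / 4 * X := by
      have h6 : |A| * (ε / (4 * (1 + |A|)) * X) = |A| / (1 + |A|) * (ε / 4 * X) := by
        field_simp
      rw [h6]
      have h7 : |A| / (1 + |A|) ≤ 1 := by
        rw [div_le_one (by positivity)]
        linarith
      calc |A| / (1 + |A|) * (ε / 4 * X) ≤ 1 * (ε / 4 * X) :=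
            mul_le_mul_of_nonneg_right h7 (by positivity)
        _ = ε / 4 * X := one_mul _
    exact (mul_le_mul_of_nonneg_left h4 (abs_nonneg A)).trans h5
  rw [h1, h2, ← sub_div, ← Finset.sum_sub_distrib, abs_div, abs_of_pos hXpos, div_le_iff₀ hXpos]
  calc |∑ r ∈ S, (A * psiR (fun p => p % 8 = r) lam Z f - A * (SO lam Z / 4 * K))|
      ≤ ∑ r ∈ S, |A * psiR (fun p => p % 8 = r) lam Z f - A * (SO lam Z / 4 * K)| :=
        Finset.abs_sum_le_sum_abs _ _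
    _ ≤ ∑ _r ∈ S, ε / 4 * X := Finset.sum_le_sum h3
    _ = (S.card : ℝ) * (ε / 4 * X) := by rw [Finset.sum_const, nsmul_eq_mul]
    _ ≤ 4 * (ε / 4 * X) := mul_le_mul_of_nonneg_right hcard (by positivity)
    _ = ε * X := by ring

end Pool.Agent.MP0016c7.PC
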