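import Mathlib
import Pool.Agent.Lib.MP_0016c7_nt.PC.A.StmA

set_option autoImplicit false

/-!
Block [A], piece A16: second moments with the sieve measure, all pairs of components.
-/

open Finset MeasureTheory Filter Topology
open scoped Real ContDiff

namespace Pool.Agent.MP0016c7.PC

open Pool.Agent.MP0016c7.Rz
open Pool.Agent.BVall (OmL)
open Pool.Agent.MP89da58 (tri cX)

/-- A sieve weight stays a sieve weight for weaker requirements. -/
private theorem a_m2s_mono {X η ε₀ ε₀' : ℝ} {A A' : ℕ} {w : ℕ → ℝ} {V : ℝ} (hX : 3 ≤ X)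
    (h1 : ε₀ ≤ ε₀') (h2 : A' ≤ A) (h : SW X η ε₀ A w V) : SW X η ε₀' A' w V where
  one := h.one
  supp := h.supp
  bd := fun m => (h.bd m).trans (Real.rpow_le_rpow_of_exponent_le (by linarith) h1)
  nn := h.nn
  pos := h.pos
  low := h.low
  dens := by
    intro N hN hN'
    refine (h.dens N hN hN').trans ?_
    have hlog : 1 ≤ Real.log X := by
      rw [Real.le_log_iff_exp_le (by linarith)]
      linarith [Real.exp_one_lt_d9]
    exact div_le_div_of_nonneg_left h.pos.le (by positivity) (pow_le_pow_right₀ hlog h2)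

/-- Finitely many requirements at the same time. -/
private theorem a_m2s_fin {α : Type*} (s : Finset α) (η : ℝ) (P : α → ℝ → (ℕ → ℝ) → ℝ → Prop)
    (h : ∀ p ∈ s, ∃ (ε₀ : ℝ) (A : ℕ) (X₀ : ℝ), 0 < ε₀ ∧ ∀ X : ℝ, X₀ ≤ X →
      ∀ (w : ℕ → ℝ) (V : ℝ), SW X η ε₀ A w V → P p X w V) :
    ∃ (ε₀ : ℝ) (A : ℕ) (X₀ : ℝ), 0 < ε₀ ∧ ∀ X : ℝ, X₀ ≤ X → ∀ (w : ℕ → ℝ) (V : ℝ),
      SW X η ε₀ A w V → ∀ p ∈ s, P p X w V := by
  classical
  induction s using Finset.induction_on with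
  | empty => exact ⟨1, 0, 0, one_pos, by simp⟩
  | insert a s ha ih =>
    obtain ⟨e1, A1, X1, he1, H1⟩ := ih (fun p hp => h p (Finset.mem_insert_of_mem hp))
    obtain ⟨e2, A2, X2, he2, H2⟩ := h a (Finset.mem_insert_self a s)
    refine ⟨min e1 e2, max A1 A2, max 3 (max X1 X2), lt_min he1 he2, ?_⟩
    intro X hX w V hSW p hp
    have hX3 : 3 ≤ X := (le_max_left _ _).trans hX
    have hX1 : X1 ≤ X := ((le_max_left _ _).trans (le_max_right _ _)).trans hX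
    have hX2 : X2 ≤ X := ((le_max_right _ _).trans (le_max_right _ _)).trans hX
    rcases Finset.mem_insert.mp hp with hpa | hp
    · rw [hpa]
      exact H2 X hX2 w V (a_m2s_mono hX3 (min_le_right _ _) (le_max_right _ _) hSW)
    · exact H1 X hX1 w V (a_m2s_mono hX3 (min_le_left _ _) (le_max_left _ _) hSW) p hp

/-- The average is homogeneous. -/
private theorem a_m2s_avW (R : ℕ → Prop) (D : ℝ) (w : ℕ → ℝ) (V : ℝ) (F : ℝ → ℝ) (X c : ℝ)
    (g : ℕ → ℝ) : avWg R D w V F X (fun d => c * g d) = c * avWg R D w V F X g := by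
  unfold avWg
  have h : ∀ d : ℕ, (@ite ℝ (R d) (Classical.dec _)
      ((∑ m ∈ d.divisors, w m) * F (d / X) * (c * g d)) 0) =
      c * (@ite ℝ (R d) (Classical.dec _) ((∑ m ∈ d.divisors, w m) * F (d / X) * g d) 0) := by
    intro d
    split_ifs
    · ring
    · ring
  rw [tsum_congr h, tsum_mul_left]
  ring

/-- [A16] Second moments with the sieve measure. -/
theorem p_A_m2s (hs : A_sumS) (hk : A_CC) : A_m2s := by
  intro hsm θ δ η hδ hδ' hη hlen R D c₀ σ hodd hD hc₀ hσ hTw F a ha hF hFi a₀ ha₀ J cs ρ q hθ hρ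
    hρi hq K ε₃ ε hε₃ hε
  have hq0 : ∀ k < J, Bump (q k) 0 θ := fun k hk => ⟨(hq k hk).smooth, fun t ht =>
    ⟨by linarith [((hq k hk).supp t ht).1], ((hq k hk).supp t ht).2⟩⟩
  have key : ∀ p ∈ (range J ×ˢ range J), ∃ (ε₀ : ℝ) (A : ℕ) (X₀ : ℝ), 0 < ε₀ ∧ ∀ X : ℝ, X₀ ≤ X →
      ∀ (w : ℕ → ℝ) (V : ℝ), SW X η ε₀ A w V →
      (∀ Y₁ ∈ Set.Icc (-1 : ℝ) (1 / 2 + δ), ∀ Y₂ ∈ Set.Icc (-1 : ℝ) (1 / 2 + δ),
        |avWg R D w V F X (fun d => ytil a₀ σ ρ (q p.1) X (c₀ * d) Y₁ *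
            ytil a₀ σ ρ (q p.2) X (c₀ * d) Y₂) -
          (∫ t, F t) * CC2 ρ ρ (q p.1) (q p.2) Y₁ Y₂| ≤
        ε / ((1 + ε₃) * D * (|K| + 1) * (1 + |cs p.1 * cs p.2|))) := by
    intro p hp
    obtain ⟨hp1, hp2⟩ := Finset.mem_product.mp hp
    rw [Finset.mem_range] at hp1 hp2
    exact hsm θ δ η hθ hδ (by linarith) hη hlen R D c₀ σ hodd hD hc₀ hσ hTw F a 2 ha hF hFi a₀ ha₀
      ρ ρ (q p.1) (q p.2) hρ hρ (hq0 _ hp1) (hq0 _ hp2) _ (by positivity)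
  obtain ⟨ε₀, A, X₀, hε₀, H⟩ := a_m2s_fin (range J ×ˢ range J) η _ key
  refine ⟨ε₀, A, hε₀, ?_⟩
  filter_upwards [eventually_ge_atTop (max X₀ 3)] with X hX
  intro w V hSW hVK i hi j hj Y₁ hY₁ Y₂ hY₂
  have hX0 : X₀ ≤ X := (le_max_left _ _).trans hX
  have hX3 : 3 ≤ X := (le_max_right _ _).trans hX
  have h1 := H X hX0 w V hSW (i, j)
    (Finset.mem_product.mpr ⟨Finset.mem_range.mpr hi, Finset.mem_range.mpr hj⟩)
    Y₁ ⟨by linarith [hY₁.1], by linarith [hY₁.2]⟩ Y₂ ⟨by linarith [hY₂.1], by linarith [hY₂.2]⟩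
  simp only at h1
  have hCC := (hk δ hδ ρ (q i) (q j) θ θ hρ hρi (hq i hi) (hq j hj)).2 Y₁ Y₂ hY₁.1 hY₂.1
  rw [hs R D F a hD ha hF w V ε₃ X hSW.pos (by linarith)]
  have h2 : avWg R D w V F X (fun d => (cs i * ytil a₀ σ ρ (q i) X (c₀ * d) Y₁) *
      (cs j * ytil a₀ σ ρ (q j) X (c₀ * d) Y₂)) =
      (cs i * cs j) * avWg R D w V F X (fun d => ytil a₀ σ ρ (q i) X (c₀ * d) Y₁ *
        ytil a₀ σ ρ (q j) X (c₀ * d) Y₂) := by
    rw [← a_m2s_avW]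
    congr 1
    funext d
    ring
  rw [h2]
  set av := avWg R D w V F X (fun d => ytil a₀ σ ρ (q i) X (c₀ * d) Y₁ *
    ytil a₀ σ ρ (q j) X (c₀ * d) Y₂) with hav
  have hlog : 0 ≤ Real.log X := Real.log_nonneg (by linarith)
  have hV : 0 ≤ V := hSW.pos.le
  have h3 : (1 + ε₃) * Real.log X * D * V * ((cs i * cs j) * av) -
      (1 + ε₃) * Real.log X * D * V * (∫ t, F t) * ((cs i * HH (q i) 0) * (cs j * HH (q j) 0) +
        (cs i * cs j * ∫ t, q i t * q j t) * Gam2 ρ ρ Y₁ Y₂) =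
      ((1 + ε₃) * D * (V * Real.log X)) * (cs i * cs j) *
        (av - (∫ t, F t) * CC2 ρ ρ (q i) (q j) Y₁ Y₂) := by
    rw [hCC]
    ring
  rw [h3, abs_mul, abs_mul, abs_of_nonneg (by positivity)]
  have h4 : V * Real.log X ≤ |K| + 1 := by linarith [le_abs_self K]
  have h5 : |cs i * cs j| ≤ 1 + |cs i * cs j| := by linarith
  calc (1 + ε₃) * D * (V * Real.log X) * |cs i * cs j| *
        |av - (∫ t, F t) * CC2 ρ ρ (q i) (q j) Y₁ Y₂|
      ≤ (1 + ε₃) * D * (|K| + 1) * (1 + |cs i * cs j|) *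
        (ε / ((1 + ε₃) * D * (|K| + 1) * (1 + |cs i * cs j|))) := by
        gcongr
    _ = ε := by
        field_simp

end Pool.Agent.MP0016c7.PC
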