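import Pool.Agent.Lib.MP_0016c7_nt.PC.A.StmA

set_option autoImplicit false

/-!
Project PrimeConductors, block [A]: the functional of a sum.
-/

open Finset MeasureTheory Filter Topology
open scoped Real ContDiff

namespace Pool.Agent.MP0016c7.PC

open Pool.Agent.MP0016c7.Rz
open Pool.Agent.BVall (OmL)
open Pool.Agent.MP89da58 (tri cX)

private lemma a_pert_pt {ξ : ℝ} (hξ : 0 < ξ) (x y : ℝ) :
    (x + y) ^ 2 ≤ (1 + ξ) * x ^ 2 + (1 + 1 / ξ) * y ^ 2 := by
  have h1 : 0 ≤ (ξ * x - y) ^ 2 / ξ := by positivity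
  have h2 : (1 + ξ) * x ^ 2 + (1 + 1 / ξ) * y ^ 2 - (x + y) ^ 2 = (ξ * x - y) ^ 2 / ξ := by
    field_simp
    ring
  linarith

private lemma a_pert_cs {V : ℝ} (hV : 0 ≤ V) {u g : ℝ → ℝ} (hu : Continuous u)
    (hg : Continuous g) :
    (∫ v in (0 : ℝ)..V, u v * g v) ^ 2 ≤
      (∫ v in (0 : ℝ)..V, u v ^ 2) * ∫ v in (0 : ℝ)..V, g v ^ 2 := by
  have iu : IntervalIntegrable (fun v => u v ^ 2) volume 0 V :=
    (hu.pow 2).intervalIntegrable _ _
  have ig : IntervalIntegrable (fun v => g v ^ 2) volume 0 V :=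
    (hg.pow 2).intervalIntegrable _ _
  have iug : IntervalIntegrable (fun v => u v * g v) volume 0 V :=
    (hu.mul hg).intervalIntegrable _ _
  set A := ∫ v in (0 : ℝ)..V, u v ^ 2 with hA
  set B := ∫ v in (0 : ℝ)..V, g v ^ 2 with hB
  set J := ∫ v in (0 : ℝ)..V, u v * g v with hJ
  have hA0 : 0 ≤ A := intervalIntegral.integral_nonneg hV fun v _ => sq_nonneg _
  have hB0 : 0 ≤ B := intervalIntegral.integral_nonneg hV fun v _ => sq_nonneg _
  have key : ∀ s t : ℝ, 0 ≤ s ^ 2 * A - 2 * (s * t) * J + t ^ 2 * B := by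
    intro s t
    have h0 : 0 ≤ ∫ v in (0 : ℝ)..V, (s * u v - t * g v) ^ 2 :=
      intervalIntegral.integral_nonneg hV fun v _ => sq_nonneg _
    have e : ∀ v, (s * u v - t * g v) ^ 2 =
        s ^ 2 * u v ^ 2 - 2 * (s * t) * (u v * g v) + t ^ 2 * g v ^ 2 := fun v => by ring
    simp_rw [e] at h0
    rw [intervalIntegral.integral_add ((iu.const_mul _).sub (iug.const_mul _)) (ig.const_mul _),
      intervalIntegral.integral_sub (iu.const_mul _) (iug.const_mul _),
      intervalIntegral.integral_const_mul, intervalIntegral.integral_const_mul,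
      intervalIntegral.integral_const_mul] at h0
    exact h0
  rcases hB0.lt_or_eq with hBp | hB00
  · have h1 := key B J
    have h2 : 0 ≤ B * (A * B - J ^ 2) := by nlinarith only [h1]
    have h3 := nonneg_of_mul_nonneg_right h2 hBp
    linarith
  · rcases hA0.lt_or_eq with hAp | hA00
    · have h1 := key J A
      have h2 : 0 ≤ A * (A * B - J ^ 2) := by nlinarith only [h1]
      have h3 := nonneg_of_mul_nonneg_right h2 hAp
      linarith
    · have h1 := key 1 J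
      rw [← hA00, ← hB00] at h1
      rw [← hA00, ← hB00]
      nlinarith only [h1]

theorem p_A_pert : A_pert := by
  intro w u₁ u₂ g₁ g₂ V hw hwp hu₁ hu₂ hg₁ hg₂ hV
  obtain ⟨W, hW⟩ := (isCompact_Icc (a := (0 : ℝ)) (b := V)).exists_bound_of_continuousOn
    hw.continuousOn
  have hW0 : 0 ≤ W := (norm_nonneg _).trans (hW 0 ⟨le_rfl, hV⟩)
  set A₁ := ∫ v in (0 : ℝ)..V, u₁ v ^ 2 with hA₁
  set A₂ := ∫ v in (0 : ℝ)..V, u₂ v ^ 2 with hA₂
  have hA₁0 : 0 ≤ A₁ := intervalIntegral.integral_nonneg hV fun v _ => sq_nonneg _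
  have hA₂0 : 0 ≤ A₂ := intervalIntegral.integral_nonneg hV fun v _ => sq_nonneg _
  refine ⟨W + g₁ * A₁ + g₂ * A₂, by positivity, fun ξ hξ f g hf hg => ?_⟩
  set G := ∫ v in (0 : ℝ)..V, g v ^ 2 with hG
  have hG0 : 0 ≤ G := intervalIntegral.integral_nonneg hV fun v _ => sq_nonneg _
  have hξ' : 0 ≤ 1 + 1 / ξ := by positivity
  have i1 : IntervalIntegrable (fun v => w v * f v ^ 2) volume 0 V :=
    (hw.mul (hf.pow 2)).intervalIntegrable _ _
  have i2 : IntervalIntegrable (fun v => w v * g v ^ 2) volume 0 V :=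
    (hw.mul (hg.pow 2)).intervalIntegrable _ _
  -- the diagonal part
  have h1 : ∫ v in (0 : ℝ)..V, w v * (f v + g v) ^ 2 ≤
      (1 + ξ) * (∫ v in (0 : ℝ)..V, w v * f v ^ 2) +
        (1 + 1 / ξ) * ∫ v in (0 : ℝ)..V, w v * g v ^ 2 := by
    rw [← intervalIntegral.integral_const_mul, ← intervalIntegral.integral_const_mul,
      ← intervalIntegral.integral_add (i1.const_mul _) (i2.const_mul _)]
    refine intervalIntegral.integral_mono_on hV
      ((hw.mul ((hf.add hg).pow 2)).intervalIntegrable _ _)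
      ((i1.const_mul _).add (i2.const_mul _)) fun v _ => ?_
    have := mul_le_mul_of_nonneg_left (a_pert_pt hξ (f v) (g v)) (hwp v).le
    linarith
  have h2 : ∫ v in (0 : ℝ)..V, w v * g v ^ 2 ≤ W * G := by
    rw [hG, ← intervalIntegral.integral_const_mul]
    refine intervalIntegral.integral_mono_on hV i2
      ((continuous_const.mul (hg.pow 2) : Continuous fun v => W * g v ^ 2).intervalIntegrable _ _)
      fun v hv => ?_
    have h3 := hW v hv
    rw [Real.norm_eq_abs] at h3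
    exact mul_le_mul_of_nonneg_right ((le_abs_self _).trans h3) (sq_nonneg _)
  -- the rank one parts
  have h3 : ∀ (u : ℝ → ℝ) (c : ℝ), Continuous u → 0 ≤ c →
      c * (∫ v in (0 : ℝ)..V, u v * (f v + g v)) ^ 2 ≤
      (1 + ξ) * (c * (∫ v in (0 : ℝ)..V, u v * f v) ^ 2) +
        (1 + 1 / ξ) * (c * (∫ v in (0 : ℝ)..V, u v ^ 2) * G) := by
    intro u c hu hc
    have e : ∫ v in (0 : ℝ)..V, u v * (f v + g v) =
        (∫ v in (0 : ℝ)..V, u v * f v) + ∫ v in (0 : ℝ)..V, u v * g v := by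
      have i3 : IntervalIntegrable (fun v => u v * f v) volume 0 V :=
        (hu.mul hf).intervalIntegrable _ _
      have i4 : IntervalIntegrable (fun v => u v * g v) volume 0 V :=
        (hu.mul hg).intervalIntegrable _ _
      rw [← intervalIntegral.integral_add i3 i4]
      refine intervalIntegral.integral_congr fun v _ => ?_
      show u v * (f v + g v) = u v * f v + u v * g v
      ring
    rw [e]
    have h4 := mul_le_mul_of_nonneg_left
      (a_pert_pt hξ (∫ v in (0 : ℝ)..V, u v * f v) (∫ v in (0 : ℝ)..V, u v * g v)) hc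
    have h5 := mul_le_mul_of_nonneg_left (mul_le_mul_of_nonneg_left (a_pert_cs hV hu hg) hc) hξ'
    rw [← hG] at h5
    calc c * ((∫ v in (0 : ℝ)..V, u v * f v) + ∫ v in (0 : ℝ)..V, u v * g v) ^ 2 ≤
        c * ((1 + ξ) * (∫ v in (0 : ℝ)..V, u v * f v) ^ 2 +
          (1 + 1 / ξ) * (∫ v in (0 : ℝ)..V, u v * g v) ^ 2) := h4
      _ = (1 + ξ) * (c * (∫ v in (0 : ℝ)..V, u v * f v) ^ 2) +
          (1 + 1 / ξ) * (c * (∫ v in (0 : ℝ)..V, u v * g v) ^ 2) := by ring
      _ ≤ _ := by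
          have e2 : (1 + 1 / ξ) * (c * (∫ v in (0 : ℝ)..V, u v ^ 2) * G) =
            (1 + 1 / ξ) * (c * ((∫ v in (0 : ℝ)..V, u v ^ 2) * G)) := by ring
          rw [e2]
          linarith
  have k1 := h3 u₁ g₁ hu₁ hg₁
  have k2 := h3 u₂ g₂ hu₂ hg₂
  have k3 := mul_le_mul_of_nonneg_left h2 hξ'
  rw [← hA₁] at k1
  rw [← hA₂] at k2
  unfold qP
  calc _ ≤ ((1 + ξ) * (∫ v in (0 : ℝ)..V, w v * f v ^ 2) + (1 + 1 / ξ) * (W * G)) +
        ((1 + ξ) * (g₁ * (∫ v in (0 : ℝ)..V, u₁ v * f v) ^ 2) + (1 + 1 / ξ) * (g₁ * A₁ * G)) +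
        ((1 + ξ) * (g₂ * (∫ v in (0 : ℝ)..V, u₂ v * f v) ^ 2) + (1 + 1 / ξ) * (g₂ * A₂ * G)) :=
        add_le_add (add_le_add (h1.trans (by linarith)) k1) k2
    _ = _ := by ring

end Pool.Agent.MP0016c7.PC
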