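import Pool.Agent.Lib.MP_0016c7_nt.PC.A.StmA

set_option autoImplicit false

/-!
Project PrimeConductors, block [A]: the profile.
-/

open Finset MeasureTheory Filter Topology
open scoped Real ContDiff

namespace Pool.Agent.MP0016c7.PC

open Pool.Agent.MP0016c7.Rz

private noncomputable def a_prof_P (t : ℝ) : ℝ := t / 2 + t ^ 2 / 2

private noncomputable def a_prof_cl (a b x : ℝ) : ℝ := max (min (max x 0) b) a

private theorem a_prof_P_mono {s t : ℝ} (hs : 0 ≤ s) (hst : s ≤ t) : a_prof_P s ≤ a_prof_P t := by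
  unfold a_prof_P
  nlinarith

private theorem a_prof_cl_mono (a b : ℝ) {x y : ℝ} (h : x ≤ y) : a_prof_cl a b x ≤ a_prof_cl a b y := by
  unfold a_prof_cl
  exact max_le_max (min_le_min (max_le_max h le_rfl) le_rfl) le_rfl

private theorem a_prof_eq (a b x : ℝ) (ha : 0 ≤ a) (hab : a ≤ b) :
    Hid b x - Hid a x = a_prof_P b - a_prof_P (a_prof_cl a b x) := by
  unfold Hid a_prof_cl
  by_cases h1 : b ≤ x
  · have h2 : a ≤ x := hab.trans h1
    rw [if_pos h1, if_pos h2, max_eq_left (ha.trans h2), min_eq_right h1, max_eq_left hab]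
    ring
  · by_cases h2 : a ≤ x
    · rw [if_neg h1, if_pos h2, max_eq_left (ha.trans h2), min_eq_left (by linarith), max_eq_left h2]
      unfold a_prof_P
      ring
    · have h3 : max x 0 ≤ a := max_le (by linarith) ha
      rw [if_neg h1, if_neg h2, min_eq_left (h3.trans hab), max_eq_right h3]
      unfold a_prof_P
      ring

private theorem a_prof_nonneg (a b x : ℝ) (ha : 0 ≤ a) (hab : a ≤ b) : 0 ≤ Hid b x - Hid a x := by
  rw [a_prof_eq a b x ha hab, sub_nonneg]
  refine a_prof_P_mono (ha.trans (le_max_right _ _)) ?_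
  unfold a_prof_cl
  exact max_le (min_le_right _ _) hab

private theorem a_prof_anti (a b : ℝ) (ha : 0 ≤ a) (hab : a ≤ b) {x y : ℝ} (h : x ≤ y) :
    Hid b y - Hid a y ≤ Hid b x - Hid a x := by
  rw [a_prof_eq a b x ha hab, a_prof_eq a b y ha hab]
  have h1 : 0 ≤ a_prof_cl a b x := ha.trans (le_max_right (min (max x 0) b) a)
  have := a_prof_P_mono h1 (a_prof_cl_mono a b h)
  linarith

private theorem a_prof_cont (a b : ℝ) (ha : 0 ≤ a) (hab : a ≤ b) :
    Continuous (fun x => Hid b x - Hid a x) := by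
  have : (fun x => Hid b x - Hid a x) = fun x => a_prof_P b - a_prof_P (a_prof_cl a b x) := by
    funext x
    exact a_prof_eq a b x ha hab
  rw [this]
  unfold a_prof_P a_prof_cl
  fun_prop

private theorem a_prof_zero (a b x : ℝ) (hab : a ≤ b) (h : b ≤ x) : Hid b x - Hid a x = 0 := by
  unfold Hid
  rw [if_pos h, if_pos (hab.trans h), sub_zero]

private theorem a_prof_ws {J : ℕ} {ws : ℕ → ℝ} {δ : ℝ} (hδ : 0 < δ) (h0 : 0 < ws 0)
    (hws : ∀ k, k + 1 < J → ws k + δ ≤ ws (k + 1)) : ∀ k < J, 0 < ws k := by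
  intro k
  induction k with
  | zero => intro _; exact h0
  | succ k ih =>
    intro hk
    have h1 := ih (by omega)
    have h2 := hws k hk
    linarith

private theorem a_prof_wp {J : ℕ} {ws : ℕ → ℝ} {δ : ℝ} (hδ : 0 < δ) (h0 : 0 < ws 0)
    (hws : ∀ k, k + 1 < J → ws k + δ ≤ ws (k + 1)) : ∀ k < J, 0 ≤ wp ws k ∧ wp ws k ≤ ws k := by
  intro k hk
  unfold wp
  rcases Nat.eq_zero_or_pos k with rfl | hk0
  · simp only [if_true]
    exact ⟨le_rfl, h0.le⟩
  · rw [if_neg (by omega)]
    obtain ⟨j, rfl⟩ : ∃ j, k = j + 1 := ⟨k - 1, by omega⟩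
    have h1 := a_prof_ws hδ h0 hws j (by omega)
    have h2 := hws j hk
    rw [Nat.add_sub_cancel]
    exact ⟨h1.le, by linarith⟩

private theorem a_prof_last {J : ℕ} {ws : ℕ → ℝ} {δ : ℝ} (hδ : 0 < δ)
    (hws : ∀ k, k + 1 < J → ws k + δ ≤ ws (k + 1)) {k : ℕ} (hk : k < J) : ws k ≤ ws (J - 1) := by
  have key : ∀ n, k + n < J → ws k ≤ ws (k + n) := by
    intro n
    induction n with
    | zero => intro _; exact le_rfl
    | succ n ih =>
      intro h
      have h1 := ih (by omega)
      have h2 := hws (k + n) (by omega)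
      have e : k + (n + 1) = k + n + 1 := by omega
      rw [e]
      linarith
  have h1 := key (J - 1 - k) (by omega)
  have e : k + (J - 1 - k) = J - 1 := by omega
  rwa [e] at h1

private theorem a_prof_int {F : ℝ → ℝ} {a b : ℝ} (hF : Bump F a b) : Integrable F := by
  refine hF.smooth.continuous.integrable_of_hasCompactSupport ?_
  refine HasCompactSupport.intro (K := Set.Icc a b) isCompact_Icc fun x hx => ?_
  by_contra h
  have h1 := hF.supp x h
  exact hx ⟨h1.1.le, h1.2.le⟩

theorem p_A_prof : A_prof := by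
  intro J ws cs δ hJ hδ h0 hws hcs
  have hwp := a_prof_wp hδ h0 hws
  refine ⟨⟨?_, ?_, ?_, ?_⟩, ?_⟩
  · intro x
    unfold HJ
    refine Finset.sum_nonneg fun k hk => ?_
    rw [mem_range] at hk
    exact mul_nonneg (hcs k hk) (a_prof_nonneg _ _ _ (hwp k hk).1 (hwp k hk).2)
  · intro x y hxy
    unfold HJ
    refine Finset.sum_le_sum fun k hk => ?_
    rw [mem_range] at hk
    exact mul_le_mul_of_nonneg_left (a_prof_anti _ _ (hwp k hk).1 (hwp k hk).2 hxy) (hcs k hk)
  · unfold HJ
    refine continuous_finsetSum _ fun k hk => ?_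
    rw [mem_range] at hk
    exact continuous_const.mul (a_prof_cont _ _ (hwp k hk).1 (hwp k hk).2)
  · intro x hx
    unfold HJ
    refine Finset.sum_eq_zero fun k hk => ?_
    rw [mem_range] at hk
    have : HS ws k x = 0 := a_prof_zero _ _ _ (hwp k hk).2 ((a_prof_last hδ hws hk).trans hx)
    rw [this, mul_zero]
  · intro q hq
    refine ⟨⟨?_, ?_⟩, ?_, ?_⟩
    · refine ContDiff.sum fun k hk => ?_
      rw [mem_range] at hk
      exact contDiff_const.mul (hq k hk).1.smooth
    · intro t ht
      obtain ⟨k, hk, hk2⟩ := Finset.exists_ne_zero_of_sum_ne_zero ht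
      rw [mem_range] at hk
      have h1 := (hq k hk).1.supp t (right_ne_zero_of_mul hk2)
      have h2 := a_prof_last hδ hws hk
      exact ⟨h1.1, by linarith [h1.2]⟩
    · intro t
      refine Finset.sum_nonneg fun k hk => ?_
      rw [mem_range] at hk
      exact mul_nonneg (hcs k hk) ((hq k hk).2.1 t)
    · intro t
      have h1 : HH (fun t => ∑ k ∈ range J, cs k * q k t) t = ∑ k ∈ range J, cs k * HH (q k) t := by
        unfold HH
        rw [integral_finsetSum]
        · refine Finset.sum_congr rfl fun k _ => ?_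
          rw [integral_const_mul]
        · intro k hk
          rw [mem_range] at hk
          exact ((a_prof_int (hq k hk).1).const_mul _).integrableOn
      rw [h1]
      unfold HJ
      refine Finset.sum_le_sum fun k hk => ?_
      rw [mem_range] at hk
      exact mul_le_mul_of_nonneg_left ((hq k hk).2.2 t) (hcs k hk)

end Pool.Agent.MP0016c7.PC
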