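import Pool.Agent.Lib.MP_0016c7_nt.PC.A.StmA

set_option autoImplicit false

open Finset MeasureTheory Filter Topology
open scoped Real ContDiff

namespace Pool.Agent.MP0016c7.PC

open Pool.Agent.MP0016c7.Rz
open Pool.Agent.BVall (OmL)
open Pool.Agent.MP89da58 (tri cX)

private lemma a_sump_nonneg (lam : ℝ) {Z : ℝ} (hZ : 0 ≤ Z) (n : ℕ) : 0 ≤ OmL lam Z n :=
  mul_nonneg (Real.rpow_nonneg (div_nonneg hZ (Nat.cast_nonneg n)) _) (le_max_left _ _)

private lemma a_sump_om {lam X : ℝ} (hlam : 3 ≤ lam) (hX : Real.exp 1 ≤ X) {n : ℕ} (hn : 0 < n)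
    (h : OmL lam (X * Real.exp (1 / lam)) n ≠ 0) :
    X < n ∧ (n : ℝ) ≤ 2 * X ∧ OmL lam (X * Real.exp (1 / lam)) n ≤ 3 := by
  have hlam0 : 0 < lam := by linarith
  have hX0 : 0 < X := lt_of_lt_of_le (Real.exp_pos 1) hX
  have hn0 : (0 : ℝ) < n := by exact_mod_cast hn
  obtain ⟨Z, hZ⟩ : ∃ Z, Z = X * Real.exp (1 / lam) := ⟨_, rfl⟩
  rw [← hZ] at h ⊢
  have hl1 : 0 < 1 / lam := by positivity
  have hl3 : 1 / lam ≤ 1 / 3 := one_div_le_one_div_of_le (by norm_num) hlam
  have hZX : X ≤ Z := by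
    rw [hZ]
    have h1 : (1 : ℝ) ≤ Real.exp (1 / lam) := Real.one_le_exp hl1.le
    nlinarith
  have hZ0 : 0 < Z := lt_of_lt_of_le hX0 hZX
  have hlZ : 1 ≤ Real.log Z := by
    rw [Real.le_log_iff_exp_le hZ0]
    exact hX.trans hZX
  have he : Real.exp (2 / 3) ≤ 2 := by
    rw [← Real.le_log_iff_exp_le (by norm_num)]
    linarith [Real.log_two_gt_d9]
  have htri : tri (lam * Real.log (n / Z)) ≠ 0 := by
    intro h0
    apply h
    unfold OmL
    rw [h0, mul_zero]
  have hlt : |lam * Real.log (n / Z)| < 1 := by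
    by_contra hge
    push Not at hge
    apply htri
    unfold tri
    exact max_eq_left (by linarith)
  obtain ⟨u, hu⟩ : ∃ u, u = Real.log (n / Z) := ⟨_, rfl⟩
  rw [← hu] at hlt
  have hu1 : |u| < 1 / lam := by
    rw [abs_mul, abs_of_pos hlam0] at hlt
    rw [lt_div_iff₀ hlam0]
    linarith [mul_comm lam |u|]
  obtain ⟨hu2, hu3⟩ := abs_lt.mp hu1
  have hnZ : (n : ℝ) = Z * Real.exp u := by
    rw [hu, Real.exp_log (by positivity)]
    field_simp
  have hlow : X < n := by
    have h1 : X = Z * Real.exp (-(1 / lam)) := by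
      rw [hZ, mul_assoc, ← Real.exp_add]; simp
    rw [hnZ]
    calc X = Z * Real.exp (-(1 / lam)) := h1
      _ < Z * Real.exp u := mul_lt_mul_of_pos_left (Real.exp_lt_exp.mpr hu2) hZ0
  have hup : (n : ℝ) ≤ 2 * X := by
    rw [hnZ]
    calc Z * Real.exp u ≤ Z * Real.exp (1 / lam) :=
          mul_le_mul_of_nonneg_left (Real.exp_le_exp.mpr hu3.le) hZ0.le
      _ = X * Real.exp (1 / lam + 1 / lam) := by rw [hZ, mul_assoc, ← Real.exp_add]
      _ ≤ X * 2 := by
          apply mul_le_mul_of_nonneg_left _ hX0.le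
          refine le_trans (Real.exp_le_exp.mpr ?_) he
          linarith
      _ = 2 * X := by ring
  refine ⟨hlow, hup, ?_⟩
  have hc : 0 ≤ cX Z ∧ cX Z ≤ 2 := by
    unfold cX
    have h1 : 0 ≤ 1 / Real.log Z := by positivity
    have h2 : 1 / Real.log Z ≤ 1 := by
      rw [div_le_one (by linarith)]; exact hlZ
    constructor <;> linarith
  have h1 : (Z / n) ^ cX Z ≤ 2 := by
    have h2 : Z / n ≤ Real.exp (1 / lam) := by
      rw [div_le_iff₀ hn0]
      have : Z = X * Real.exp (1 / lam) := hZ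
      rw [this, mul_comm]
      exact mul_le_mul_of_nonneg_left hlow.le (Real.exp_pos _).le
    calc (Z / n) ^ cX Z ≤ (Real.exp (1 / lam)) ^ cX Z :=
          Real.rpow_le_rpow (by positivity) h2 hc.1
      _ = Real.exp (1 / lam * cX Z) := by rw [Real.exp_mul]
      _ ≤ Real.exp (2 / 3) := by
          apply Real.exp_le_exp.mpr
          nlinarith [hc.1, hc.2]
      _ ≤ 2 := he
  have h2 : tri (lam * Real.log (n / Z)) ≤ 1 := by
    unfold tri
    apply max_le (by norm_num)
    linarith [abs_nonneg (lam * Real.log (n / Z))]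
  have h3 : 0 ≤ tri (lam * Real.log (n / Z)) := le_max_left _ _
  have h4 : 0 ≤ (Z / n : ℝ) ^ cX Z := Real.rpow_nonneg (by positivity) _
  unfold OmL
  nlinarith

private lemma a_sump_psiR (R : ℕ → Prop) (lam Z : ℝ) (g : ℕ → ℝ) :
    psiR R lam Z g = ∑ p ∈ Icc 1 ⌊3 * Z⌋₊, @ite ℝ (p.Prime ∧ R p) (Classical.dec _)
      (Real.log p * OmL lam Z p * g p) 0 := by
  unfold psiR
  rw [Finset.sum_filter]
  refine Finset.sum_congr rfl (fun p _ => ?_)
  by_cases h : p.Prime ∧ R p
  · rw [if_pos h, if_pos h]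
  · rw [if_neg h, if_neg h]

theorem p_A_sumP : A_sumP := by
  classical
  intro R lam hlam
  filter_upwards [eventually_ge_atTop (Real.exp 1)] with X hX
  have hX0 : 0 < X := lt_of_lt_of_le (Real.exp_pos 1) hX
  have hZ0 : 0 < X * Real.exp (1 / lam) := by positivity
  have hX1 : 1 ≤ X := by
    have := Real.add_one_le_exp (1 : ℝ)
    linarith
  have hall : ∀ d : ℕ, 0 ≤ cfP R lam X d ∧ cfP R lam X d ≤ 3 * Real.log (2 * X) / X ∧
      (cfP R lam X d ≠ 0 → d.Prime ∧ R d ∧ X < d ∧ (d : ℝ) ≤ 2 * X) := by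
    intro d
    by_cases hd : d.Prime ∧ R d
    · have hcf : cfP R lam X d = Real.log d * OmL lam (X * Real.exp (1 / lam)) d / X := by
        unfold cfP
        rw [if_pos hd]
      have hlog : 0 ≤ Real.log d := Real.log_natCast_nonneg d
      have hom := a_sump_nonneg lam hZ0.le d
      refine ⟨?_, ?_, ?_⟩
      · rw [hcf]; positivity
      · rw [hcf]
        by_cases h0 : OmL lam (X * Real.exp (1 / lam)) d = 0
        · rw [h0, mul_zero, zero_div]
          have : 0 ≤ Real.log (2 * X) := Real.log_nonneg (by linarith)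
          positivity
        · obtain ⟨h1, h2, h3⟩ := a_sump_om hlam hX hd.1.pos h0
          apply div_le_div_of_nonneg_right _ hX0.le
          have hd0 : (0 : ℝ) < d := by exact_mod_cast hd.1.pos
          have h4 : Real.log d ≤ Real.log (2 * X) := Real.log_le_log hd0 h2
          have h5 : 0 ≤ Real.log (2 * X) := hlog.trans h4
          calc Real.log d * OmL lam (X * Real.exp (1 / lam)) d
              ≤ Real.log (2 * X) * 3 := mul_le_mul h4 h3 hom h5
            _ = 3 * Real.log (2 * X) := by ring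
      · intro h
        rw [hcf] at h
        have h0 : OmL lam (X * Real.exp (1 / lam)) d ≠ 0 := by
          intro h0
          apply h
          rw [h0, mul_zero, zero_div]
        obtain ⟨h1, h2, h3⟩ := a_sump_om hlam hX hd.1.pos h0
        exact ⟨hd.1, hd.2, h1, h2⟩
    · have hcf : cfP R lam X d = 0 := by
        unfold cfP
        rw [if_neg hd]
      rw [hcf]
      refine ⟨le_rfl, ?_, fun h => absurd rfl h⟩
      have : 0 ≤ Real.log (2 * X) := Real.log_nonneg (by linarith)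
      positivity
  refine ⟨hall, fun g => ?_⟩
  have hsub : ⌊2 * X⌋₊ ≤ ⌊3 * (X * Real.exp (1 / lam))⌋₊ := by
    apply Nat.floor_le_floor
    have h1 : (1 : ℝ) ≤ Real.exp (1 / lam) := Real.one_le_exp (by positivity)
    nlinarith
  have e1 : ∑ d ∈ SX R X, cfP R lam X d * g d
      = ∑ d ∈ Icc 1 ⌊3 * (X * Real.exp (1 / lam))⌋₊, cfP R lam X d * g d := by
    apply Finset.sum_subset
    · intro p hp
      unfold SX at hp
      rw [Finset.mem_filter, Finset.mem_Icc] at hp
      exact Finset.mem_Icc.mpr ⟨hp.1.1, hp.1.2.trans hsub⟩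
    · intro p _ hp2
      by_cases h0 : cfP R lam X p = 0
      · rw [h0, zero_mul]
      · exfalso
        obtain ⟨h1, h2, h3, h4⟩ := (hall p).2.2 h0
        apply hp2
        unfold SX
        rw [Finset.mem_filter, Finset.mem_Icc]
        exact ⟨⟨h1.one_lt.le, Nat.le_floor h4⟩, h2⟩
  rw [e1, a_sump_psiR, Finset.sum_div]
  refine Finset.sum_congr rfl (fun p _ => ?_)
  unfold cfP
  by_cases hp : p.Prime ∧ R p
  · rw [if_pos hp, if_pos hp]; ring
  · rw [if_neg hp, if_neg hp]; ring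

theorem p_A_cl : A_cl := by
  classical
  intro R D S hS lam Z g
  simp only [a_sump_psiR]
  rw [Finset.sum_comm]
  refine Finset.sum_congr rfl (fun p _ => ?_)
  by_cases hp : p.Prime
  · have hR := hS.2.2.2 p hp
    have h1 : ∀ r ∈ S, @ite ℝ (p.Prime ∧ p % 8 = r) (Classical.dec _)
        (Real.log p * OmL lam Z p * g p) 0
        = if p % 8 = r then Real.log p * OmL lam Z p * g p else 0 := by
      intro r _
      by_cases hr : p % 8 = r
      · rw [if_pos ⟨hp, hr⟩, if_pos hr]
      · rw [if_neg (fun h => hr h.2), if_neg hr]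
    rw [Finset.sum_congr rfl h1, Finset.sum_ite_eq]
    by_cases hm : p % 8 ∈ S
    · rw [if_pos ⟨hp, hR.mpr hm⟩, if_pos hm]
    · rw [if_neg (fun h => hm (hR.mp h.2)), if_neg hm]
  · rw [if_neg (fun h => hp h.1)]
    symm
    apply Finset.sum_eq_zero
    intro r _
    rw [if_neg (fun h => hp h.1)]

end Pool.Agent.MP0016c7.PC
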