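import Pool.Agent.Lib.MP_0016c7_nt.PC.A.StmA
import Pool.Agent.Lib.MP_0016c7_nt.Rz.TestR

set_option autoImplicit false

/-!
Project PrimeConductors, block [A]: a smooth majorant of the triangle function.
-/

open Finset MeasureTheory Filter Topology
open scoped Real ContDiff Convolution

namespace Pool.Agent.MP0016c7.PC

open Pool.Agent.MP0016c7.Rz
open Pool.Agent.BVall (OmL)
open Pool.Agent.MP89da58 (tri cX)

/-- the larger triangle -/
private noncomputable def a_tri_T (c x : ℝ) : ℝ := max 0 (c - |x|)

private theorem a_tri_T_nonneg (c x : ℝ) : 0 ≤ a_tri_T c x := le_max_left _ _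

private theorem a_tri_T_le (c x : ℝ) (hc : 0 ≤ c) : a_tri_T c x ≤ c := by
  unfold a_tri_T
  exact max_le hc (by linarith [abs_nonneg x])

private theorem a_tri_T_cont (c : ℝ) : Continuous (a_tri_T c) := by
  unfold a_tri_T
  fun_prop

private theorem a_tri_T_supp (c x : ℝ) (h : a_tri_T c x ≠ 0) : |x| < c := by
  by_contra hcon
  push Not at hcon
  exact h (max_eq_left (by linarith))

private theorem a_tri_T_int (c : ℝ) : Integrable (a_tri_T c) := by
  refine (a_tri_T_cont c).integrable_of_hasCompactSupport ?_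
  refine HasCompactSupport.intro (K := Set.Icc (-c) c) isCompact_Icc fun x hx => ?_
  by_contra h
  have h1 := abs_lt.1 (a_tri_T_supp c x h)
  exact hx ⟨h1.1.le, h1.2.le⟩

private theorem a_tri_T_integral (c : ℝ) (hc : 0 < c) : ∫ x, a_tri_T c x = c ^ 2 := by
  have h1 : ∫ x in (-c)..c, a_tri_T c x = ∫ x, a_tri_T c x := by
    apply intervalIntegral.integral_eq_integral_of_support_subset
    intro x hx
    have h2 := abs_lt.1 (a_tri_T_supp c x hx)
    exact ⟨h2.1, h2.2.le⟩
  rw [← h1, ← intervalIntegral.integral_add_adjacent_intervals (b := 0)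
    ((a_tri_T_cont c).intervalIntegrable _ _) ((a_tri_T_cont c).intervalIntegrable _ _)]
  have h2 : ∫ x in (-c)..0, a_tri_T c x = ∫ x in (-c)..0, (c + x) := by
    apply intervalIntegral.integral_congr
    intro x hx
    rw [Set.uIcc_of_le (by linarith)] at hx
    unfold a_tri_T
    rw [abs_of_nonpos hx.2, max_eq_right (by linarith [hx.1])]
    ring
  have h3 : ∫ x in (0 : ℝ)..c, a_tri_T c x = ∫ x in (0 : ℝ)..c, (c - x) := by
    apply intervalIntegral.integral_congr
    intro x hx
    rw [Set.uIcc_of_le (by linarith)] at hx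
    unfold a_tri_T
    rw [abs_of_nonneg hx.1, max_eq_right (by linarith [hx.2])]
  rw [h2, h3, intervalIntegral.integral_add (by simp) (by simp),
    intervalIntegral.integral_sub (by simp) (by simp)]
  simp only [intervalIntegral.integral_const, integral_id, smul_eq_mul]
  ring

theorem p_A_tri : A_tri := by
  intro ε hε
  set e : ℝ := min ε 1 / 4 with he
  have he0 : 0 < e := by positivity
  have he1 : 4 * e ≤ ε := by rw [he]; linarith [min_le_left ε 1]
  have he2 : 4 * e ≤ 1 := by rw [he]; linarith [min_le_right ε 1]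
  obtain ⟨φ, hφb, φ0, -, φ1⟩ := exists_rho (2 * e) (by positivity)
  have φsupp : ∀ u, φ u ≠ 0 → |u| < e := by
    intro u hu
    have := hφb.supp u hu
    rw [abs_lt]
    constructor <;> linarith [this.1, this.2]
  have φs : HasCompactSupport φ := by
    refine HasCompactSupport.intro (K := Set.Icc (-e) e) isCompact_Icc fun x hx => ?_
    by_contra h
    have h1 := abs_lt.1 (φsupp x h)
    exact hx ⟨h1.1.le, h1.2.le⟩
  have φi : Integrable φ := hφb.smooth.continuous.integrable_of_hasCompactSupport φs
  have Ti := a_tri_T_int (1 + e)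
  set G : ℝ → ℝ := φ ⋆[ContinuousLinearMap.lsmul ℝ ℝ, volume] a_tri_T (1 + e) with hG
  have hdef : ∀ t, G t = ∫ u, φ u * a_tri_T (1 + e) (t - u) := fun t => rfl
  have i1 : ∀ t, Integrable (fun u => φ u * a_tri_T (1 + e) (t - u)) := by
    intro t
    refine (φi.mul_const (1 + e)).mono' (φi.aestronglyMeasurable.mul
      ((a_tri_T_cont (1 + e)).comp (continuous_const.sub continuous_id)).aestronglyMeasurable)
      (Eventually.of_forall fun u => ?_)
    rw [norm_mul, Real.norm_eq_abs, Real.norm_eq_abs, abs_of_nonneg (φ0 u),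
      abs_of_nonneg (a_tri_T_nonneg _ _)]
    exact mul_le_mul_of_nonneg_left (a_tri_T_le _ _ (by linarith)) (φ0 u)
  have φu1 : ∀ C : ℝ, ∫ u, φ u * C = C := fun C => by rw [integral_mul_const, φ1, one_mul]
  refine ⟨G, ⟨?_, ?_⟩, ?_, ?_, ?_⟩
  · exact φs.contDiff_convolution_left (ContinuousLinearMap.lsmul ℝ ℝ) hφb.smooth
      Ti.locallyIntegrable
  · intro t ht
    by_contra hcon
    apply ht
    rw [hdef]
    have : (fun u => φ u * a_tri_T (1 + e) (t - u)) = fun _ => 0 := by
      funext u
      by_cases hu : φ u = 0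
      · rw [hu, zero_mul]
      · have h1 := abs_lt.1 (φsupp u hu)
        by_cases hT : a_tri_T (1 + e) (t - u) = 0
        · rw [hT, mul_zero]
        · have h2 := abs_lt.1 (a_tri_T_supp _ _ hT)
          exfalso
          apply hcon
          constructor <;> linarith [h1.1, h1.2, h2.1, h2.2]
    rw [this, integral_zero]
  · intro t
    rw [hdef]
    exact integral_nonneg fun u => mul_nonneg (φ0 u) (a_tri_T_nonneg _ _)
  · intro t
    rw [hdef, ← φu1 (tri t)]
    refine integral_mono (φi.mul_const _) (i1 t) fun u => ?_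
    simp only
    by_cases hu : φ u = 0
    · rw [hu, zero_mul, zero_mul]
    · apply mul_le_mul_of_nonneg_left _ (φ0 u)
      have h1 := φsupp u hu
      have h2 : |t - u| ≤ |t| + |u| := abs_sub t u
      unfold tri a_tri_T
      exact max_le_max le_rfl (by linarith)
  · have hint := integral_convolution (μ := volume) (ν := volume)
      (ContinuousLinearMap.lsmul ℝ ℝ) φi Ti
    rw [φ1, a_tri_T_integral (1 + e) (by linarith)] at hint
    have : ∫ x, G x = (1 + e) ^ 2 := by
      rw [hG, hint]
      simp
    rw [this]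
    nlinarith

end Pool.Agent.MP0016c7.PC
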