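import Mathlib
import Pool.Agent.Lib.MP_0016c7_nt.Rz.Ker4
import Pool.Agent.Lib.MP_0016c7_nt.Rz.Ker5
import Pool.Agent.Lib.MP_0016c7_nt.PC.A.StmA

set_option autoImplicit false

/-!
Project PrimeConductors, block [A]: the moment data of one window.
-/

open Finset MeasureTheory Filter Topology
open scoped Real ContDiff

namespace Pool.Agent.MP0016c7.PC

open Pool.Agent.MP0016c7.Rz
open Pool.Agent.BVall (OmL)

private lemma mdx_ws_le {J : ℕ} {ws : ℕ → ℝ} {δ : ℝ} (hδ : 0 < δ)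
    (hws : ∀ k, k + 1 < J → ws k + δ ≤ ws (k + 1)) :
    ∀ l : ℕ, l < J → ∀ k : ℕ, k ≤ l → ws k ≤ ws l := by
  intro l
  induction l with
  | zero => intro _ k hk; rw [Nat.le_zero.1 hk]
  | succ l ih =>
    intro hl k hk
    rcases Nat.eq_or_lt_of_le hk with h | h
    · rw [h]
    · have h1 := ih (by omega) k (by omega)
      have h2 := hws l hl
      linarith

/-- a small parameter -/
private lemma mdx_r {κ η : ℝ} (hη : 0 < η) (h : 2 / η < κ) :
    ∃ r : ℝ, 0 < r ∧ r ≤ 1 ∧ (1 + r) ^ 4 * (2 / η) ≤ κ := by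
  have h2 : 0 < 2 / η := by positivity
  set s : ℝ := κ / (2 / η) - 1 with hs
  have hs0 : 0 < s := by
    rw [hs]
    have : 1 < κ / (2 / η) := (one_lt_div h2).2 h
    linarith
  refine ⟨min 1 (s / 15), lt_min one_pos (by positivity), min_le_left _ _, ?_⟩
  set r := min 1 (s / 15) with hr
  have hr0 : 0 < r := lt_min one_pos (by positivity)
  have hr1 : r ≤ 1 := min_le_left _ _
  have hr2 : r ≤ s / 15 := min_le_right _ _
  have h3 : (1 + r) ^ 4 ≤ 1 + 15 * r := by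
    have h4 : r ^ 2 ≤ r := by nlinarith
    have h5 : r ^ 3 ≤ r := by nlinarith
    have h6 : r ^ 4 ≤ r := by nlinarith [sq_nonneg r]
    nlinarith
  have h7 : (1 + r) ^ 4 ≤ κ / (2 / η) := by
    have : κ / (2 / η) = 1 + s := by rw [hs]; ring
    linarith
  calc (1 + r) ^ 4 * (2 / η) ≤ κ / (2 / η) * (2 / η) := mul_le_mul_of_nonneg_right h7 h2.le
    _ = κ := div_mul_cancel₀ _ h2.ne'

theorem p_A_MD (hSO : A_SO) (hFx : A_F) (hdom : A_dom) (hCC : A_CC) (hm0 : A_m0) (hm1 : A_m1)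
    (hm2 : A_m2) (hm2s : A_m2s) : A_MD := by
  intro h1 h2 h3 h4 h5 δ κ J ws cs hJ hδ hδ' hws₀ hws hκ hlen R D c₀ σ hodd hD hc₀ hσ hTw hP a₀
    ha₀ ρ q hρ hρ1 hq lam hlam
  obtain ⟨S, hS⟩ := hP
  have hlam0 : 0 < lam := by linarith
  set m : ℝ := Real.exp (1 / lam) / lam with hm
  have hm0' : 0 < m := by positivity
  have hκ0 : 0 < κ := by linarith
  have h2κ : 0 < 2 / κ := by positivity
  have hwsle := mdx_ws_le hδ hws
  have hwsJ0 : 0 < ws (J - 1) := lt_of_lt_of_le hws₀ (hwsle (J - 1) (by omega) 0 (Nat.zero_le _))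
  have hwsk : ∀ k < J, 0 < ws k ∧ ws k + 10 * δ ≤ 1 / 2 := fun k hk =>
    ⟨lt_of_lt_of_le hws₀ (hwsle k hk 0 (Nat.zero_le _)),
      by linarith [hwsle (J - 1) (by omega) k (by omega)]⟩
  set η : ℝ := 2 / κ + 4 * δ with hη
  have hη0 : 0 < η := by positivity
  have hη2 : 2 / η < κ := by
    rw [div_lt_iff₀ hη0, hη]
    have : κ * (2 / κ + 4 * δ) = 2 + κ * (4 * δ) := by field_simp
    rw [this]
    have : 0 < κ * (4 * δ) := by positivity
    linarith
  have hηh : η < 1 / 2 := by rw [hη]; linarith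
  obtain ⟨r, hr0, hr1, hrκ⟩ := mdx_r hη0 hη2
  obtain ⟨F, a, ha, hF, hFn, hFp, hFle, hFd⟩ := hFx lam hlam r hr0
  set θ : ℝ := ws (J - 1) + 3 * δ with hθ
  have hθ0 : 0 < θ := by positivity
  have hθη : θ + 3 * δ + η < 1 / 2 := by rw [hθ, hη]; linarith
  have hqB : ∀ k < J, Bump (q k) (2 * δ) θ := fun k hk =>
    ⟨(hq k hk).1.smooth, fun t ht => ⟨((hq k hk).1.supp t ht).1,
      by rw [hθ]; linarith [((hq k hk).1.supp t ht).2, hwsle (J - 1) (by omega) k (by omega)]⟩⟩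
  have hqB0 : ∀ k < J, Bump (q k) 0 θ := fun k hk =>
    ⟨(hq k hk).1.smooth, fun t ht => ⟨by linarith [((hqB k hk).supp t ht).1],
      ((hqB k hk).supp t ht).2⟩⟩
  set κ₀ : ℝ := 4 / η * (1 + r) with hκ₀
  have h4η : 0 < 4 / η := by positivity
  have hκ₀lt : 4 / η < κ₀ := by rw [hκ₀]; nlinarith
  have hκ₀0 : 0 < κ₀ := by linarith
  refine ⟨4 * D * m, D * m, by positivity, fun ε₁ ε₂ hε₁ hε₂ => ?_⟩
  obtain ⟨ε₀, A, hε₀, hs2⟩ := hm2s h2 θ δ η hδ hδ' hη0 hθη R D c₀ σ hodd hD hc₀ hσ hTw F a ha hF hFp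
    a₀ ha₀ J cs ρ q hθ0 hρ hρ1 hqB κ₀ r ε₁ hr0.le hε₁
  obtain ⟨X₁, hX₁⟩ := h1 η hη0 hηh ε₀ hε₀ A κ₀ hκ₀lt
  -- the mass
  have hIX : ∀ᶠ X : ℝ in atTop, 2 * D * m / (1 + r) ≤ IX D lam X ∧ D * m ≤ IX D lam X ∧
      IX D lam X ≤ 4 * D * m := by
    set e : ℝ := min (1 / (2 * lam)) (r / (2 * lam)) with he
    have he0 : 0 < e := lt_min (by positivity) (by positivity)
    have hZ : Tendsto (fun X : ℝ => X * Real.exp (1 / lam)) atTop atTop :=
      tendsto_id.atTop_mul_const (Real.exp_pos _)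
    filter_upwards [hZ.eventually (hSO lam (by linarith) e he0), eventually_gt_atTop 0] with X hX hX0
    have hE := Real.exp_pos (1 / lam)
    have e1 : IX D lam X = 2 * D * Real.exp (1 / lam) *
        (SO lam (X * Real.exp (1 / lam)) / (X * Real.exp (1 / lam))) := by
      unfold IX
      field_simp
    rw [e1]
    set x := SO lam (X * Real.exp (1 / lam)) / (X * Real.exp (1 / lam)) with hx
    rw [abs_le] at hX
    have e2 : e ≤ 1 / (2 * lam) := min_le_left _ _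
    have e3 : e ≤ r / (2 * lam) := min_le_right _ _
    have e4 : (1 : ℝ) / (2 * lam) = 1 / lam / 2 := by field_simp
    have e5 : r / (2 * lam) = r / 2 * (1 / lam) := by field_simp
    have hl : 0 < 1 / lam := by positivity
    have hDE : 0 < 2 * D * Real.exp (1 / lam) := by positivity
    have e6 : m = Real.exp (1 / lam) * (1 / lam) := by rw [hm]; ring
    refine ⟨?_, ?_, ?_⟩
    · rw [div_le_iff₀ (by positivity : (0 : ℝ) < 1 + r)]
      have e7 : 1 / lam ≤ x * (1 + r) := by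
        have e8 : 1 / lam - r / 2 * (1 / lam) ≤ x := by linarith [hX.1]
        have e9 : (1 / lam - r / 2 * (1 / lam)) * (1 + r) ≤ x * (1 + r) :=
          mul_le_mul_of_nonneg_right e8 (by positivity)
        have e10 : (1 / lam - r / 2 * (1 / lam)) * (1 + r) = 1 / lam * (1 + r / 2 - r ^ 2 / 2) := by
          ring
        have e11 : 1 / lam * 1 ≤ 1 / lam * (1 + r / 2 - r ^ 2 / 2) :=
          mul_le_mul_of_nonneg_left (by nlinarith) hl.le
        linarith
      calc 2 * D * m = 2 * D * Real.exp (1 / lam) * (1 / lam) := by rw [e6]; ring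
        _ ≤ 2 * D * Real.exp (1 / lam) * (x * (1 + r)) := mul_le_mul_of_nonneg_left e7 hDE.le
        _ = 2 * D * Real.exp (1 / lam) * x * (1 + r) := by ring
    · have e7 : 1 / lam / 2 ≤ x := by linarith [hX.1]
      calc D * m = 2 * D * Real.exp (1 / lam) * (1 / lam / 2) := by rw [e6]; ring
        _ ≤ 2 * D * Real.exp (1 / lam) * x := mul_le_mul_of_nonneg_left e7 hDE.le
    · have e7 : x ≤ 2 * (1 / lam) := by linarith [hX.2]
      calc 2 * D * Real.exp (1 / lam) * x ≤ 2 * D * Real.exp (1 / lam) * (2 * (1 / lam)) :=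
            mul_le_mul_of_nonneg_left e7 hDE.le
        _ = 4 * D * m := by rw [e6]; ring
  -- deterministic values
  have hdet : ∀ k < J, ∀ᶠ X : ℝ in atTop, ∀ d : ℕ,
      |cs k * ytil a₀ σ ρ (q k) X d (-δ) - cs k * HS ws k 0| ≤ ε₁ := by
    intro k hk
    obtain ⟨X₀, hX₀⟩ := ytil_det hδ hθ0 hρ (hqB0 k hk) a₀ ha₀ σ (ε₁ / (|cs k| + 1)) (by positivity)
    filter_upwards [eventually_ge_atTop X₀, eventually_gt_atTop 0] with X hX _ d
    have e1 := hX₀ X hX d (-δ) ⟨by linarith, by linarith⟩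
    rw [(hCC δ hδ ρ (q k) (q k) θ θ hρ hρ1 (hqB k hk) (hqB k hk)).1 (-δ) le_rfl,
      (hq k hk).2] at e1
    rw [← mul_sub, abs_mul]
    calc |cs k| * |ytil a₀ σ ρ (q k) X d (-δ) - HS ws k 0| ≤ (|cs k| + 1) * (ε₁ / (|cs k| + 1)) :=
          mul_le_mul (by linarith) e1 (abs_nonneg _) (by positivity)
      _ = ε₁ := by field_simp
  have hdet' : ∀ᶠ X : ℝ in atTop, ∀ k ∈ range J, ∀ d : ℕ,
      |cs k * ytil a₀ σ ρ (q k) X d (-δ) - cs k * HS ws k 0| ≤ ε₁ := by
    rw [Filter.eventually_all_finset]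
    intro k hk
    exact hdet k (Finset.mem_range.1 hk)
  filter_upwards [hs2, eventually_ge_atTop X₁, eventually_gt_atTop (Real.exp 1), hIX, hdet',
    hdom R lam hlam F hFn hFd η (by linarith) r hr0,
    hm0 h5 R D S hS lam hlam (min ε₁ ε₂) (lt_min hε₁ hε₂),
    hm1 h4 R D S hS lam hlam J ws cs δ hδ hδ' hwsk c₀ hc₀ σ hσ a₀ ha₀ ρ q hρ hρ1
      (fun k hk => (hq k hk).1) ε₁ hε₁,
    hm2 h3 R D S hS lam hlam J ws cs δ hδ hδ' hwsk c₀ hc₀ σ hσ a₀ ha₀ ρ q hρ hρ1
      (fun k hk => (hq k hk).1) ε₁ hε₁] with X x1 x2 x3 x4 x5 x6 x7 x8 x9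
  obtain ⟨w, V, hSW, hV⟩ := hX₁ X x2
  obtain ⟨i1, i2, i3⟩ := x4
  have hX1 : 1 < X := by
    have : (1 : ℝ) < Real.exp 1 := by
      have := Real.add_one_le_exp (1 : ℝ); linarith
    linarith
  have hlog : 0 < Real.log X := Real.log_pos hX1
  have hI0 : 0 < IX D lam X := lt_of_lt_of_le (by positivity) i2
  set κ' : ℝ := (1 + r) * Real.log X * D * V * (∫ t, F t) / IX D lam X with hκ'
  have hκI : κ' * IX D lam X = (1 + r) * Real.log X * D * V * (∫ t, F t) :=
    div_mul_cancel₀ _ hI0.ne'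
  have hV0 := hSW.pos
  refine ⟨IX D lam X, κ', cfS w F r X, i2, i3, by positivity, ?_, x7.trans (min_le_right _ _), ?_⟩
  · -- the size of κ'
    have j1 : (1 + r) * Real.log X * D * V * (∫ t, F t) ≤
        (1 + r) * κ₀ * D * ((1 + r) * m) := by
      have j2 : (1 + r) * Real.log X * D * V * (∫ t, F t) =
          ((1 + r) * D * (V * Real.log X)) * ∫ t, F t := by ring
      rw [j2]
      calc ((1 + r) * D * (V * Real.log X)) * ∫ t, F t
          ≤ ((1 + r) * D * κ₀) * ((1 + r) * m) := by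
            refine mul_le_mul (mul_le_mul_of_nonneg_left hV (by positivity)) hFle hFp.le
              (by positivity)
        _ = _ := by ring
    have j3 : (1 + r) * κ₀ * D * ((1 + r) * m) = (1 + r) ^ 4 * (2 / η) * (2 * D * m / (1 + r)) := by
      rw [hκ₀]
      field_simp
      ring
    rw [hκ', div_le_iff₀ hI0]
    calc _ ≤ (1 + r) ^ 4 * (2 / η) * (2 * D * m / (1 + r)) := by rw [← j3]; exact j1
      _ ≤ κ * IX D lam X := mul_le_mul hrκ i1 (by positivity) hκ0.le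
  · refine ⟨?_, ?_, x7.trans (min_le_left _ _), ?_, ?_, ?_, ?_⟩
    · intro d hd
      exact x6 ε₀ A w V hSW d hd
    · intro k hk d
      refine continuous_const.mul ?_
      rw [continuous_iff_continuousAt]
      intro Y
      exact (hasDerivAt_ytil hδ hρ (hqB0 k hk) a₀ ha₀ σ X hX1 (c₀ * d) Y).continuousAt
    · intro k hk Y hY
      have := x8 k hk Y hY
      rw [(hq k hk).2] at this
      exact this
    · intro k hk d _
      exact x5 k (Finset.mem_range.2 hk) (c₀ * d)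
    · intro i hi j hj Y₁ hY₁ Y₂ hY₂ hY
      have := x9 i hi j hj Y₁ hY₁ Y₂ hY₂ hY
      rw [(hq i hi).2, (hq j hj).2] at this
      exact this
    · intro i hi j hj Y₁ hY₁ Y₂ hY₂
      have := x1 w V hSW hV i hi j hj Y₁ hY₁ Y₂ hY₂
      rw [(hq i hi).2, (hq j hj).2] at this
      rw [hκI]
      exact this

end Pool.Agent.MP0016c7.PC
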