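import Mathlib
import Pool.Agent.Lib.MP_0016c7_nt.Rz.TestR
import Pool.Agent.Lib.MP_0016c7_nt.Rz.Ker4
import Pool.Agent.Lib.MP_0016c7_nt.PC.Slices
import Pool.Agent.Lib.MP_0016c7_nt.PC.A.StmA

set_option autoImplicit false

/-!
Project PrimeConductors, block [A]: the bad primes in one window.
-/

open Finset MeasureTheory Filter Topology
open scoped Real ContDiff

namespace Pool.Agent.MP0016c7.PC

open Pool.Agent.MP0016c7.Rz
open Pool.Agent.BVall (OmL)

private lemma win_ws_le {J : ℕ} {ws : ℕ → ℝ} {δ : ℝ} (hδ : 0 < δ)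
    (hws : ∀ k, k + 1 < J → ws k + δ ≤ ws (k + 1)) :
    ∀ l : ℕ, l < J → ∀ k : ℕ, k ≤ l → ws k ≤ ws l := by
  intro l
  induction l with
  | zero => intro _ k hk; rw [Nat.le_zero.1 hk]
  | succ l ih =>
    intro hl k hk
    rcases Nat.eq_or_lt_of_le hk with h | h
    · rw [h]
    · have h1 := ih (by omega) k (by omega)
      have h2 := hws l hl
      linarith

theorem jf_window (hMD : A_MD) (hbs : A_badsum) (hprof : A_prof) (hlin : A_lin) (hsum : A_sumP)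
    (h1 : IF_sieve) (h2 : JF_smW) (h3 : JF_covP) (h4 : JF_fmP) (h5 : JF_zmP) : JF_window := by
  intro A δ κ μ E J ws cs w u₁ u₂ y g₁ g₂ hC hEB R NZ D c₀ σ hF E' hE'
  refine ⟨3, fun lam _ hlam => ?_⟩
  have hJ := hC.hJ
  have hδ := hC.hδ
  have hδ' := hC.hδ'
  have hκ0 : 0 < κ := by linarith [hC.hκ]
  have h2κ : 0 < 2 / κ := by positivity
  have hlen := hC.hlen
  have hwsle := win_ws_le hδ hC.hws
  have hwsJ0 : 0 < ws (J - 1) :=
    lt_of_lt_of_le hC.hws₀ (hwsle (J - 1) (by omega) 0 (Nat.zero_le _))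
  obtain ⟨q, hq, hqo⟩ := p_slices J ws δ hJ hδ hδ' hC.hws₀ hC.hws (by linarith)
  obtain ⟨ρ, hρ, hρn, hρe, hρ1⟩ := exists_rho δ hδ
  obtain ⟨⟨hH0, hHa, hHc, hHz⟩, hpr⟩ := hprof J ws cs δ hJ hδ hC.hws₀ hC.hws hC.hcs
  obtain ⟨hhB, hhn, hHle⟩ := hpr q fun k hk => ⟨(hq k hk).1, (hq k hk).2.1, (hq k hk).2.2.2.1⟩
  obtain ⟨τ, hτc, hPer, hBad⟩ := hF.data ρ hρ hρn hρe hρ1 (ws (J - 1)) (HJ ws cs J)
    (fun t => ∑ k ∈ range J, cs k * q k t) hwsJ0 (by linarith) hH0 hHa hHc hHz hhB hhn hHle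
  set a₀ : ℝ := if σ = 1 then 0 else 1 with ha₀
  have ha₀' : a₀ = 0 ∨ a₀ = 1 := by
    rw [ha₀]; split_ifs
    · exact Or.inl rfl
    · exact Or.inr rfl
  set T₀ : ℝ → ℕ → ℝ → ℝ := fun X d Y =>
    ytil a₀ σ ρ (fun t => ∑ k ∈ range J, cs k * q k t) X (c₀ * d) Y with hT₀
  have hhB0 : Bump (fun t => ∑ k ∈ range J, cs k * q k t) 0 (ws (J - 1) + 3 * δ) :=
    ⟨hhB.smooth, fun t ht => ⟨by linarith [(hhB.supp t ht).1], (hhB.supp t ht).2⟩⟩
  have hqB : ∀ k < J, Bump (q k) 0 (ws (J - 1) + 3 * δ) := fun k hk =>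
    ⟨(hq k hk).1.smooth, fun t ht => ⟨by linarith [((hq k hk).1.supp t ht).1],
      by linarith [((hq k hk).1.supp t ht).2, hwsle (J - 1) (by omega) k (by omega)]⟩⟩
  have hT₀c : ∀ X : ℝ, 1 < X → ∀ d, Continuous (T₀ X d) := by
    intro X hX d
    rw [continuous_iff_continuousAt]
    intro Y
    exact (hasDerivAt_ytil hδ hρ hhB0 a₀ ha₀' σ X hX (c₀ * d) Y).continuousAt
  -- the moment data
  obtain ⟨K, c, hc, hMDe⟩ := hMD h1 h2 h3 h4 h5 δ κ J ws cs hJ hδ hδ' hC.hws₀ hC.hws hC.hκ hlen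
    R D c₀ σ hF.odd hF.hD hF.hc₀ hF.hσ hF.tw hF.pcl a₀ ha₀' ρ q hρ hρ1
    (fun k hk => ⟨(hq k hk).1, (hq k hk).2.2.1⟩) lam hlam
  set G : ℝ := E' - E with hG
  have hG0 : 0 < G := by rw [hG]; linarith
  have hGc : 0 < G * c := mul_pos hG0 hc
  -- the small parameters
  set M : ℝ := |E| * |K| + 1 with hM
  have hM0 : 0 < M := by positivity
  set ξ : ℝ := min 1 (G * c / (4 * M)) with hξ
  have hξ0 : 0 < ξ := lt_min one_pos (by positivity)
  have hξ1 : ξ ≤ 1 := min_le_left _ _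
  have hξM : ξ * M ≤ G * c / 4 := by
    have : ξ ≤ G * c / (4 * M) := min_le_right _ _
    calc ξ * M ≤ G * c / (4 * M) * M := mul_le_mul_of_nonneg_right this hM0.le
      _ = G * c / 4 := by field_simp
  have hε'0 : 0 < G * c / 8 := by positivity
  set ε₂ : ℝ := G * c / (4 * (|E'| + 1)) with hε₂
  have hE1 : 0 < |E'| + 1 := by positivity
  have hε₂0 : 0 < ε₂ := by positivity
  have hε₂E : |E'| * ε₂ ≤ G * c / 4 := by
    calc |E'| * ε₂ ≤ (|E'| + 1) * ε₂ := mul_le_mul_of_nonneg_right (by linarith) hε₂0.le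
      _ = G * c / 4 := by rw [hε₂]; field_simp
  -- the energy bound
  obtain ⟨ε₁, hε₁, hEn⟩ := hEB ρ hρ hρn hρ1 (fun i j => cs i * cs j * ∫ t, q i t * q j t)
    (by
      intro k hk
      have h6 : (∫ t, q k t * q k t) = ∫ t, q k t ^ 2 := by
        congr 1; funext t; ring
      have h7 : 0 ≤ ∫ t, q k t ^ 2 := integral_nonneg fun t => sq_nonneg _
      have h8 := (hq k hk).2.2.2.2
      simp only [h6]
      constructor
      · exact mul_nonneg (mul_self_nonneg _) h7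
      · calc cs k * cs k * ∫ t, q k t ^ 2 ≤ cs k * cs k * sk ws k :=
            mul_le_mul_of_nonneg_left h8 (mul_self_nonneg _)
          _ = cs k ^ 2 * sk ws k := by ring)
    (by
      intro k hk l hl hkl
      have h6 := hqo k hk l hl hkl
      have h7 : 0 ≤ cs k * cs l := mul_nonneg (hC.hcs k hk) (hC.hcs l hl)
      rw [abs_mul, abs_of_nonneg h7]
      split_ifs with h8
      · rw [if_pos h8] at h6
        calc cs k * cs l * |∫ t, q k t * q l t| ≤ cs k * cs l * δ :=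
              mul_le_mul_of_nonneg_left h6 h7
          _ = δ * (cs k * cs l) := by ring
      · rw [if_neg h8] at h6
        have h9 := mul_le_mul_of_nonneg_left h6 h7
        linarith)
    K (G * c / 8) hε'0
  have hb := hbs A δ κ μ J ws cs w u₁ u₂ y g₁ g₂ hC R NZ T₀ τ hT₀c hτc hPer hBad lam hlam ξ hξ0
  have hev := (hMDe ε₁ ε₂ hε₁ hε₂0).and (hb.and ((hsum R lam hlam).and (eventually_gt_atTop 1)))
  obtain ⟨X₀, hX₀⟩ := Filter.eventually_atTop.1 hev
  refine ⟨X₀, fun X hX => ?_⟩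
  obtain ⟨⟨I, κ', cf', hcI, hIK, hκ'0, hκ'κ, hmass, hmd⟩, hbX, ⟨-, hsX⟩, hX1⟩ := hX₀ X hX
  have hX0 : 0 < X := by linarith
  have hI0 : 0 ≤ I := by linarith
  have h10 := hEn I κ' hI0 hIK hκ'0 hκ'κ (SX R X) (cfP R lam X) cf' _ hmd
  have h11 : ∀ d v, T₀ X d v = ∑ k ∈ range J, cs k * ytil a₀ σ ρ (q k) X (c₀ * d) v := fun d v =>
    hlin δ (ws (J - 1) + 3 * δ) hδ ρ hρ J cs q hqB a₀ ha₀' σ X hX1 (c₀ * d) v
  simp only [h11] at hbX
  set Q : ℝ := ∑ d ∈ SX R X, cfP R lam X d * qP w u₁ u₂ g₁ g₂ (1 / 2 + δ)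
    (fun v => y v - ∑ k ∈ range J, cs k * ytil a₀ σ ρ (q k) X (c₀ * d) (1 / 2 - v)) with hQ
  have h12 : Q ≤ I * E + G * c / 8 := h10
  have h13 : ∑ d ∈ SX R X, cfP R lam X d = psiR R lam (X * Real.exp (1 / lam)) (fun _ => 1) / X := by
    rw [← hsX (fun _ => 1)]
    exact Finset.sum_congr rfl fun d _ => (mul_one _).symm
  rw [h13] at hmass
  set P : ℝ := psiR R lam (X * Real.exp (1 / lam)) (fun _ => 1) / X with hP
  have hIE : I * E ≤ |E| * |K| + I * E := by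
    have : 0 ≤ |E| * |K| := by positivity
    linarith
  have h14 : ξ * (I * E) ≤ ξ * (|E| * |K|) := by
    refine mul_le_mul_of_nonneg_left ?_ hξ0.le
    calc I * E ≤ I * |E| := mul_le_mul_of_nonneg_left (le_abs_self E) hI0
      _ ≤ |K| * |E| := mul_le_mul_of_nonneg_right (hIK.trans (le_abs_self K)) (abs_nonneg E)
      _ = |E| * |K| := mul_comm _ _
  have h15 : (1 + ξ) * Q + ξ ≤ I * E + G * c / 2 := by
    have e1 : (1 + ξ) * Q ≤ (1 + ξ) * (I * E + G * c / 8) :=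
      mul_le_mul_of_nonneg_left h12 (by linarith)
    have e2 : (1 + ξ) * (I * E + G * c / 8) + ξ =
        I * E + ξ * (I * E) + (G * c / 8 + ξ * (G * c / 8)) + ξ := by ring
    have e3 : ξ * (G * c / 8) ≤ 1 * (G * c / 8) := mul_le_mul_of_nonneg_right hξ1 hε'0.le
    have e4 : ξ * (|E| * |K|) + ξ = ξ * M := by rw [hM]; ring
    linarith
  have h16 : E' * I - G * c / 4 ≤ E' * P := by
    have e1 : |E' * (P - I)| ≤ |E'| * ε₂ := by
      rw [abs_mul]
      exact mul_le_mul_of_nonneg_left hmass (abs_nonneg _)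
    have e2 := (abs_le.1 (e1.trans hε₂E)).1
    have e3 : E' * (P - I) = E' * P - E' * I := by ring
    linarith
  have h17 : G * c ≤ G * I := mul_le_mul_of_nonneg_left hcI hG0.le
  have h18 : G * I = E' * I - E * I := by rw [hG]; ring
  have h19 : psiR (fun p => R p ∧ ¬ NZ p) lam (X * Real.exp (1 / lam)) (fun _ => 1) / X ≤
      E' * P := by
    refine hbX.trans (h15.trans ?_)
    have : I * E = E * I := mul_comm _ _
    linarith
  have h20 : P * X = psiR R lam (X * Real.exp (1 / lam)) (fun _ => 1) := by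
    rw [hP]; exact div_mul_cancel₀ _ hX0.ne'
  rw [div_le_iff₀ hX0, mul_assoc, h20] at h19
  exact h19

end Pool.Agent.MP0016c7.PC
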