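import Mathlib
import Pool.Agent.Lib.MP_0016c7_nt.Rz2.Qls
import Pool.Agent.Lib.MP_0016c7_nt.PC.Sv.SIface
import Pool.Agent.Lib.MP_0016c7_nt.PC.W.Fin
import Pool.Agent.Lib.MP_0016c7_nt.PC.E.Fin
import Pool.Agent.Lib.MP_0016c7_nt.PC.TwE
import Pool.Agent.Lib.MP_0016c7_nt.PC.A.Win
import Pool.Agent.Lib.MP_0016c7_nt.PC.A.Mdx
import Pool.Agent.Lib.MP_0016c7_nt.PC.A.A_SO
import Pool.Agent.Lib.MP_0016c7_nt.PC.A.A_tri
import Pool.Agent.Lib.MP_0016c7_nt.PC.A.A_F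
import Pool.Agent.Lib.MP_0016c7_nt.PC.A.A_prof
import Pool.Agent.Lib.MP_0016c7_nt.PC.A.A_lin
import Pool.Agent.Lib.MP_0016c7_nt.PC.A.A_pert
import Pool.Agent.Lib.MP_0016c7_nt.PC.A.A_bad
import Pool.Agent.Lib.MP_0016c7_nt.PC.A.A_sumP
import Pool.Agent.Lib.MP_0016c7_nt.PC.A.A_CC
import Pool.Agent.Lib.MP_0016c7_nt.PC.A.A_dom
import Pool.Agent.Lib.MP_0016c7_nt.PC.A.A_m0
import Pool.Agent.Lib.MP_0016c7_nt.PC.A.A_m2
import Pool.Agent.Lib.MP_0016c7_nt.PC.A.A_m2s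
import Pool.Agent.Lib.MP_0016c7_nt.PC.A.A_badsum

set_option autoImplicit false

/-!
Project PrimeConductors, block [A]: the window inequality from the prime moments.
-/

namespace Pool.Agent.MP0016c7.PC

theorem jf_window_of (h3 : JF_covP) (h4 : JF_fmP) (h5 : JF_zmP) : JF_window :=
  jf_window
    (p_A_MD p_A_SO (p_A_F p_A_tri) (p_A_dom p_A_sumP) p_A_CC (p_A_m0 p_A_sumP p_A_cl)
      (p_A_m1 p_A_sumP p_A_cl p_A_CC) (p_A_m2 p_A_sumP p_A_cl p_A_CC) (p_A_m2s p_A_sumS p_A_CC))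
    (p_A_badsum (p_A_bad p_A_prof) p_A_pert p_A_sumP) p_A_prof p_A_lin p_A_sumP
    IF_sieve_proof (jf_smW jf_err jf_quadp) h3 h4 h5

end Pool.Agent.MP0016c7.PC
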